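import Mathlib

set_option autoImplicit false

namespace Pool.Agent.BB

open Configuration

/-- A finite projective plane of order `n`, in self-dual relational form. -/
structure Plane {P L : Type*} (I : P → L → Prop) (n : ℕ) : Prop where
  join : ∀ p q : P, p ≠ q → ∃ l, I p l ∧ I q l
  meet : ∀ l k : L, l ≠ k → ∃ p, I p l ∧ I p k
  uniq : ∀ (p q : P) (l k : L), I p l → I q l → I p k → I q k → p = q ∨ l = k
  pts : ∀ l, {p | I p l}.ncard = n + 1
  lns : ∀ p, {l | I p l}.ncard = n + 1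
  cp : Nat.card P = n ^ 2 + n + 1
  cl : Nat.card L = n ^ 2 + n + 1
  two : 2 ≤ n

/-- A subplane of order `m` (points `S`, lines `T`) in self-dual relational form. -/
structure Sub {P L : Type*} (I : P → L → Prop) (S : Set P) (T : Set L) (m : ℕ) : Prop where
  jn : ∀ p ∈ S, ∀ q ∈ S, p ≠ q → ∀ l, I p l → I q l → l ∈ T
  mt : ∀ l ∈ T, ∀ k ∈ T, l ≠ k → ∀ p, I p l → I p k → p ∈ S
  pt : ∀ l ∈ T, {p | p ∈ S ∧ I p l}.ncard = m + 1
  ln : ∀ p ∈ S, {l | l ∈ T ∧ I p l}.ncard = m + 1
  cS : S.ncard = m ^ 2 + m + 1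
  cT : T.ncard = m ^ 2 + m + 1
  two : 2 ≤ m

variable {P L : Type*}

theorem Plane.dual {I : P → L → Prop} {n : ℕ} (h : Plane I n) :
    Plane (fun (l : L) (p : P) => I p l) n where
  join := h.meet
  meet := h.join
  uniq := fun l k p q h1 h2 h3 h4 => (h.uniq p q l k h1 h3 h2 h4).symm
  pts := h.lns
  lns := h.pts
  cp := h.cl
  cl := h.cp
  two := h.two

theorem Sub.dual {I : P → L → Prop} {S : Set P} {T : Set L} {m : ℕ} (h : Sub I S T m) :
    Sub (fun (l : L) (p : P) => I p l) T S m where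
  jn := h.mt
  mt := h.jn
  pt := h.ln
  ln := h.pt
  cS := h.cT
  cT := h.cS
  two := h.two

theorem plane_of [Membership P L] [ProjectivePlane P L] [Finite P] [Finite L] :
    Plane (fun (p : P) (l : L) => p ∈ l) (ProjectivePlane.order P L) where
  join := fun p q h => ⟨HasLines.mkLine h, HasLines.mkLine_ax h⟩
  meet := fun l k h => ⟨HasPoints.mkPoint h, HasPoints.mkPoint_ax h⟩
  uniq := fun p q l k h1 h2 h3 h4 => Nondegenerate.eq_or_eq h1 h2 h3 h4
  pts := fun l => by
    have := ProjectivePlane.pointCount_eq (P := P) l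
    rw [← this]
    rfl
  lns := fun p => by
    have := ProjectivePlane.lineCount_eq (L := L) p
    rw [← this]
    rfl
  cp := by
    have := Fintype.ofFinite P
    rw [Nat.card_eq_fintype_card]
    exact ProjectivePlane.card_points P L
  cl := by
    have := Fintype.ofFinite L
    rw [Nat.card_eq_fintype_card]
    exact ProjectivePlane.card_lines P L
  two := ProjectivePlane.one_lt_order P L

/-- A closed configuration with a quadrangle is a projective plane. -/
theorem exists_inst {I : P → L → Prop} {n : ℕ} [Finite P] [Finite L] (h : Plane I n)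
    {F : Set P} {K : Set L}
    (jn : ∀ p ∈ F, ∀ q ∈ F, p ≠ q → ∀ l, I p l → I q l → l ∈ K)
    (mt : ∀ l ∈ K, ∀ k ∈ K, l ≠ k → ∀ p, I p l → I p k → p ∈ F)
    {a b c d : P} (ha : a ∈ F) (hb : b ∈ F) (hc : c ∈ F) (hd : d ∈ F)
    (h1 : ∀ l, I a l → I b l → ¬ I c l) (h2 : ∀ l, I a l → I b l → ¬ I d l)
    (h3 : ∀ l, I a l → I c l → ¬ I d l) (h4 : ∀ l, I b l → I c l → ¬ I d l) :
    ∃ (_ : Membership F K) (_ : ProjectivePlane F K),
      ∀ (p : F) (l : K), p ∈ l ↔ I (p : P) (l : L) := by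
  classical
  have nab : a ≠ b := by
    rintro rfl
    by_cases e : a = c
    · subst e
      obtain ⟨l, hl⟩ : ∃ l, I a l := by
        have h0 : 0 < {l | I a l}.ncard := by rw [h.lns a]; omega
        exact (Set.ncard_pos (Set.toFinite _)).1 h0
      exact h1 l hl hl hl
    · obtain ⟨l, hl, hl'⟩ := h.join a c e
      exact h1 l hl hl hl'
  have nac : a ≠ c := by
    rintro rfl
    obtain ⟨l, hl, hl'⟩ := h.join a b nab
    exact h1 l hl hl' hl
  have nad : a ≠ d := by
    rintro rfl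
    obtain ⟨l, hl, hl'⟩ := h.join a b nab
    exact h2 l hl hl' hl
  have nbc : b ≠ c := by
    rintro rfl
    obtain ⟨l, hl, hl'⟩ := h.join a b nab
    exact h1 l hl hl' hl'
  have nbd : b ≠ d := by
    rintro rfl
    obtain ⟨l, hl, hl'⟩ := h.join a b nab
    exact h2 l hl hl' hl'
  have ncd : c ≠ d := by
    rintro rfl
    obtain ⟨l, hl, hl'⟩ := h.join a c nac
    exact h3 l hl hl' hl'
  obtain ⟨lab, hab1, hab2⟩ := h.join a b nab
  obtain ⟨lac, hac1, hac2⟩ := h.join a c nac
  obtain ⟨lbc, hbc1, hbc2⟩ := h.join b c nbc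
  obtain ⟨lad, had1, had2⟩ := h.join a d nad
  obtain ⟨lbd, hbd1, hbd2⟩ := h.join b d nbd
  obtain ⟨lcd, hcd1, hcd2⟩ := h.join c d ncd
  let M : Membership F K := ⟨fun l p => I (p : P) (l : L)⟩
  have memdef : ∀ (p : F) (l : K), p ∈ l ↔ I (p : P) (l : L) := fun _ _ => Iff.rfl
  have kab : lab ∈ K := jn a ha b hb nab _ hab1 hab2
  have kac : lac ∈ K := jn a ha c hc nac _ hac1 hac2
  have kbc : lbc ∈ K := jn b hb c hc nbc _ hbc1 hbc2
  have kad : lad ∈ K := jn a ha d hd nad _ had1 had2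
  have kbd : lbd ∈ K := jn b hb d hd nbd _ hbd1 hbd2
  have kcd : lcd ∈ K := jn c hc d hd ncd _ hcd1 hcd2
  let inst : ProjectivePlane F K :=
    { exists_point := by
        rintro ⟨l, hl⟩
        by_cases ia : I a l
        · by_cases ib : I b l
          · refine ⟨⟨c, hc⟩, ?_⟩
            exact fun e => h1 l ia ib e
          · exact ⟨⟨b, hb⟩, ib⟩
        · exact ⟨⟨a, ha⟩, ia⟩
      exists_line := by
        rintro ⟨p, hp⟩
        by_cases i1 : I p lab
        · by_cases i2 : I p lcd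
          · refine ⟨⟨lac, kac⟩, ?_⟩
            intro e
            have e : I p lac := e
            have hne : lab ≠ lac := by
              rintro rfl; exact h1 _ hab1 hab2 hac2
            rcases h.uniq p a lab lac i1 hab1 e hac1 with rfl | e2
            · exact h3 lcd i2 hcd1 hcd2
            · exact hne e2
          · exact ⟨⟨lcd, kcd⟩, i2⟩
        · exact ⟨⟨lab, kab⟩, i1⟩
      eq_or_eq := by
        rintro ⟨p, hp⟩ ⟨q, hq⟩ ⟨l, hl⟩ ⟨k, hk⟩ g1 g2 g3 g4
        rcases h.uniq p q l k g1 g2 g3 g4 with rfl | rfl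
        · left; rfl
        · right; rfl
      mkPoint := fun {l k} hlk =>
        ⟨(h.meet l k (fun e => hlk (Subtype.ext e))).choose,
          mt l l.2 k k.2 (fun e => hlk (Subtype.ext e)) _
            (h.meet l k (fun e => hlk (Subtype.ext e))).choose_spec.1
            (h.meet l k (fun e => hlk (Subtype.ext e))).choose_spec.2⟩
      mkPoint_ax := fun {l k} hlk =>
        (h.meet l k (fun e => hlk (Subtype.ext e))).choose_spec
      mkLine := fun {p q} hpq =>
        ⟨(h.join p q (fun e => hpq (Subtype.ext e))).choose,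
          jn p p.2 q q.2 (fun e => hpq (Subtype.ext e)) _
            (h.join p q (fun e => hpq (Subtype.ext e))).choose_spec.1
            (h.join p q (fun e => hpq (Subtype.ext e))).choose_spec.2⟩
      mkLine_ax := fun {p q} hpq =>
        (h.join p q (fun e => hpq (Subtype.ext e))).choose_spec
      exists_config := by
        -- p1 = c? choose p1 = d, p2 = a, p3 = b with lines
        refine ⟨⟨c, hc⟩, ⟨a, ha⟩, ⟨b, hb⟩, ⟨lcd, kcd⟩, ⟨lab, kab⟩, ⟨lad, kad⟩, ?_, ?_, ?_, ?_, ?_,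
          ?_, ?_, ?_⟩
        · exact fun e => h1 lab hab1 hab2 e
        · exact fun e => h3 lad had1 e had2
        · exact fun e => h3 lcd e hcd1 hcd2
        · exact hab1
        · exact had1
        · exact fun e => h4 lcd e hcd1 hcd2
        · exact hab2
        · exact fun e => h2 lad had1 e had2 }
  exact ⟨M, inst, memdef⟩

/-- A closed configuration with a quadrangle is a subplane of some order. -/
theorem sub_of_quad [Finite P] [Finite L] {I : P → L → Prop} {n : ℕ} (h : Plane I n)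
    {F : Set P} {K : Set L}
    (jn : ∀ p ∈ F, ∀ q ∈ F, p ≠ q → ∀ l, I p l → I q l → l ∈ K)
    (mt : ∀ l ∈ K, ∀ k ∈ K, l ≠ k → ∀ p, I p l → I p k → p ∈ F)
    {a b c d : P} (ha : a ∈ F) (hb : b ∈ F) (hc : c ∈ F) (hd : d ∈ F)
    (h1 : ∀ l, I a l → I b l → ¬ I c l) (h2 : ∀ l, I a l → I b l → ¬ I d l)
    (h3 : ∀ l, I a l → I c l → ¬ I d l) (h4 : ∀ l, I b l → I c l → ¬ I d l) :
    ∃ f, Sub I F K f := by
  obtain ⟨M, inst, memdef⟩ := exists_inst h jn mt ha hb hc hd h1 h2 h3 h4
  have pl : Plane (fun (p : F) (l : K) => p ∈ l) (ProjectivePlane.order F K) := plane_of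
  refine ⟨ProjectivePlane.order F K, jn, mt, ?_, ?_, ?_, ?_, pl.two⟩
  · intro l hl
    rw [← pl.pts ⟨l, hl⟩]
    rw [← Nat.card_coe_set_eq, ← Nat.card_coe_set_eq]
    refine Nat.card_congr ⟨fun x => ⟨⟨x.1, x.2.1⟩, (memdef _ _).2 x.2.2⟩,
      fun x => ⟨x.1.1, x.1.2, (memdef _ _).1 x.2⟩, ?_, ?_⟩
    · intro x; rfl
    · intro x; rfl
  · intro p hp
    rw [← pl.lns ⟨p, hp⟩]
    rw [← Nat.card_coe_set_eq, ← Nat.card_coe_set_eq]
    refine Nat.card_congr ⟨fun x => ⟨⟨x.1, x.2.1⟩, (memdef _ _).2 x.2.2⟩,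
      fun x => ⟨x.1.1, x.1.2, (memdef _ _).1 x.2⟩, ?_, ?_⟩
    · intro x; rfl
    · intro x; rfl
  · rw [← Nat.card_coe_set_eq]
    exact pl.cp
  · rw [← Nat.card_coe_set_eq]
    exact pl.cl

end Pool.Agent.BB
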