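import Pool.Agent.Lib.MP_bbcd91_co.A1

set_option autoImplicit false

namespace Pool.Agent.BB

variable {P L : Type*} {I : P → L → Prop} {n : ℕ}

/-- `g` is a collineation. -/
def Col (I : P → L → Prop) (g : Equiv.Perm P × Equiv.Perm L) : Prop :=
  ∀ p l, I (g.1 p) (g.2 l) ↔ I p l

/-- all points of `a` are fixed -/
def Ax (I : P → L → Prop) (g : Equiv.Perm P × Equiv.Perm L) (a : L) : Prop :=
  ∀ p, I p a → g.1 p = p

/-- all lines through `c` are fixed -/
def Cen (I : P → L → Prop) (g : Equiv.Perm P × Equiv.Perm L) (c : P) : Prop :=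
  ∀ l, I c l → g.2 l = l

theorem Col.dual {g : Equiv.Perm P × Equiv.Perm L} (h : Col I g) :
    Col (fun (l : L) (p : P) => I p l) (g.2, g.1) := fun l p => h p l

theorem Col.one : Col I (1 : Equiv.Perm P × Equiv.Perm L) := fun _ _ => Iff.rfl

theorem Col.mul {g k : Equiv.Perm P × Equiv.Perm L} (h : Col I g) (h' : Col I k) :
    Col I (g * k) := fun p l => (h (k.1 p) (k.2 l)).trans (h' p l)

theorem Col.inv {g : Equiv.Perm P × Equiv.Perm L} (h : Col I g) : Col I g⁻¹ := by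
  intro p l
  rw [← h]
  simp

theorem Col.pow {g : Equiv.Perm P × Equiv.Perm L} (h : Col I g) (k : ℕ) : Col I (g ^ k) := by
  induction k with
  | zero => rw [pow_zero]; exact Col.one
  | succ k ih => rw [pow_succ]; exact ih.mul h

theorem fixL (h : Plane I n) {g : Equiv.Perm P × Equiv.Perm L} (hg : Col I g) {p q : P} {l : L}
    (hpq : p ≠ q) (hp : g.1 p = p) (hq : g.1 q = q) (h1 : I p l) (h2 : I q l) : g.2 l = l := by
  have e1 : I p (g.2 l) := by
    have := (hg p l).2 h1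
    rwa [hp] at this
  have e2 : I q (g.2 l) := by
    have := (hg q l).2 h2
    rwa [hq] at this
  rcases h.uniq p q (g.2 l) l e1 e2 h1 h2 with e | e
  · exact absurd e hpq
  · exact e

theorem fixP (h : Plane I n) {g : Equiv.Perm P × Equiv.Perm L} (hg : Col I g) {p : P} {l k : L}
    (hlk : l ≠ k) (hl : g.2 l = l) (hk : g.2 k = k) (h1 : I p l) (h2 : I p k) : g.1 p = p :=
  fixL h.dual hg.dual hlk hl hk h1 h2

theorem ex_pt (h : Plane I n) (l : L) (A : Finset P) (hA : A.card ≤ n) :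
    ∃ p, I p l ∧ p ∉ A := by
  by_contra hne
  push Not at hne
  have h1 : {p | I p l} ⊆ (A : Set P) := fun p hp => hne p hp
  have h2 := Set.ncard_le_ncard h1 A.finite_toSet
  rw [h.pts, Set.ncard_coe_finset] at h2
  omega

theorem ex_ln (h : Plane I n) (p : P) (A : Finset L) (hA : A.card ≤ n) :
    ∃ l, I p l ∧ l ∉ A := ex_pt h.dual p A hA

theorem eq_one (h : Plane I n) {g : Equiv.Perm P × Equiv.Perm L} (hg : Col I g)
    (h1 : ∀ p, g.1 p = p) : g = 1 := by
  classical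
  have h2 : ∀ l, g.2 l = l := by
    intro l
    obtain ⟨p, hp, -⟩ := ex_pt h l ∅ (by simp)
    obtain ⟨q, hq, hq'⟩ := ex_pt h l {p} (by have := h.two; simp; omega)
    exact fixL h hg (p := q) (q := p) (by simpa using hq') (h1 _) (h1 _) hq hp
  exact Prod.ext (Equiv.ext h1) (Equiv.ext h2)

theorem lemA (h : Plane I n) {g : Equiv.Perm P × Equiv.Perm L} (hg : Col I g) (k : L)
    (h1 : ∀ p, ¬ I p k → g.1 p = p) : g = 1 := by
  classical
  have h2 : ∀ l, l ≠ k → g.2 l = l := by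
    intro l hlk
    obtain ⟨r, hr, hr'⟩ := h.meet l k hlk
    obtain ⟨p, hp, hp'⟩ := ex_pt h l {r} (by have := h.two; simp; omega)
    obtain ⟨q, hq, hq'⟩ := ex_pt h l {r, p} (by
      have := h.two; have := Finset.card_le_two (a := r) (b := p); omega)
    have hpr : p ≠ r := by simpa using hp'
    have hqr : q ≠ r ∧ q ≠ p := by simpa using hq'
    have e1 : ¬ I p k := fun e => by
      rcases h.uniq p r l k hp hr e hr' with e' | e'
      · exact hpr e'
      · exact hlk e'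
    have e2 : ¬ I q k := fun e => by
      rcases h.uniq q r l k hq hr e hr' with e' | e'
      · exact hqr.1 e'
      · exact hlk e'
    exact fixL h hg (p := p) (q := q) (fun e => hqr.2 e.symm) (h1 _ e1) (h1 _ e2) hp hq
  refine eq_one h hg (fun p => ?_)
  obtain ⟨l1, hl1, hl1'⟩ := ex_ln h p {k} (by have := h.two; simp; omega)
  obtain ⟨l2, hl2, hl2'⟩ := ex_ln h p {k, l1} (by
      have := h.two; have := Finset.card_le_two (a := k) (b := l1); omega)
  have n1 : l1 ≠ k := by simpa using hl1'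
  have n2 : l2 ≠ k ∧ l2 ≠ l1 := by simpa using hl2'
  exact fixP h hg (l := l1) (k := l2) (fun e => n2.2 e.symm) (h2 _ n1) (h2 _ n2.1) hl1 hl2

theorem ax_of (h : Plane I n) {g : Equiv.Perm P × Equiv.Perm L} (hg : Col I g) {c : P} {x : L}
    (hc : Cen I g c) (hx : g.2 x = x) (hcx : ¬ I c x) : Ax I g x := by
  intro w hw
  have hwc : w ≠ c := fun e => hcx (e ▸ hw)
  obtain ⟨l, h1, h2⟩ := h.join w c hwc
  exact fixP h hg (l := l) (k := x) (fun e => hcx (e ▸ h2)) (hc l h2) hx h1 hw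

theorem cen_of (h : Plane I n) {g : Equiv.Perm P × Equiv.Perm L} (hg : Col I g) {a : L} {x : P}
    (ha : Ax I g a) (hx : g.1 x = x) (hxa : ¬ I x a) : Cen I g x :=
  ax_of h.dual hg.dual (c := a) (x := x) ha hx hxa

theorem two_cen (h : Plane I n) {g : Equiv.Perm P × Equiv.Perm L} (hg : Col I g) {c d : P}
    (hc : Cen I g c) (hd : Cen I g d) (hcd : c ≠ d) : g = 1 := by
  obtain ⟨k, h1, h2⟩ := h.join c d hcd
  refine lemA h hg k (fun w hw => ?_)
  obtain ⟨l1, h3, h4⟩ := h.join w c (fun e => hw (e ▸ h1))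
  obtain ⟨l2, h5, h6⟩ := h.join w d (fun e => hw (e ▸ h2))
  refine fixP h hg (l := l1) (k := l2) (fun e => ?_) (hc _ h4) (hd _ h6) h3 h5
  subst e
  rcases h.uniq c d l1 k h4 h6 h1 h2 with e' | e'
  · exact hcd e'
  · exact hw (e' ▸ h3)

theorem two_ax (h : Plane I n) {g : Equiv.Perm P × Equiv.Perm L} (hg : Col I g) {a b : L}
    (ha : Ax I g a) (hb : Ax I g b) (hab : a ≠ b) : g = 1 := by
  have := two_cen h.dual hg.dual (c := a) (d := b) ha hb hab
  have h1 : g.2 = 1 := congrArg Prod.fst this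
  have h2 : g.1 = 1 := congrArg Prod.snd this
  exact Prod.ext h2 h1

/-- fixed points and lines -/
def FP (g : Equiv.Perm P × Equiv.Perm L) : Set P := {p | g.1 p = p}
def FL (g : Equiv.Perm P × Equiv.Perm L) : Set L := {l | g.2 l = l}

theorem sub_fix [Finite P] [Finite L] (h : Plane I n) {g : Equiv.Perm P × Equiv.Perm L}
    (hg : Col I g) {a b c d : P} (ha : g.1 a = a) (hb : g.1 b = b) (hc : g.1 c = c)
    (hd : g.1 d = d)
    (h1 : ∀ l, I a l → I b l → ¬ I c l) (h2 : ∀ l, I a l → I b l → ¬ I d l)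
    (h3 : ∀ l, I a l → I c l → ¬ I d l) (h4 : ∀ l, I b l → I c l → ¬ I d l) :
    ∃ f, Sub I (FP g) (FL g) f :=
  sub_of_quad h (fun _ hp _ hq hpq _ h1 h2 => fixL h hg hpq hp hq h1 h2)
    (fun _ hl _ hk hlk _ h1 h2 => fixP h hg hlk hl hk h1 h2) ha hb hc hd h1 h2 h3 h4

/-- points of the subplane off a line of it -/
theorem Sub.off [Finite P] {S : Set P} {T : Set L} {m : ℕ} (s : Sub I S T m) {l : L}
    (hl : l ∈ T) : {p | p ∈ S ∧ ¬ I p l}.ncard = m ^ 2 := by
  have h1 := Set.ncard_inter_add_ncard_diff_eq_ncard S {p | I p l}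
  have h2 := s.pt l hl
  have h3 : {p | p ∈ S ∧ I p l} = S ∩ {p | I p l} := rfl
  have h4 : {p | p ∈ S ∧ ¬ I p l} = S \ {p | I p l} := rfl
  rw [h3] at h2
  rw [h4]
  rw [s.cS, h2] at h1
  omega

/-- Existence of a nonfixed point on a fixed line. -/
theorem ex_nonfixed (h : Plane I n) {g : Equiv.Perm P × Equiv.Perm L} (hg : Col I g)
    (hne : g ≠ 1) {a b : L} (hab : a ≠ b) (ha : g.2 a = a) (hb : g.2 b = b) :
    ∃ l z, g.2 l = l ∧ I z l ∧ g.1 z ≠ z := by
  by_contra hcon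
  push Not at hcon
  exact hne (two_ax h hg (hcon a · ha) (hcon b · hb) hab)

theorem Sub.ex_two [Finite L] {S : Set P} {T : Set L} {m : ℕ} (s : Sub I S T m) :
    ∃ a ∈ T, ∃ b ∈ T, a ≠ b := by
  have h1 : 1 < T.ncard := by rw [s.cT]; have := s.two; nlinarith
  obtain ⟨a, b, ha, hb, hab⟩ := (Set.one_lt_ncard_iff).1 h1
  exact ⟨a, ha, b, hb, hab⟩

/-- Bruck bound -/
theorem bruck [Finite P] [Finite L] (h : Plane I n) {g : Equiv.Perm P × Equiv.Perm L}
    (hg : Col I g) (hne : g ≠ 1) {f : ℕ} (s : Sub I (FP g) (FL g) f) : f ^ 2 ≤ n := by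
  classical
  obtain ⟨a, ha, b, hb, hab⟩ := s.ex_two
  obtain ⟨l, z, hl, hz, hgz⟩ := ex_nonfixed h hg hne hab ha hb
  have key : {p | p ∈ FP g ∧ ¬ I p l}.ncard ≤ ({k | I z k} \ {l}).ncard := by
    have ex : ∀ p, p ∈ FP g → ∃ k, I p k ∧ I z k := by
      intro p hp
      refine h.join p z ?_
      rintro rfl
      exact hgz hp
    have : Nonempty L := ⟨l⟩
    choose! φ hφ using ex
    refine Set.ncard_le_ncard_of_injOn φ ?_ ?_ (Set.toFinite _)
    · rintro p ⟨hp, hpl⟩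
      refine ⟨(hφ p hp).2, ?_⟩
      intro e
      exact hpl (e ▸ (hφ p hp).1)
    · rintro p ⟨hp, hpl⟩ q ⟨hq, hql⟩ e
      by_contra hpq
      have e1 := (hφ p hp).1
      have e2 := (hφ q hq).1
      rw [← e] at e2
      have e3 : g.2 (φ p) = φ p := fixL h hg hpq hp hq e1 e2
      exact hgz (fixP h hg (l := φ p) (k := l) (fun e' => hpl (e' ▸ e1)) e3 hl (hφ p hp).2 hz)
  rw [s.off hl, Set.ncard_diff_singleton_of_mem (by exact hz), h.lns] at key
  omega

/-- quadrangle inside a subplane -/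
theorem Sub.quad [Finite P] [Finite L] (h : Plane I n) {S : Set P} {T : Set L} {m : ℕ}
    (s : Sub I S T m) : ∃ a ∈ S, ∃ b ∈ S, ∃ c ∈ S, ∃ d ∈ S,
      (∀ l, I a l → I b l → ¬ I c l) ∧ (∀ l, I a l → I b l → ¬ I d l) ∧
      (∀ l, I a l → I c l → ¬ I d l) ∧ (∀ l, I b l → I c l → ¬ I d l) := by
  classical
  obtain ⟨l1, h1, l2, h2, h12⟩ := s.ex_two
  obtain ⟨o, ho1, ho2⟩ := h.meet l1 l2 h12
  have two : ∀ l ∈ T, ∃ b c, b ∈ S ∧ c ∈ S ∧ b ≠ c ∧ b ≠ o ∧ c ≠ o ∧ I b l ∧ I c l := by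
    intro l hl
    have h3 : 1 < ({p | p ∈ S ∧ I p l} \ {o}).ncard := by
      have h4 := s.pt l hl
      have h5 := Set.le_ncard_sdiff ({o} : Set P) {p | p ∈ S ∧ I p l} (Set.toFinite _)
      rw [Set.ncard_singleton] at h5
      have := s.two
      omega
    obtain ⟨b, c, hb, hc, hbc⟩ := (Set.one_lt_ncard_iff).1 h3
    exact ⟨b, c, hb.1.1, hc.1.1, hbc, hb.2, hc.2, hb.1.2, hc.1.2⟩
  obtain ⟨b1, c1, hb1, hc1, hbc1, hbo1, hco1, ib1, ic1⟩ := two l1 h1
  obtain ⟨b2, c2, hb2, hc2, hbc2, hbo2, hco2, ib2, ic2⟩ := two l2 h2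
  have off1 : ∀ x, x ≠ o → I x l1 → ¬ I x l2 := by
    intro x hx e1 e2
    rcases h.uniq x o l1 l2 e1 ho1 e2 ho2 with e | e
    · exact hx e
    · exact h12 e
  refine ⟨b1, hb1, c1, hc1, b2, hb2, c2, hc2, ?_, ?_, ?_, ?_⟩
  · intro l e1 e2 e3
    rcases h.uniq b1 c1 l l1 e1 e2 ib1 ic1 with e | e
    · exact hbc1 e
    · subst e
      exact off1 b2 hbo2 e3 ib2
  · intro l e1 e2 e3
    rcases h.uniq b1 c1 l l1 e1 e2 ib1 ic1 with e | e
    · exact hbc1 e
    · subst e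
      exact off1 c2 hco2 e3 ic2
  · intro l e1 e2 e3
    rcases h.uniq b2 c2 l l2 e2 e3 ib2 ic2 with e | e
    · exact hbc2 e
    · subst e
      exact off1 b1 hbo1 ib1 e1
  · intro l e1 e2 e3
    rcases h.uniq b2 c2 l l2 e2 e3 ib2 ic2 with e | e
    · exact hbc2 e
    · subst e
      exact off1 c1 hco1 ic1 e1

end Pool.Agent.BB
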