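import Pool.Agent.Lib.MP_bbcd91_co.A2

set_option autoImplicit false

namespace Pool.Agent.BB

variable {P L : Type*} {I : P → L → Prop} {m : ℕ} {S : Set P} {T : Set L}

/-- exterior point: on no line of `T` -/
def Ext (I : P → L → Prop) (T : Set L) (p : P) : Prop := ∀ l ∈ T, ¬ I p l

/-- points of the subplane are on at least one line of it -/
theorem Sub.ex_ln [Finite L] (s : Sub I S T m) {p : P} (hp : p ∈ S) : ∃ l ∈ T, I p l := by
  have h1 : 0 < {l | l ∈ T ∧ I p l}.ncard := by rw [s.ln p hp]; omega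
  obtain ⟨l, hl⟩ := (Set.ncard_pos (Set.toFinite _)).1 h1
  exact ⟨l, hl.1, hl.2⟩

theorem Ext.notMem [Finite L] (s : Sub I S T m) {p : P} (hp : Ext I T p) : p ∉ S := by
  intro h
  obtain ⟨l, hl, hl'⟩ := s.ex_ln h
  exact hp l hl hl'

/-- a line through an exterior point carries at least one point of `S` -/
theorem ext_line [Finite P] [Finite L] (h : Plane I (m ^ 2 + m)) (s : Sub I S T m) {x : P}
    (hx : Ext I T x) {l : L} (hl : I x l) : ∃ p ∈ S, I p l := by
  classical
  by_contra hcon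
  push Not at hcon
  have ex : ∀ p, p ∈ S → ∃ k, I p k ∧ I x k := by
    intro p hp
    refine h.join p x ?_
    rintro rfl
    exact hx.notMem s hp
  have : Nonempty L := ⟨l⟩
  choose! φ hφ using ex
  have key : S.ncard ≤ ({k | I x k} \ {l}).ncard := by
    refine Set.ncard_le_ncard_of_injOn φ ?_ ?_ (Set.toFinite _)
    · intro p hp
      refine ⟨(hφ p hp).2, ?_⟩
      intro e
      exact hcon p hp (e ▸ (hφ p hp).1)
    · intro p hp q hq e
      by_contra hpq
      have e1 := (hφ p hp).1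
      have e2 := (hφ q hq).1
      rw [← e] at e2
      exact hx _ (s.jn p hp q hq hpq _ e1 e2) (hφ p hp).2
  rw [s.cS, Set.ncard_diff_singleton_of_mem (by exact hl), h.lns] at key
  omega

/-- a line not in `T` has at most one point of `S` -/
theorem Sub.one (s : Sub I S T m) {l : L} (hl : l ∉ T) {p q : P} (hp : p ∈ S) (hq : q ∈ S)
    (h1 : I p l) (h2 : I q l) : p = q := by
  by_contra hpq
  exact hl (s.jn p hp q hq hpq l h1 h2)

/-- a point not in `S` is on at most one line of `T` -/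
theorem Sub.one' (s : Sub I S T m) {p : P} (hp : p ∉ S) {l k : L} (hl : l ∈ T) (hk : k ∈ T)
    (h1 : I p l) (h2 : I p k) : l = k := by
  by_contra hlk
  exact hp (s.mt l hl k hk hlk p h1 h2)

/-- tangents exist -/
theorem ex_tangent [Finite P] [Finite L] (h : Plane I (m ^ 2 + m)) (s : Sub I S T m) {c : P}
    (hc : c ∈ S) : ∃ t, t ∉ T ∧ I c t := by
  by_contra hcon
  push Not at hcon
  have h1 : {l | I c l} ⊆ {l | l ∈ T ∧ I c l} := fun l hl => ⟨by
    by_contra hl'
    exact hcon l hl' hl, hl⟩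
  have h2 := Set.ncard_le_ncard h1 (Set.toFinite _)
  rw [h.lns, s.ln c hc] at h2
  have := s.two
  nlinarith

/-- number of exterior points on a tangent -/
theorem tangent_ext [Finite P] [Finite L] (h : Plane I (m ^ 2 + m)) (s : Sub I S T m) {c : P}
    (hc : c ∈ S) {t : L} (ht : t ∉ T) (hct : I c t) :
    {p | I p t ∧ Ext I T p}.ncard = m := by
  classical
  have ex : ∀ l, l ∈ T → ∃ p, I p l ∧ I p t := by
    intro l hl
    refine h.meet l t ?_
    rintro rfl
    exact ht hl
  have : Nonempty P := ⟨c⟩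
  choose! φ hφ using ex
  set A : Set L := {l | l ∈ T ∧ ¬ I c l} with hA
  have hAc : A.ncard = m ^ 2 := s.dual.off hc
  have inj : Set.InjOn φ A := by
    rintro l ⟨hl, hcl⟩ k ⟨hk, hck⟩ e
    by_contra hlk
    have e1 := (hφ l hl).1
    have e2 := (hφ k hk).1
    have e3 := (hφ l hl).2
    rw [← e] at e2
    have e4 := s.mt l hl k hk hlk _ e1 e2
    have e5 : φ l = c := s.one ht e4 hc e3 hct
    rw [e5] at e1
    exact hcl e1
  have h1 : {p | I p t} = insert c (φ '' A) ∪ {p | I p t ∧ Ext I T p} := by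
    ext p
    constructor
    · intro hp
      by_cases hx : Ext I T p
      · exact Or.inr ⟨hp, hx⟩
      · left
        unfold Ext at hx
        push Not at hx
        obtain ⟨l, hl, hpl⟩ := hx
        by_cases hpc : p = c
        · exact Or.inl hpc
        · right
          have hne : l ≠ t := by rintro rfl; exact ht hl
          have hcl : ¬ I c l := by
            intro e
            rcases h.uniq p c l t hpl e hp hct with e' | e'
            · exact hpc e'
            · exact hne e'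
          refine ⟨l, ⟨hl, hcl⟩, ?_⟩
          rcases h.uniq (φ l) p l t (hφ l hl).1 hpl (hφ l hl).2 hp with e' | e'
          · exact e'
          · exact absurd e' hne
    · rintro ((hp | ⟨l, ⟨hl, -⟩, rfl⟩) | hp)
      · rw [hp]; exact hct
      · exact (hφ l hl).2
      · exact hp.1
  have h2 : c ∉ φ '' A := by
    rintro ⟨l, ⟨hl, hcl⟩, e⟩
    have e1 := (hφ l hl).1
    rw [e] at e1
    exact hcl e1
  have h3 : Disjoint (insert c (φ '' A)) {p | I p t ∧ Ext I T p} := by
    rw [Set.disjoint_left]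
    rintro p (hp | ⟨l, ⟨hl, -⟩, rfl⟩) ⟨-, hx⟩
    · rw [hp] at hx
      exact hx.notMem s hc
    · exact hx l hl (hφ l hl).1
  have h4 := h.pts t
  rw [h1, Set.ncard_union_eq h3 (Set.toFinite _) (Set.toFinite _),
    Set.ncard_insert_of_notMem h2 (Set.toFinite _), inj.ncard_image, hAc] at h4
  omega

theorem ex_ext [Finite P] [Finite L] (h : Plane I (m ^ 2 + m)) (s : Sub I S T m) {c : P}
    (hc : c ∈ S) : ∃ t x, t ∉ T ∧ I c t ∧ I x t ∧ Ext I T x := by
  obtain ⟨t, ht, hct⟩ := ex_tangent h s hc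
  have h1 := tangent_ext h s hc ht hct
  have h2 : 0 < {p | I p t ∧ Ext I T p}.ncard := by rw [h1]; have := s.two; omega
  obtain ⟨x, hx⟩ := (Set.ncard_pos (Set.toFinite _)).1 h2
  exact ⟨t, x, ht, hct, hx.1, hx.2⟩

theorem Sub.ex_pt [Finite P] (s : Sub I S T m) : ∃ p, p ∈ S := by
  have h1 : 0 < S.ncard := by rw [s.cS]; omega
  exact (Set.ncard_pos (Set.toFinite _)).1 h1

/-- two points of `S` on a line of `T` other than a given point -/
theorem Sub.two_pts [Finite P] (s : Sub I S T m) {l : L} (hl : l ∈ T) (o : P) :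
    ∃ b c, b ∈ S ∧ c ∈ S ∧ b ≠ c ∧ b ≠ o ∧ c ≠ o ∧ I b l ∧ I c l := by
  have h3 : 1 < ({p | p ∈ S ∧ I p l} \ {o}).ncard := by
    have h4 := s.pt l hl
    have h5 := Set.le_ncard_sdiff ({o} : Set P) {p | p ∈ S ∧ I p l} (Set.toFinite _)
    rw [Set.ncard_singleton] at h5
    have := s.two
    omega
  obtain ⟨b, c, hb, hc, hbc⟩ := (Set.one_lt_ncard_iff).1 h3
  exact ⟨b, c, hb.1.1, hc.1.1, hbc, hb.2, hc.2, hb.1.2, hc.1.2⟩

/-- (1) A collineation fixing every point of the subplane is trivial. -/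
theorem faithful [Finite P] [Finite L] (h : Plane I (m ^ 2 + m)) (s : Sub I S T m)
    {g : Equiv.Perm P × Equiv.Perm L} (hg : Col I g) (hfix : ∀ p ∈ S, g.1 p = p) : g = 1 := by
  by_contra hne
  obtain ⟨a, ha, b, hb, c, hc, d, hd, h1, h2, h3, h4⟩ := s.quad h
  obtain ⟨f, sf⟩ := sub_fix h hg (hfix a ha) (hfix b hb) (hfix c hc) (hfix d hd) h1 h2 h3 h4
  have hb' := bruck h hg hne sf
  have hSF : S ⊆ FP g := fun p hp => hfix p hp
  have hTK : T ⊆ FL g := by
    intro l hl
    obtain ⟨p, hp, -, hpl, -⟩ : ∃ p, p ∈ S ∧ True ∧ I p l ∧ True := by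
      obtain ⟨b, c, hb, hc, hbc, -, -, ib, ic⟩ := s.two_pts hl a
      exact ⟨b, hb, trivial, ib, trivial⟩
    obtain ⟨b, c, hb, hc, hbc, -, -, ib, ic⟩ := s.two_pts hl a
    exact fixL h hg hbc (hfix b hb) (hfix c hc) ib ic
  have e1 : m ≤ f := by
    have := Set.ncard_le_ncard hSF (Set.toFinite _)
    rw [s.cS, sf.cS] at this
    by_contra hlt
    push Not at hlt
    nlinarith
  have e2 : f = m := by
    by_contra hne'
    have : m + 1 ≤ f := by omega
    nlinarith
  subst e2
  have hSF' : S = FP g := Set.eq_of_subset_of_ncard_le hSF (by rw [s.cS, sf.cS]) (Set.toFinite _)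
  have hTK' : T = FL g := Set.eq_of_subset_of_ncard_le hTK (by rw [s.cT, sf.cT]) (Set.toFinite _)
  obtain ⟨t, x, ht, hat, hxt, hx⟩ := ex_ext h s ha
  have hxS := hx.notMem s
  have hgx : g.1 x ≠ x := by
    intro e
    exact hxS (hSF' ▸ e)
  obtain ⟨j, hj1, hj2⟩ := h.join x (g.1 x) (fun e => hgx e.symm)
  obtain ⟨A, hA, hAj⟩ := ext_line h s hx hj1
  have hAx : A ≠ g.1 x := by
    rintro rfl
    have := hfix _ hA
    exact hgx (g.1.injective this)
  have h5 : I (g.1 x) (g.2 j) := (hg x j).2 hj1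
  have h6 : I A (g.2 j) := by
    have := (hg A j).2 hAj
    rwa [hfix A hA] at this
  have h7 : g.2 j = j := by
    rcases h.uniq A (g.1 x) (g.2 j) j h6 h5 hAj hj2 with e | e
    · exact absurd e hAx
    · exact e
  have h8 : j ∈ T := by rw [hTK']; exact h7
  exact hx j h8 hj1

/-- the data of a collineation leaving the subplane invariant -/
structure Pres (S : Set P) (T : Set L) (g : Equiv.Perm P × Equiv.Perm L) : Prop where
  s : ∀ p, g.1 p ∈ S ↔ p ∈ S
  t : ∀ l, g.2 l ∈ T ↔ l ∈ T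

theorem Pres.dual {g : Equiv.Perm P × Equiv.Perm L} (h : Pres S T g) : Pres T S (g.2, g.1) :=
  ⟨h.t, h.s⟩

theorem Pres.mul {g k : Equiv.Perm P × Equiv.Perm L} (h : Pres S T g) (h' : Pres S T k) :
    Pres S T (g * k) :=
  ⟨fun p => (h.s (k.1 p)).trans (h'.s p), fun l => (h.t (k.2 l)).trans (h'.t l)⟩

theorem Pres.one : Pres S T (1 : Equiv.Perm P × Equiv.Perm L) :=
  ⟨fun _ => Iff.rfl, fun _ => Iff.rfl⟩

theorem Pres.inv {g : Equiv.Perm P × Equiv.Perm L} (h : Pres S T g) : Pres S T g⁻¹ := by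
  constructor
  · intro p
    rw [← h.s]
    simp
  · intro l
    rw [← h.t]
    simp

theorem Pres.pow {g : Equiv.Perm P × Equiv.Perm L} (h : Pres S T g) (k : ℕ) :
    Pres S T (g ^ k) := by
  induction k with
  | zero => rw [pow_zero]; exact Pres.one
  | succ k ih => rw [pow_succ]; exact ih.mul h

theorem Pres.ext {g : Equiv.Perm P × Equiv.Perm L} (hg : Col I g) (h : Pres S T g) {x : P}
    (hx : Ext I T x) : Ext I T (g.1 x) := by
  intro l hl hxl
  have h1 : I (g.1 x) (g.2 (g.2.symm l)) := by simpa using hxl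
  rw [hg] at h1
  exact hx _ ((h.t _).1 (by simpa using hl)) h1

/-- (AX) an axis outside `T` forces the identity -/
theorem ax_mem [Finite P] [Finite L] (h : Plane I (m ^ 2 + m)) (s : Sub I S T m)
    {g : Equiv.Perm P × Equiv.Perm L} (hg : Col I g) (hp : Pres S T g) {x : L} (hx : Ax I g x)
    (hxT : x ∉ T) : g = 1 := by
  classical
  have key : ∀ l ∈ T, (∀ p ∈ S, I p l → ¬ I p x) → g.2 l = l := by
    intro l hl hlS
    obtain ⟨y, hy, hy'⟩ := h.meet l x (by rintro rfl; exact hxT hl)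
    have hyS : y ∉ S := fun e => hlS y e hy hy'
    have h1 : I y (g.2 l) := by
      have := (hg y l).2 hy
      rwa [hx y hy'] at this
    exact (s.one' hyS hl ((hp.t l).2 hl) hy h1).symm
  refine faithful h s hg ?_
  intro b hb
  by_cases hbx : I b x
  · exact hx b hbx
  -- two lines of T through b missing the S-point of x
  have h3 : 1 < {l | l ∈ T ∧ I b l ∧ ∀ p ∈ S, I p l → ¬ I p x}.ncard := by
    by_cases hA : ∃ A ∈ S, I A x
    · obtain ⟨A, hA, hAx⟩ := hA
      obtain ⟨k, hk1, hk2⟩ := h.join b A (by rintro rfl; exact hbx hAx)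
      have h4 : {l | l ∈ T ∧ I b l} \ {k} ⊆
          {l | l ∈ T ∧ I b l ∧ ∀ p ∈ S, I p l → ¬ I p x} := by
        rintro l ⟨⟨hl, hbl⟩, hlk⟩
        refine ⟨hl, hbl, fun p hpS hpl hpx => hlk ?_⟩
        have e : p = A := s.one hxT hpS hA hpx hAx
        subst e
        rcases h.uniq b p l k hbl hpl hk1 hk2 with e | e
        · exact absurd (e ▸ hpx) hbx
        · exact e
      have h5 := Set.ncard_le_ncard h4 (Set.toFinite _)
      have h6 := Set.le_ncard_sdiff ({k} : Set L) {l | l ∈ T ∧ I b l} (Set.toFinite _)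
      rw [Set.ncard_singleton, s.ln b hb] at h6
      have := s.two
      omega
    · push Not at hA
      have h4 : {l | l ∈ T ∧ I b l} ⊆
          {l | l ∈ T ∧ I b l ∧ ∀ p ∈ S, I p l → ¬ I p x} := by
        rintro l ⟨hl, hbl⟩
        exact ⟨hl, hbl, fun p hpS _ => hA p hpS⟩
      have h5 := Set.ncard_le_ncard h4 (Set.toFinite _)
      rw [s.ln b hb] at h5
      have := s.two
      omega
  obtain ⟨l1, l2, h1, h2, h12⟩ := (Set.one_lt_ncard_iff).1 h3
  exact fixP h hg h12 (key l1 h1.1 h1.2.2) (key l2 h2.1 h2.2.2) h1.2.1 h2.2.1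

/-- (5a) a collineation fixing all lines through `c ∈ S` and an exterior point is trivial -/
theorem cen_ext [Finite P] [Finite L] (h : Plane I (m ^ 2 + m)) (s : Sub I S T m)
    {g : Equiv.Perm P × Equiv.Perm L} (hg : Col I g) (hp : Pres S T g) {c x : P} (hc : c ∈ S)
    (hcen : Cen I g c) (hx : Ext I T x) (hgx : g.1 x = x) : g = 1 := by
  have hcx : c ≠ x := by
    rintro rfl
    exact hx.notMem s hc
  have hgc : g.1 c = c := by
    obtain ⟨l1, hl1, hl1'⟩ := ex_ln h c ∅ (by simp)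
    obtain ⟨l2, hl2, hl2'⟩ := ex_ln h c {l1} (by have := h.two; simp; omega)
    exact fixP h hg (l := l2) (k := l1) (by simpa using hl2') (hcen _ hl2) (hcen _ hl1) hl2 hl1
  obtain ⟨l, hl, hcl⟩ : ∃ l ∈ T, ¬ I c l := by
    have h1 : 0 < {l | l ∈ T ∧ ¬ I c l}.ncard := by
      have := s.dual.off hc
      rw [this]
      have := s.two
      positivity
    obtain ⟨l, hl⟩ := (Set.ncard_pos (Set.toFinite _)).1 h1
    exact ⟨l, hl.1, hl.2⟩
  by_cases hgl : g.2 l = l
  · have h1 := ax_of h hg hcen hgl hcl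
    have h2 := cen_of h hg h1 hgx (hx l hl)
    exact two_cen h hg hcen h2 hcx
  · obtain ⟨D, hD1, hD2⟩ := h.meet l (g.2 l) (fun e => hgl e.symm)
    have hgT : g.2 l ∈ T := (hp.t l).2 hl
    have hDS : D ∈ S := s.mt l hl _ hgT (fun e => hgl e.symm) D hD1 hD2
    have hDc : D ≠ c := by rintro rfl; exact hcl hD1
    obtain ⟨k, hk1, hk2⟩ := h.join D c hDc
    have hkT : k ∈ T := s.jn D hDS c hc hDc k hk1 hk2
    have hgk : g.2 k = k := hcen k hk2
    have h1 : I (g.1 D) (g.2 l) := (hg D l).2 hD1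
    have h2 : I (g.1 D) k := by
      have := (hg D k).2 hk1
      rwa [hgk] at this
    have h3 : g.1 D = D := by
      rcases h.uniq (g.1 D) D (g.2 l) k h1 hD2 h2 hk1 with e | e
      · exact e
      · exfalso
        have : I (g.1 c) (g.2 l) := by rw [hgc, e]; exact hk2
        rw [hg] at this
        exact hcl this
    have hDx : D ≠ x := by rintro rfl; exact hx.notMem s hDS
    obtain ⟨y, hy1, hy2⟩ := h.join D x hDx
    have hgy : g.2 y = y := fixL h hg hDx h3 hgx hy1 hy2
    have hcy : ¬ I c y := by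
      intro e
      rcases h.uniq D c y k hy1 e hk1 hk2 with e' | e'
      · exact hDc e'
      · exact hx k hkT (e' ▸ hy2)
    exact ax_mem h s hg hp (ax_of h hg hcen hgy hcy) (fun e => hx y e hy2)

/-- (5) a group of collineations with common centre `c ∈ S` has at most `m` elements -/
theorem card_cen [Finite P] [Finite L] (h : Plane I (m ^ 2 + m)) (s : Sub I S T m)
    {G : Subgroup (Equiv.Perm P × Equiv.Perm L)} (hG : ∀ g ∈ G, Col I g ∧ Pres S T g) {c : P}
    (hc : c ∈ S) : {g | g ∈ G ∧ Cen I g c}.ncard ≤ m := by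
  obtain ⟨t, x, ht, hct, hxt, hx⟩ := ex_ext h s hc
  rw [← tangent_ext h s hc ht hct]
  refine Set.ncard_le_ncard_of_injOn (fun g => g.1 x) ?_ ?_ (Set.toFinite _)
  · rintro g ⟨hg, hcen⟩
    refine ⟨?_, (hG g hg).2.ext (hG g hg).1 hx⟩
    have := ((hG g hg).1 x t).2 hxt
    rwa [hcen t hct] at this
  · rintro g ⟨hg, hcg⟩ k ⟨hk, hck⟩ (e : g.1 x = k.1 x)
    have h1 : k⁻¹ * g ∈ G := G.mul_mem (G.inv_mem hk) hg
    have h2 := hG _ h1
    have h3 : (k⁻¹ * g).1 x = x := by
      show k.1⁻¹ (g.1 x) = x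
      rw [e]
      simp
    have h4 : Cen I (k⁻¹ * g) c := by
      intro l hl
      show k.2⁻¹ (g.2 l) = l
      rw [hcg l hl, Equiv.Perm.inv_eq_iff_eq]
      exact (hck l hl).symm
    have h5 := cen_ext h s h2.1 h2.2 hc h4 hx h3
    have h6 : g = k := by
      have := congrArg (fun z => k * z) h5
      simpa using this
    exact h6

end Pool.Agent.BB
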