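import Pool.Agent.Lib.MP_bbcd91_co.A3

set_option autoImplicit false

namespace Pool.Agent.BB

variable {P L : Type*} {I : P → L → Prop} {m : ℕ} {S : Set P} {T : Set L}

theorem modfix {α : Type*} [Finite α] (σ : Equiv.Perm α) (A : Set α)
    (hA : ∀ x, σ x ∈ A ↔ x ∈ A) (p : ℕ) (hp : p.Prime) (hσ : σ ^ p = 1) :
    {x | x ∈ A ∧ σ x = x}.ncard ≡ A.ncard [MOD p] := by
  classical
  haveI := Fact.mk hp
  haveI : Fintype A := Fintype.ofFinite A
  let ρ : Equiv.Perm A := σ.subtypePerm hA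
  have hρ : ρ ^ p ^ 1 = 1 := by
    rw [pow_one]
    ext x
    have : ((ρ ^ p) x : α) = (σ ^ p) x := by
      rw [Equiv.Perm.subtypePerm_pow]
      rfl
    rw [this, hσ]
    rfl
  have h1 := Equiv.Perm.card_compl_support_modEq hρ
  have h2 : (ρ.supportᶜ).card = {x | x ∈ A ∧ σ x = x}.ncard := by
    rw [← Set.ncard_coe_finset]
    have h3 : {x | x ∈ A ∧ σ x = x} = Subtype.val '' ((ρ.supportᶜ : Finset A) : Set A) := by
      ext x
      constructor
      · rintro ⟨hx, hx'⟩
        refine ⟨⟨x, hx⟩, ?_, rfl⟩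
        simp only [Finset.coe_compl, Set.mem_compl_iff, Finset.mem_coe, Equiv.Perm.mem_support,
          not_not]
        exact Subtype.ext hx'
      · rintro ⟨⟨y, hy⟩, hy', rfl⟩
        simp only [Finset.coe_compl, Set.mem_compl_iff, Finset.mem_coe, Equiv.Perm.mem_support,
          not_not] at hy'
        exact ⟨hy, congrArg Subtype.val hy'⟩
    rw [h3, Set.ncard_image_of_injective _ Subtype.val_injective]
  have h4 : Fintype.card A = A.ncard := by
    rw [← Nat.card_coe_set_eq, Nat.card_eq_fintype_card]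
  rw [h2, h4] at h1
  exact h1

/-- the fixed structure of an involution is a Baer subplane if it contains a quadrangle;
impossible when the order is `m^2+m` -/
theorem inv_no_quad [Finite P] [Finite L] (h : Plane I (m ^ 2 + m)) (hm : 1 ≤ m)
    {g : Equiv.Perm P × Equiv.Perm L} (hg : Col I g) (hne : g ≠ 1) (hinv : g * g = 1) {f : ℕ}
    (s : Sub I (FP g) (FL g) f) : False := by
  classical
  have hi1 : ∀ p, g.1 (g.1 p) = p := fun p => congrArg (fun z => z.1 p) hinv
  have hi2 : ∀ l, g.2 (g.2 l) = l := fun l => congrArg (fun z => z.2 l) hinv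
  obtain ⟨a, ha, b, hb, hab⟩ := s.ex_two
  obtain ⟨l, z, hl, hz, hgz⟩ := ex_nonfixed h hg hne hab ha hb
  have h1 := bruck h hg hne s
  have key : ({k | I z k} \ {l}).ncard ≤ {p | p ∈ FP g ∧ ¬ I p l}.ncard := by
    have ex : ∀ k, (I z k ∧ k ≠ l) → ∃ D, I D k ∧ g.1 D = D ∧ ¬ I D l := by
      rintro k ⟨hzk, hkl⟩
      have hgk : g.2 k ≠ k := fun e => hgz (fixP h hg hkl e hl hzk hz)
      obtain ⟨D, hD1, hD2⟩ := h.meet k (g.2 k) (fun e => hgk e.symm)
      have h3 : I (g.1 D) (g.2 k) := (hg D k).2 hD1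
      have h4 : I (g.1 D) k := by
        have := (hg D (g.2 k)).2 hD2
        rwa [hi2] at this
      have h5 : g.1 D = D := by
        rcases h.uniq (g.1 D) D k (g.2 k) h4 hD1 h3 hD2 with e | e
        · exact e
        · exact absurd e.symm hgk
      refine ⟨D, hD1, h5, fun hDl => ?_⟩
      rcases h.uniq D z k l hD1 hzk hDl hz with e | e
      · exact hgz (e ▸ h5)
      · exact hkl e
    have : Nonempty P := ⟨z⟩
    choose! φ hφ using ex
    refine Set.ncard_le_ncard_of_injOn φ ?_ ?_ (Set.toFinite _)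
    · rintro k ⟨hk, hkl⟩
      have hkl' : k ≠ l := hkl
      exact ⟨(hφ k ⟨hk, hkl'⟩).2.1, (hφ k ⟨hk, hkl'⟩).2.2⟩
    · rintro k ⟨hk, hkl⟩ k' ⟨hk', hkl'⟩ e
      have hkl : k ≠ l := hkl
      have hkl' : k' ≠ l := hkl'
      have e1 := hφ k ⟨hk, hkl⟩
      have e2 := hφ k' ⟨hk', hkl'⟩
      rw [← e] at e2
      rcases h.uniq (φ k) z k k' e1.1 hk e2.1 hk' with e' | e'
      · exact absurd (e' ▸ e1.2.1) hgz
      · exact e'
  rw [s.off hl, Set.ncard_diff_singleton_of_mem (by exact hz), h.lns] at key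
  have h2 : f ^ 2 = m ^ 2 + m := by omega
  have h3 : m < f := by
    by_contra hlt
    push Not at hlt
    nlinarith
  nlinarith

/-- three fixed points on a line and two off it: impossible for an involution -/
theorem inv_three_two [Finite P] [Finite L] (h : Plane I (m ^ 2 + m)) (hm : 1 ≤ m)
    {g : Equiv.Perm P × Equiv.Perm L} (hg : Col I g) (hne : g ≠ 1) (hinv : g * g = 1)
    {a : L} {u v w p q : P} (hu : I u a) (hv : I v a) (hw : I w a) (huv : u ≠ v) (huw : u ≠ w)
    (hvw : v ≠ w) (hp : ¬ I p a) (hq : ¬ I q a) (hpq : p ≠ q) (fu : g.1 u = u) (fv : g.1 v = v)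
    (fw : g.1 w = w) (fp : g.1 p = p) (fq : g.1 q = q) : False := by
  obtain ⟨k, hk1, hk2⟩ := h.join p q hpq
  have two : ∃ x y, I x a ∧ I y a ∧ x ≠ y ∧ ¬ I x k ∧ ¬ I y k ∧ g.1 x = x ∧ g.1 y = y := by
    have hka : k ≠ a := by rintro rfl; exact hp hk1
    have one : ∀ x y, I x a → I y a → x ≠ y → I x k → ¬ I y k := by
      intro x y hx hy hxy h1 h2
      rcases h.uniq x y k a h1 h2 hx hy with e | e
      · exact hxy e
      · exact hka e
    by_cases e1 : I u k
    · exact ⟨v, w, hv, hw, hvw, one u v hu hv huv e1, one u w hu hw huw e1, fv, fw⟩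
    · by_cases e2 : I v k
      · exact ⟨u, w, hu, hw, huw, e1, one v w hv hw hvw e2, fu, fw⟩
      · exact ⟨u, v, hu, hv, huv, e1, e2, fu, fv⟩
  obtain ⟨x, y, hx, hy, hxy, hxk, hyk, fx, fy⟩ := two
  obtain ⟨f, sf⟩ := sub_fix h hg fx fy fp fq
    (by
      intro l e1 e2 e3
      rcases h.uniq x y l a e1 e2 hx hy with e | e
      · exact hxy e
      · exact hp (e ▸ e3))
    (by
      intro l e1 e2 e3
      rcases h.uniq x y l a e1 e2 hx hy with e | e
      · exact hxy e
      · exact hq (e ▸ e3))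
    (by
      intro l e1 e2 e3
      rcases h.uniq p q l k e2 e3 hk1 hk2 with e | e
      · exact hpq e
      · exact hxk (e ▸ e1))
    (by
      intro l e1 e2 e3
      rcases h.uniq p q l k e2 e3 hk1 hk2 with e | e
      · exact hpq e
      · exact hyk (e ▸ e1))
  exact inv_no_quad h hm hg hne hinv sf

/-- an involution of a plane of order `m^2+m` has an axis -/
theorem inv_axis [Finite P] [Finite L] (h : Plane I (m ^ 2 + m)) (hm : 2 ≤ m)
    {g : Equiv.Perm P × Equiv.Perm L} (hg : Col I g) (hne : g ≠ 1) (hinv : g * g = 1) :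
    ∃ a, Ax I g a := by
  classical
  have hm1 : 1 ≤ m := by omega
  have hbig : 6 ≤ m ^ 2 + m := by nlinarith
  have hi1 : ∀ p, g.1 (g.1 p) = p := fun p => congrArg (fun z => z.1 p) hinv
  have hi2 : ∀ l, g.2 (g.2 l) = l := fun l => congrArg (fun z => z.2 l) hinv
  obtain ⟨z, hgz⟩ : ∃ z, g.1 z ≠ z := by
    by_contra hcon
    push Not at hcon
    exact hne (eq_one h hg hcon)
  obtain ⟨j, hj1, hj2⟩ := h.join z (g.1 z) (fun e => hgz e.symm)
  have hgj : g.2 j = j := by
    have h1 : I (g.1 z) (g.2 j) := (hg z j).2 hj1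
    have h2 : I z (g.2 j) := by
      have := (hg (g.1 z) j).2 hj2
      rwa [hi1] at this
    rcases h.uniq z (g.1 z) (g.2 j) j h2 h1 hj1 hj2 with e | e
    · exact absurd e.symm hgz
    · exact e
  have ex : ∀ k, I z k → k ≠ j → ∃ D, I D k ∧ g.1 D = D := by
    intro k hzk hkj
    have hgk : g.2 k ≠ k := fun e => hgz (fixP h hg hkj e hgj hzk hj1)
    obtain ⟨D, hD1, hD2⟩ := h.meet k (g.2 k) (fun e => hgk e.symm)
    have h3 : I (g.1 D) (g.2 k) := (hg D k).2 hD1
    have h4 : I (g.1 D) k := by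
      have := (hg D (g.2 k)).2 hD2
      rwa [hi2] at this
    refine ⟨D, hD1, ?_⟩
    rcases h.uniq (g.1 D) D k (g.2 k) h4 hD1 h3 hD2 with e | e
    · exact e
    · exact absurd e.symm hgk
  -- points on different lines through z are different
  have dif : ∀ k k' D D', I z k → I z k' → k ≠ k' → I D k → I D' k' → g.1 D = D → D ≠ D' := by
    rintro k k' D D' h1 h2 h3 h4 h5 h6 rfl
    rcases h.uniq D z k k' h4 h1 h5 h2 with e | e
    · exact hgz (e ▸ h6)
    · exact h3 e
  -- main step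
  have main : ∀ (a k1 k2 : L) (u v w : P), I z k1 → I z k2 → k1 ≠ k2 → I u k1 → I v k2 →
      I u a → I v a → I w a → u ≠ v → u ≠ w → v ≠ w → g.1 u = u → g.1 v = v → g.1 w = w →
      Ax I g a := by
    intro a k1 k2 u v w hz1 hz2 h12 hu hv hua hva hwa huv huw hvw fu fv fw
    have hza : ¬ I z a := by
      intro hza
      have e1 : k1 = a := by
        rcases h.uniq u z k1 a hu hz1 hua hza with e | e
        · exact absurd (e ▸ fu) hgz
        · exact e
      have e2 : k2 = a := by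
        rcases h.uniq v z k2 a hv hz2 hva hza with e | e
        · exact absurd (e ▸ fv) hgz
        · exact e
      exact h12 (e1.trans e2.symm)
    have hga : g.2 a = a := fixL h hg huv fu fv hua hva
    intro y hya
    by_contra hgy
    have hya' : I (g.1 y) a := by
      have := (hg y a).2 hya
      rwa [hga] at this
    have sub : ∀ y, I y a → g.1 y ≠ y → ∃ k D, I z k ∧ I y k ∧ I D k ∧ g.1 D = D ∧ ¬ I D a := by
      intro y hya hgy
      obtain ⟨k, hk1, hk2⟩ := h.join z y (by rintro rfl; exact hza hya)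
      have hkj : k ≠ j := by
        rintro rfl
        exact hgy (fixP h hg (l := k) (k := a) (by rintro rfl; exact hza hk1) hgj hga hk2 hya)
      obtain ⟨D, hD1, hD2⟩ := ex k hk1 hkj
      refine ⟨k, D, hk1, hk2, hD1, hD2, fun hDa => ?_⟩
      rcases h.uniq D y k a hD1 hk2 hDa hya with e | e
      · exact hgy (e ▸ hD2)
      · exact hza (e ▸ hk1)
    obtain ⟨k, D, h1, h2, h3, h4, h5⟩ := sub y hya hgy
    obtain ⟨k', D', h1', h2', h3', h4', h5'⟩ := sub (g.1 y) hya' (fun e => hgy (g.1.injective e))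
    have hkk : k ≠ k' := by
      rintro rfl
      rcases h.uniq y (g.1 y) k a h2 h2' hya hya' with e | e
      · exact hgy e.symm
      · exact hza (e ▸ h1)
    exact inv_three_two h hm1 hg hne hinv hua hva hwa huv huw hvw h5 h5'
      (dif k k' D D' h1 h1' hkk h3 h3' h4) fu fv fw h4 h4'
  obtain ⟨k1, hk1, hk1'⟩ := ex_ln h z {j} (by simp; omega)
  obtain ⟨k2, hk2, hk2'⟩ := ex_ln h z {j, k1} (by
    have := Finset.card_le_two (a := j) (b := k1); omega)
  obtain ⟨k3, hk3, hk3'⟩ := ex_ln h z {j, k1, k2} (by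
    have := Finset.card_le_three (a := j) (b := k1) (c := k2); omega)
  obtain ⟨k4, hk4, hk4'⟩ := ex_ln h z {j, k1, k2, k3} (by
    have := Finset.card_le_four (a := j) (b := k1) (c := k2) (d := k3); omega)
  simp only [Finset.mem_singleton] at hk1'
  simp only [Finset.mem_insert, Finset.mem_singleton, not_or] at hk2' hk3' hk4'
  obtain ⟨D1, hD1, f1⟩ := ex k1 hk1 hk1'
  obtain ⟨D2, hD2, f2⟩ := ex k2 hk2 hk2'.1
  obtain ⟨D3, hD3, f3⟩ := ex k3 hk3 hk3'.1
  obtain ⟨D4, hD4, f4⟩ := ex k4 hk4 hk4'.1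
  have d12 : D1 ≠ D2 := dif k1 k2 D1 D2 hk1 hk2 (fun e => hk2'.2 e.symm) hD1 hD2 f1
  have d13 : D1 ≠ D3 := dif k1 k3 D1 D3 hk1 hk3 (fun e => hk3'.2.1 e.symm) hD1 hD3 f1
  have d14 : D1 ≠ D4 := dif k1 k4 D1 D4 hk1 hk4 (fun e => hk4'.2.1 e.symm) hD1 hD4 f1
  have d23 : D2 ≠ D3 := dif k2 k3 D2 D3 hk2 hk3 (fun e => hk3'.2.2 e.symm) hD2 hD3 f2
  have d24 : D2 ≠ D4 := dif k2 k4 D2 D4 hk2 hk4 (fun e => hk4'.2.2.1 e.symm) hD2 hD4 f2
  have d34 : D3 ≠ D4 := dif k3 k4 D3 D4 hk3 hk4 (fun e => hk4'.2.2.2 e.symm) hD3 hD4 f3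
  by_contra hcon
  push Not at hcon
  obtain ⟨f, sf⟩ := sub_fix h hg f1 f2 f3 f4
    (fun l e1 e2 e3 => hcon l (main l k1 k2 D1 D2 D3 hk1 hk2 (fun e => hk2'.2 e.symm) hD1 hD2
      e1 e2 e3 d12 d13 d23 f1 f2 f3))
    (fun l e1 e2 e3 => hcon l (main l k1 k2 D1 D2 D4 hk1 hk2 (fun e => hk2'.2 e.symm) hD1 hD2
      e1 e2 e3 d12 d14 d24 f1 f2 f4))
    (fun l e1 e2 e3 => hcon l (main l k1 k3 D1 D3 D4 hk1 hk3 (fun e => hk3'.2.1 e.symm) hD1 hD3
      e1 e2 e3 d13 d14 d34 f1 f3 f4))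
    (fun l e1 e2 e3 => hcon l (main l k2 k3 D2 D3 D4 hk2 hk3 (fun e => hk3'.2.2 e.symm) hD2 hD3
      e1 e2 e3 d23 d24 d34 f2 f3 f4))
  exact inv_no_quad h hm1 hg hne hinv sf

/-- (4) an involution leaving the subplane invariant is an elation of the plane with centre and
axis in the subplane -/
theorem inv_elation [Finite P] [Finite L] (h : Plane I (m ^ 2 + m)) (s : Sub I S T m)
    {g : Equiv.Perm P × Equiv.Perm L} (hg : Col I g) (hp : Pres S T g) (hne : g ≠ 1)
    (hinv : g * g = 1) :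
    ∃ a ∈ T, ∃ c ∈ S, I c a ∧ Ax I g a ∧ Cen I g c ∧ ∀ p, g.1 p = p → I p a := by
  classical
  have hm := s.two
  have hm1 : 1 ≤ m := by omega
  have hbig : 6 ≤ m ^ 2 + m := by nlinarith
  have hi1 : ∀ p, g.1 (g.1 p) = p := fun p => congrArg (fun z => z.1 p) hinv
  have hi2 : ∀ l, g.2 (g.2 l) = l := fun l => congrArg (fun z => z.2 l) hinv
  obtain ⟨a, ha⟩ := inv_axis h hm hg hne hinv
  have haT : a ∈ T := by
    by_contra haT
    exact hne (ax_mem h s hg hp ha haT)
  have hsq : g.1 ^ 2 = 1 := by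
    ext p
    rw [pow_two]
    exact hi1 p
  -- no fixed points off the axis
  have hoff : ∀ p, g.1 p = p → I p a := by
    intro p fp
    by_contra hpa
    have huniq : ∀ q, g.1 q = q → ¬ I q a → q = p := by
      intro q fq hqa
      by_contra hqp
      obtain ⟨u, hu, -⟩ := ex_pt h a ∅ (by simp)
      obtain ⟨v, hv, hv'⟩ := ex_pt h a {u} (by simp; omega)
      obtain ⟨w, hw, hw'⟩ := ex_pt h a {u, v} (by
        have := Finset.card_le_two (a := u) (b := v); omega)
      simp only [Finset.mem_insert, Finset.mem_singleton, not_or] at hv' hw'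
      exact inv_three_two h hm1 hg hne hinv hu hv hw (fun e => hv' e.symm) (fun e => hw'.1 e.symm)
        (fun e => hw'.2 e.symm) hpa hqa (fun e => hqp e.symm) (ha u hu) (ha v hv) (ha w hw) fp fq
    have h1 := modfix g.1 Set.univ (fun x => by simp) 2 Nat.prime_two hsq
    have h2 : {x | x ∈ Set.univ ∧ g.1 x = x} = insert p {x | I x a} := by
      ext x
      constructor
      · rintro ⟨-, fx⟩
        by_cases hx : I x a
        · exact Or.inr hx
        · exact Or.inl (huniq x fx hx)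
      · rintro (hx | hx)
        · rw [hx]
          exact ⟨trivial, fp⟩
        · exact ⟨trivial, ha x hx⟩
    have h3 : p ∉ {x | I x a} := hpa
    rw [h2, Set.ncard_insert_of_notMem h3 (Set.toFinite _), h.pts, Set.ncard_univ, h.cp] at h1
    have h4 : Even (m ^ 2 + m) := by
      have : m ^ 2 + m = m * (m + 1) := by ring
      rw [this]
      exact Nat.even_mul_succ_self m
    obtain ⟨r, hr⟩ := h4
    rw [hr] at h1
    unfold Nat.ModEq at h1
    have h5 : (r + r + 1 + 1) % 2 = 0 := by omega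
    have h6 : ((r + r) ^ 2 + (r + r) + 1) % 2 = 1 := by
      have : (r + r) ^ 2 + (r + r) + 1 = 2 * (2 * r ^ 2 + r) + 1 := by ring
      rw [this]
      omega
    omega
  -- centre
  obtain ⟨b, hbS, hba⟩ : ∃ b ∈ S, ¬ I b a := by
    have h1 : 0 < {p | p ∈ S ∧ ¬ I p a}.ncard := by
      rw [s.off haT]
      positivity
    obtain ⟨b, hb⟩ := (Set.ncard_pos (Set.toFinite _)).1 h1
    exact ⟨b, hb.1, hb.2⟩
  have hline : ∀ x, ¬ I x a → ∃ k, I x k ∧ I (g.1 x) k ∧ g.2 k = k ∧ k ≠ a := by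
    intro x hx
    have hgx : g.1 x ≠ x := fun e => hx (hoff x e)
    obtain ⟨k, hk1, hk2⟩ := h.join x (g.1 x) (fun e => hgx e.symm)
    refine ⟨k, hk1, hk2, ?_, by rintro rfl; exact hx hk1⟩
    have h1 : I (g.1 x) (g.2 k) := (hg x k).2 hk1
    have h2 : I x (g.2 k) := by
      have := (hg (g.1 x) k).2 hk2
      rwa [hi1] at this
    rcases h.uniq x (g.1 x) (g.2 k) k h2 h1 hk1 hk2 with e | e
    · exact absurd e.symm hgx
    · exact e
  obtain ⟨k, hk1, hk2, hk3, hka⟩ := hline b hba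
  have hgb : g.1 b ≠ b := fun e => hba (hoff b e)
  have hkT : k ∈ T := s.jn b hbS (g.1 b) ((hp.s b).2 hbS) (fun e => hgb e.symm) k hk1 hk2
  obtain ⟨c, hck, hca⟩ := h.meet k a hka
  have hcS : c ∈ S := s.mt k hkT a haT hka c hck hca
  refine ⟨a, haT, c, hcS, hca, ha, ?_, hoff⟩
  intro l hcl
  by_cases hla : l = a
  · rw [hla]
    obtain ⟨u, hu, -⟩ := ex_pt h a ∅ (by simp)
    obtain ⟨v, hv, hv'⟩ := ex_pt h a {u} (by simp; omega)
    exact fixL h hg (p := v) (q := u) (by simpa using hv') (ha v hv) (ha u hu) hv hu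
  · obtain ⟨w, hw, hw'⟩ := ex_pt h l {c} (by simp; omega)
    have hwc : w ≠ c := by simpa using hw'
    have hwa : ¬ I w a := by
      intro e
      rcases h.uniq w c l a hw hcl e hca with e' | e'
      · exact hwc e'
      · exact hla e'
    obtain ⟨k', hk1', hk2', hk3', hka'⟩ := hline w hwa
    by_cases hkk : k' = k
    · subst hkk
      rcases h.uniq c w l k' hcl hw hck hk1' with e | e
      · exact absurd e.symm hwc
      · rw [e]; exact hk3'
    · obtain ⟨y, hy1, hy2⟩ := h.meet k' k hkk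
      have fy : g.1 y = y := fixP h hg hkk hk3' hk3 hy1 hy2
      have hya := hoff y fy
      have hyc : y = c := by
        rcases h.uniq y c k a hy2 hck hya hca with e | e
        · exact e
        · exact absurd e hka
      subst hyc
      rcases h.uniq y w l k' hcl hw hy1 hk1' with e | e
      · exact absurd e.symm hwc
      · rw [e]; exact hk3'

/-- (3) no involution if `m` is odd -/
theorem inv_odd [Finite P] [Finite L] (h : Plane I (m ^ 2 + m)) (s : Sub I S T m)
    {g : Equiv.Perm P × Equiv.Perm L} (hg : Col I g) (hp : Pres S T g) (hne : g ≠ 1)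
    (hinv : g * g = 1) (hodd : Odd m) : False := by
  obtain ⟨a, haT, c, hc, hca, hax, hcen, hoff⟩ := inv_elation h s hg hp hne hinv
  have hsq : g.1 ^ 2 = 1 := by
    ext p
    rw [pow_two]
    exact congrArg (fun z => z.1 p) hinv
  have h1 := modfix g.1 S (fun x => hp.s x) 2 Nat.prime_two hsq
  have h2 : {x | x ∈ S ∧ g.1 x = x} = {x | x ∈ S ∧ I x a} := by
    ext x
    exact ⟨fun hx => ⟨hx.1, hoff x hx.2⟩, fun hx => ⟨hx.1, hax x hx.2⟩⟩
  rw [h2, s.pt a haT, s.cS] at h1
  obtain ⟨r, hr⟩ := hodd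
  subst hr
  unfold Nat.ModEq at h1
  have h5 : (2 * r + 1 + 1) % 2 = 0 := by omega
  have h6 : ((2 * r + 1) ^ 2 + (2 * r + 1) + 1) % 2 = 1 := by
    have : (2 * r + 1) ^ 2 + (2 * r + 1) + 1 = 2 * (2 * r ^ 2 + 3 * r + 1) + 1 := by ring
    rw [this]
    omega
  omega

end Pool.Agent.BB
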