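import Pool.Agent.Lib.MP_bbcd91_co.A4

set_option autoImplicit false

namespace Pool.Agent.BB

variable {P L : Type*} {I : P → L → Prop} {m : ℕ} {S : Set P} {T : Set L}

/-- a collineation fixing `c ∈ S`, the points of `S` on `l ∈ T` and one more point of `S` on a line
`c A` fixes `S` pointwise -/
theorem extra [Finite P] [Finite L] (h : Plane I (m ^ 2 + m)) (s : Sub I S T m)
    {g : Equiv.Perm P × Equiv.Perm L} (hg : Col I g) {c : P} {l : L}
    (hc : c ∈ S) (hl : l ∈ T) (hcl : ¬ I c l) (fc : g.1 c = c) (fl : ∀ p ∈ S, I p l → g.1 p = p)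
    {A B : P} {k : L} (hA : A ∈ S) (hAl : I A l) (hk : I c k) (hAk : I A k) (hB : B ∈ S)
    (hBk : I B k) (hBc : B ≠ c) (hBA : B ≠ A) (fB : g.1 B = B) : g = 1 := by
  have hlk : l ≠ k := by rintro rfl; exact hcl hk
  have hkT : k ∈ T := s.jn B hB c hc hBc k hBk hk
  have hBl : ¬ I B l := by
    intro e
    rcases h.uniq B A l k e hAl hBk hAk with e' | e'
    · exact hBA e'
    · exact hlk e'
  -- lines of T through a fixed point off l are fixed
  have fline : ∀ x ∈ S, g.1 x = x → ¬ I x l → ∀ j ∈ T, I x j → g.2 j = j := by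
    intro x hx fx hxl j hj hxj
    have hjl : j ≠ l := by rintro rfl; exact hxl hxj
    obtain ⟨y, hy1, hy2⟩ := h.meet j l hjl
    have hyS := s.mt j hj l hl hjl y hy1 hy2
    have hxy : x ≠ y := by rintro rfl; exact hxl hy2
    exact fixL h hg hxy fx (fl y hyS hy2) hxj hy1
  have offk : ∀ w ∈ S, ¬ I w k → g.1 w = w := by
    intro w hw hwk
    obtain ⟨j1, h1, h2⟩ := h.join w c (by rintro rfl; exact hwk hk)
    obtain ⟨j2, h3, h4⟩ := h.join w B (by rintro rfl; exact hwk hBk)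
    have e1 : j1 ∈ T := s.jn w hw c hc (by rintro rfl; exact hwk hk) j1 h1 h2
    have e2 : j2 ∈ T := s.jn w hw B hB (by rintro rfl; exact hwk hBk) j2 h3 h4
    have e3 : j1 ≠ j2 := by
      rintro rfl
      rcases h.uniq c B j1 k h2 h4 hk hBk with e | e
      · exact hBc e.symm
      · exact hwk (e ▸ h1)
    exact fixP h hg e3 (fline c hc fc hcl j1 e1 h2) (fline B hB fB hBl j2 e2 h4) h1 h3
  refine faithful h s hg ?_
  intro w hw
  by_cases hwk : I w k
  · -- a line of T through w other than k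
    have h1 : 0 < ({j | j ∈ T ∧ I w j} \ {k}).ncard := by
      have h5 := Set.le_ncard_sdiff ({k} : Set L) {j | j ∈ T ∧ I w j} (Set.toFinite _)
      rw [Set.ncard_singleton, s.ln w hw] at h5
      have := s.two
      omega
    obtain ⟨j, ⟨hjT, hwj⟩, hjk⟩ := (Set.ncard_pos (Set.toFinite _)).1 h1
    have hjk : j ≠ k := hjk
    obtain ⟨b, b', hb, hb', hbb, hbw, hbw', ib, ib'⟩ := s.two_pts hjT w
    have off : ∀ x, x ≠ w → I x j → ¬ I x k := by
      intro x hx hxj hxk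
      rcases h.uniq x w j k hxj hwj hxk hwk with e | e
      · exact hx e
      · exact hjk e
    have fj : g.2 j = j :=
      fixL h hg hbb (offk b hb (off b hbw ib)) (offk b' hb' (off b' hbw' ib')) ib ib'
    have fk : g.2 k = k := fixL h hg hBc fB fc hBk hk
    exact fixP h hg hjk fj fk hwj hwk
  · exact offk w hw hwk

/-- homologies: the case of prime order -/
theorem no_homology_prime [Finite P] [Finite L] (h : Plane I (m ^ 2 + m)) (s : Sub I S T m)
    {g : Equiv.Perm P × Equiv.Perm L} (hg : Col I g) (hp : Pres S T g) {c : P} {l : L}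
    (hc : c ∈ S) (hl : l ∈ T) (hcl : ¬ I c l) (fc : g.1 c = c) (fl : ∀ p ∈ S, I p l → g.1 p = p)
    {r : ℕ} (hr : r.Prime) (hgr : g ^ r = 1) : g = 1 := by
  classical
  by_contra hne
  have hm := s.two
  -- a point A of S on l, and the line k = cA
  obtain ⟨A, A', hA, hA', hAA, hAc, hAc', iA, iA'⟩ := s.two_pts hl c
  obtain ⟨k, hk1, hk2⟩ := h.join c A (fun e => hAc e.symm)
  have hkT : k ∈ T := s.jn c hc A hA (fun e => hAc e.symm) k hk1 hk2
  have hlk : l ≠ k := by rintro rfl; exact hcl hk1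
  have fA := fl A hA iA
  have fk : g.2 k = k := fixL h hg (fun e => hAc e.symm) fc fA hk1 hk2
  have hσ : g.1 ^ r = 1 := by
    have := congrArg Prod.fst hgr
    simpa using this
  have hinvk : ∀ x, I (g.1 x) k ↔ I x k := by
    intro x
    have := hg x k
    rwa [fk] at this
  have hxc : ∀ x, g.1 x = c ↔ x = c := fun x =>
    ⟨fun e => g.1.injective (e.trans fc.symm), fun e => by rw [e, fc]⟩
  have hxA : ∀ x, g.1 x = A ↔ x = A := fun x =>
    ⟨fun e => g.1.injective (e.trans fA.symm), fun e => by rw [e, fA]⟩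
  -- first count
  have c1 := modfix g.1 {x | x ∈ S ∧ I x k ∧ x ≠ c ∧ x ≠ A}
    (fun x => by
      simp only [Set.mem_ofPred_eq]
      rw [hp.s, hinvk, Ne, hxc, Ne, hxA]) r hr hσ
  have e1 : {x | x ∈ {x | x ∈ S ∧ I x k ∧ x ≠ c ∧ x ≠ A} ∧ g.1 x = x} = ∅ := by
    ext x
    simp only [Set.mem_ofPred_eq, Set.mem_empty_iff_false, iff_false]
    rintro ⟨⟨h1, h2, h3, h4⟩, h5⟩
    exact hne (extra h s hg hc hl hcl fc fl hA iA hk1 hk2 h1 h2 h3 h4 h5)
  have cnt2 : ∀ B : Set P, c ∈ B → A ∈ B → {x | x ∈ B ∧ x ≠ c ∧ x ≠ A}.ncard + 2 = B.ncard := by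
    intro B hcB hAB
    have h1 : {x | x ∈ B ∧ x ≠ c ∧ x ≠ A} = (B \ {c}) \ {A} := by
      ext x
      simp only [Set.mem_ofPred_eq, Set.mem_sdiff, Set.mem_singleton_iff]
      tauto
    have h2 := Set.ncard_sdiff_singleton_add_one hcB (Set.toFinite _)
    have h3 : A ∈ B \ {c} := ⟨hAB, hAc⟩
    have h4 := Set.ncard_sdiff_singleton_add_one h3 (Set.toFinite _)
    rw [h1]
    omega
  have e2 : {x | x ∈ S ∧ I x k ∧ x ≠ c ∧ x ≠ A}.ncard = m - 1 := by
    have h1 := cnt2 {x | x ∈ S ∧ I x k} ⟨hc, hk1⟩ ⟨hA, hk2⟩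
    rw [s.pt k hkT] at h1
    have h2 : {x | x ∈ S ∧ I x k ∧ x ≠ c ∧ x ≠ A} =
        {x | x ∈ {x | x ∈ S ∧ I x k} ∧ x ≠ c ∧ x ≠ A} := by
      ext x
      simp only [Set.mem_ofPred_eq]
      tauto
    rw [h2]
    omega
  rw [e1, e2, Set.ncard_empty] at c1
  have hdvd : r ∣ m - 1 := (Nat.modEq_zero_iff_dvd).1 c1.symm
  -- second count
  have c2 := modfix g.1 {x | I x k ∧ x ≠ c ∧ x ≠ A}
    (fun x => by
      simp only [Set.mem_ofPred_eq]
      rw [hinvk, Ne, hxc, Ne, hxA]) r hr hσ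
  have e3 : {x | I x k ∧ x ≠ c ∧ x ≠ A}.ncard = m ^ 2 + m - 1 := by
    have h1 := cnt2 {x | I x k} hk1 hk2
    rw [h.pts k] at h1
    have h2 : {x | I x k ∧ x ≠ c ∧ x ≠ A} = {x | x ∈ {x | I x k} ∧ x ≠ c ∧ x ≠ A} := rfl
    rw [h2]
    omega
  have hY : ∃ Y, I Y k ∧ Y ≠ c ∧ Y ≠ A ∧ g.1 Y = Y := by
    by_contra hcon
    push Not at hcon
    have e4 : {x | x ∈ {x | I x k ∧ x ≠ c ∧ x ≠ A} ∧ g.1 x = x} = ∅ := by
      ext x
      simp only [Set.mem_ofPred_eq, Set.mem_empty_iff_false, iff_false]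
      rintro ⟨⟨h2, h3, h4⟩, h5⟩
      exact hcon x h2 h3 h4 h5
    rw [e4, e3, Set.ncard_empty] at c2
    have h1 : r ∣ m ^ 2 + m - 1 := (Nat.modEq_zero_iff_dvd).1 c2.symm
    obtain ⟨t, ht⟩ : ∃ t, m = t + 1 := ⟨m - 1, by omega⟩
    subst ht
    have h2 : r ∣ t := by simpa using hdvd
    have h3 : (t + 1) ^ 2 + (t + 1) - 1 = t * (t + 3) + 1 := by
      have : (t + 1) ^ 2 + (t + 1) = t * (t + 3) + 1 + 1 := by ring
      omega
    rw [h3] at h1
    have h4 : r ∣ 1 := (Nat.dvd_add_right (Dvd.dvd.mul_right h2 _)).1 h1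
    exact hr.one_lt.ne' (Nat.dvd_one.1 h4)
  obtain ⟨Y, hYk, hYc, hYA, fY⟩ := hY
  obtain ⟨B, B', hB, hB', hBB, hBA, hBA', iB, iB'⟩ := s.two_pts hl A
  have offk : ∀ x, x ≠ A → I x l → ¬ I x k := by
    intro x hx e1 e2
    rcases h.uniq x A l k e1 iA e2 hk2 with e | e
    · exact hx e
    · exact hlk e
  have hYl : ¬ I Y l := by
    intro e
    exact offk Y hYA e hYk
  obtain ⟨f, sf⟩ := sub_fix h hg fY fc (fl B hB iB) (fl B' hB' iB')
    (by
      intro j h1 h2 h3
      rcases h.uniq Y c j k h1 h2 hYk hk1 with e | e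
      · exact hYc e
      · exact offk B hBA iB (e ▸ h3))
    (by
      intro j h1 h2 h3
      rcases h.uniq Y c j k h1 h2 hYk hk1 with e | e
      · exact hYc e
      · exact offk B' hBA' iB' (e ▸ h3))
    (by
      intro j h1 h2 h3
      rcases h.uniq B B' j l h2 h3 iB iB' with e | e
      · exact hBB e
      · exact hYl (e ▸ h1))
    (by
      intro j h1 h2 h3
      rcases h.uniq B B' j l h2 h3 iB iB' with e | e
      · exact hBB e
      · exact hcl (e ▸ h1))
  have hb := bruck h hg hne sf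
  have fl' : l ∈ FL g := fixL h hg hBB (fl B hB iB) (fl B' hB' iB') iB iB'
  have h1 : {p | p ∈ S ∧ I p l} ⊆ {p | p ∈ FP g ∧ I p l} := fun p hp => ⟨fl p hp.1 hp.2, hp.2⟩
  have h2 := Set.ncard_le_ncard h1 (Set.toFinite _)
  rw [s.pt l hl, sf.pt l fl'] at h2
  have h3 : f = m := by
    by_contra hne'
    have : m + 1 ≤ f := by omega
    nlinarith
  subst h3
  exact hne (faithful h sf hg (fun p hp => hp))

/-- (2) no collineation leaving the subplane invariant induces a homology on it -/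
theorem no_homology [Finite P] [Finite L] (h : Plane I (m ^ 2 + m)) (s : Sub I S T m)
    {g : Equiv.Perm P × Equiv.Perm L} (hg : Col I g) (hp : Pres S T g) {c : P} {l : L}
    (hc : c ∈ S) (hl : l ∈ T) (hcl : ¬ I c l) (fc : g.1 c = c) (fl : ∀ p ∈ S, I p l → g.1 p = p) :
    g = 1 := by
  classical
  by_contra hne
  have ho : orderOf g ≠ 1 := fun e => hne (orderOf_eq_one_iff.1 e)
  obtain ⟨r, hr, hrd⟩ := Nat.exists_prime_and_dvd ho
  obtain ⟨t, ht⟩ := hrd
  have hpos : 0 < orderOf g := orderOf_pos g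
  have fix : ∀ (n : ℕ) (x : P), g.1 x = x → (g ^ n).1 x = x := by
    intro n x hx
    induction n with
    | zero => rfl
    | succ n ih =>
      rw [pow_succ]
      show (g ^ n).1 (g.1 x) = x
      rw [hx, ih]
  have h1 : g ^ t = 1 := no_homology_prime h s (hg.pow t) (hp.pow t) hc hl hcl (fix t c fc)
    (fun p hp hpl => fix t p (fl p hp hpl)) hr (by
      rw [← pow_mul, mul_comm, ← ht]
      exact pow_orderOf_eq_one g)
  have h2 := orderOf_dvd_of_pow_eq_one h1
  have htpos : 0 < t := by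
    rcases Nat.eq_zero_or_pos t with e | e
    · rw [e, mul_zero] at ht; omega
    · exact e
  have h3 := Nat.le_of_dvd htpos h2
  have := hr.one_lt
  nlinarith

theorem Cen.dual_iff {g : Equiv.Perm P × Equiv.Perm L} {a : L} :
    Cen (fun (l : L) (p : P) => I p l) (g.2, g.1) a ↔ Ax I g a := Iff.rfl

/-- dual of (5) -/
theorem card_ax [Finite P] [Finite L] (h : Plane I (m ^ 2 + m)) (s : Sub I S T m)
    {G : Subgroup (Equiv.Perm P × Equiv.Perm L)} (hG : ∀ g ∈ G, Col I g ∧ Pres S T g) {a : L}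
    (ha : a ∈ T) : {g | g ∈ G ∧ Ax I g a}.ncard ≤ m := by
  let φ : Equiv.Perm P × Equiv.Perm L ≃* Equiv.Perm L × Equiv.Perm P := MulEquiv.prodComm
  have h1 := card_cen h.dual s.dual (G := G.map φ.toMonoidHom)
    (by
      rintro g ⟨k, hk, rfl⟩
      exact ⟨(hG k hk).1.dual, (hG k hk).2.dual⟩) ha
  refine le_trans (Set.ncard_le_ncard_of_injOn φ ?_ (φ.injective.injOn) (Set.toFinite _)) h1
  rintro g ⟨hg, hax⟩
  exact ⟨⟨g, hg, rfl⟩, hax⟩

/-- (6) a group transitive on the points of the subplane has odd order -/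
theorem trans_odd [Finite P] [Finite L] (h : Plane I (m ^ 2 + m)) (s : Sub I S T m)
    {G : Subgroup (Equiv.Perm P × Equiv.Perm L)} (hG : ∀ g ∈ G, Col I g ∧ Pres S T g)
    (htr : ∀ p ∈ S, ∀ q ∈ S, ∃ g ∈ G, g.1 p = q) : Odd (Nat.card G) := by
  classical
  by_contra hodd
  rw [Nat.not_odd_iff_even] at hodd
  haveI : Fact (Nat.Prime 2) := ⟨Nat.prime_two⟩
  obtain ⟨x, hx⟩ := exists_prime_orderOf_dvd_card' (G := G) 2 hodd.two_dvd
  have hx1 : (x : Equiv.Perm P × Equiv.Perm L) ≠ 1 := by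
    intro e
    have : x = 1 := Subtype.ext e
    rw [this, orderOf_one] at hx
    omega
  have hx2 : (x : Equiv.Perm P × Equiv.Perm L) * x = 1 := by
    have h1 := pow_orderOf_eq_one x
    rw [hx, pow_two] at h1
    exact congrArg Subtype.val h1
  have hm := s.two
  -- involution with given centre
  have inv : ∀ D ∈ S, ∃ ρ ∈ G, ρ ≠ 1 ∧ ρ * ρ = 1 ∧ ∃ b ∈ T, I D b ∧ Ax I ρ b ∧ Cen I ρ D ∧
      ∀ p, ρ.1 p = p → I p b := by
    intro D hD
    obtain ⟨a, haT, c, hc, hca, hax, hcen, hoff⟩ :=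
      inv_elation h s (hG x x.2).1 (hG x x.2).2 hx1 hx2
    obtain ⟨k, hk, hkc⟩ := htr c hc D hD
    have hkC := (hG k hk).1
    refine ⟨k * x * k⁻¹, G.mul_mem (G.mul_mem hk x.2) (G.inv_mem hk), ?_, ?_, k.2 a,
      ((hG k hk).2.t a).2 haT, ?_, ?_, ?_, ?_⟩
    · intro e
      apply hx1
      have := congrArg (fun z => k⁻¹ * z * k) e
      simpa [mul_assoc] using this
    · have : k * (x : Equiv.Perm P × Equiv.Perm L) * k⁻¹ * (k * x * k⁻¹) = k * (x * x) * k⁻¹ := by
        group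
      rw [this, hx2]
      group
    · rw [← hkc]
      exact (hkC c a).2 hca
    · intro p hp
      show k.1 ((x : Equiv.Perm P × Equiv.Perm L).1 (k.1⁻¹ p)) = p
      have h1 : I (k.1⁻¹ p) a := by
        rw [← hkC]
        simpa using hp
      rw [hax _ h1]
      simp
    · intro l hl
      show k.2 ((x : Equiv.Perm P × Equiv.Perm L).2 (k.2⁻¹ l)) = l
      have h1 : I c (k.2⁻¹ l) := by
        rw [← hkC, hkc]
        simpa using hl
      rw [hcen _ h1]
      simp
    · intro p hp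
      have hp' : k.1 ((x : Equiv.Perm P × Equiv.Perm L).1 (k.1⁻¹ p)) = p := hp
      have h1 : (x : Equiv.Perm P × Equiv.Perm L).1 (k.1⁻¹ p) = k.1⁻¹ p := by
        rw [Equiv.Perm.eq_inv_iff_eq]
        exact hp'
      have h2 := hoff _ h1
      rw [← hkC] at h2
      simpa using h2
  obtain ⟨C, hC⟩ := s.ex_pt
  obtain ⟨σ, hσG, hσ1, hσ2, a, haT, hCa, hax, hcen, hoff⟩ := inv C hC
  have hσi : σ⁻¹ = σ := inv_eq_of_mul_eq_one_right hσ2
  -- an element with axis a and given centre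
  have key : ∀ D, (D ∈ S ∧ I D a) → ∃ κ, κ ∈ G ∧ κ ≠ 1 ∧ Ax I κ a ∧ Cen I κ D := by
    rintro D ⟨hD, hDa⟩
    by_cases hDC : D = C
    · subst hDC
      exact ⟨σ, hσG, hσ1, hax, hcen⟩
    obtain ⟨ρ, hρG, hρ1, hρ2, b, hbT, hDb, hbx, hbcen, hboff⟩ := inv D hD
    have hρi : ρ⁻¹ = ρ := inv_eq_of_mul_eq_one_right hρ2
    by_cases hab : b = a
    · subst hab
      exact ⟨ρ, hρG, hρ1, hbx, hbcen⟩
    have hCb : ¬ I C b := by
      intro e
      rcases h.uniq D C a b hDa hCa hDb e with e' | e'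
      · exact hDC e'
      · exact hab e'.symm
    have hσC := (hG σ hσG).1
    have hρC := (hG ρ hρG).1
    -- κ = σ ρ σ ρ
    have fρa : ρ.2 a = a := hbcen a hDa
    have fσD : σ.1 D = D := hax D hDa
    refine ⟨σ * (ρ * σ * ρ), G.mul_mem hσG (G.mul_mem (G.mul_mem hρG hσG) hρG), ?_, ?_, ?_⟩
    · -- if κ = 1 then ρ σ ρ = σ, so ρ fixes C
      intro e
      have h1 : ρ * σ * ρ = σ := by
        have := congrArg (fun z => σ * z) e
        simp only [← mul_assoc, hσ2, one_mul, mul_one] at this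
        simpa [mul_assoc] using this
      -- σ has centre C and centre ρ C
      have h2 : Cen I σ (ρ.1 C) := by
        intro l hl
        have h3 : I C (ρ.2 l) := by
          have := (hρC (ρ.1 C) l).2 hl
          have h4 : ρ.1 (ρ.1 C) = C := congrArg (fun z => z.1 C) hρ2
          rwa [h4] at this
        have h5 : σ.2 l = ρ.2 (σ.2 (ρ.2 l)) := congrArg (fun z => z.2 l) h1.symm
        rw [h5, hcen _ h3]
        exact congrArg (fun z => z.2 l) hρ2
      have h3 : C ≠ ρ.1 C := by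
        intro e'
        exact hCb (hboff C e'.symm)
      exact hσ1 (two_cen h hσC hcen h2 h3)
    · intro p hp
      show σ.1 (ρ.1 (σ.1 (ρ.1 p))) = p
      have h1 : I (ρ.1 p) a := by
        have := (hρC p a).2 hp
        rwa [fρa] at this
      rw [hax _ h1]
      have h2 : ρ.1 (ρ.1 p) = p := congrArg (fun z => z.1 p) hρ2
      rw [h2, hax p hp]
    · intro l hl
      show σ.2 (ρ.2 (σ.2 (ρ.2 l))) = l
      rw [hbcen l hl]
      have h1 : I D (σ.2 l) := by
        have := (hσC D l).2 hl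
        rwa [fσD] at this
      rw [hbcen _ h1]
      exact congrArg (fun z => z.2 l) hσ2
  choose! κ hκ using key
  -- injectivity of κ on the m+1 points and κ ≠ 1
  have h1 := card_ax h s hG haT
  have h2 : insert (1 : Equiv.Perm P × Equiv.Perm L) (κ '' {D | D ∈ S ∧ I D a}) ⊆
      {g | g ∈ G ∧ Ax I g a} := by
    rintro g (rfl | ⟨D, hD, rfl⟩)
    · exact ⟨G.one_mem, fun p _ => rfl⟩
    · exact ⟨(hκ D hD).1, (hκ D hD).2.2.1⟩
  have h3 : (1 : Equiv.Perm P × Equiv.Perm L) ∉ κ '' {D | D ∈ S ∧ I D a} := by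
    rintro ⟨D, hD, e⟩
    exact (hκ D hD).2.1 e
  have h4 : Set.InjOn κ {D | D ∈ S ∧ I D a} := by
    intro D hD E hE e
    by_contra hDE
    have e1 := (hκ D hD).2.2.2
    have e2 := (hκ E hE).2.2.2
    rw [← e] at e2
    exact (hκ D hD).2.1 (two_cen h (hG _ (hκ D hD).1).1 e1 e2 hDE)
  have h5 := Set.ncard_le_ncard h2 (Set.toFinite _)
  rw [Set.ncard_insert_of_notMem h3 (Set.toFinite _), h4.ncard_image, s.pt a haT] at h5
  omega

/-- (3) for odd `m` every group leaving the subplane invariant has odd order -/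
theorem odd_odd [Finite P] [Finite L] (h : Plane I (m ^ 2 + m)) (s : Sub I S T m)
    {G : Subgroup (Equiv.Perm P × Equiv.Perm L)} (hG : ∀ g ∈ G, Col I g ∧ Pres S T g)
    (hm : Odd m) : Odd (Nat.card G) := by
  classical
  by_contra hodd
  rw [Nat.not_odd_iff_even] at hodd
  haveI : Fact (Nat.Prime 2) := ⟨Nat.prime_two⟩
  obtain ⟨x, hx⟩ := exists_prime_orderOf_dvd_card' (G := G) 2 hodd.two_dvd
  have hx1 : (x : Equiv.Perm P × Equiv.Perm L) ≠ 1 := by
    intro e
    have : x = 1 := Subtype.ext e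
    rw [this, orderOf_one] at hx
    omega
  have hx2 : (x : Equiv.Perm P × Equiv.Perm L) * x = 1 := by
    have h1 := pow_orderOf_eq_one x
    rw [hx, pow_two] at h1
    exact congrArg Subtype.val h1
  exact inv_odd h s (hG x x.2).1 (hG x x.2).2 hx1 hx2 hm

end Pool.Agent.BB
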