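import Pool.Agent.Lib.MP_bbcd91_co.A5

set_option autoImplicit false

namespace Pool.Agent.BB

open Configuration

section
variable {P L : Type*} [Membership P L] [ProjectivePlane P L]

theorem two_on_line (l : L) : ∃ p q : P, p ≠ q ∧ p ∈ l ∧ q ∈ l := by
  obtain ⟨p1, p2, p3, l1, l2, l3, h12, h13, h21, h22, h23, h31, h32, h33⟩ :=
    ProjectivePlane.exists_config (P := P) (L := L)
  have h2l : l2 ≠ l3 := by rintro rfl; exact h33 h32
  by_cases h : p2 ∈ l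
  · have hl : l ≠ l1 := by rintro rfl; exact h21 h
    refine ⟨p2, HasPoints.mkPoint hl, ?_, h, (HasPoints.mkPoint_ax hl).1⟩
    intro e
    apply h21
    rw [e]
    exact (HasPoints.mkPoint_ax hl).2
  · have hl2 : l2 ≠ l := by rintro rfl; exact h h22
    have hl3 : l3 ≠ l := by rintro rfl; exact h h23
    have a2 := HasPoints.mkPoint_ax (P := P) hl2
    have a3 := HasPoints.mkPoint_ax (P := P) hl3
    refine ⟨HasPoints.mkPoint hl2, HasPoints.mkPoint hl3, ?_, a2.2, a3.2⟩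
    intro e
    rcases Nondegenerate.eq_or_eq a2.1 h22 (e ▸ a3.1) h23 with e' | e'
    · exact h (e' ▸ a2.2)
    · exact h2l e'

theorem finite_lines [Finite P] : Finite L := by
  refine Finite.of_injective (fun l : L => {p : P | p ∈ l}) ?_
  intro l k e
  obtain ⟨p, q, hpq, hp, hq⟩ := two_on_line (P := P) l
  have e' : {p : P | p ∈ l} = {p : P | p ∈ k} := e
  have h1 : p ∈ k := by
    have : p ∈ {p : P | p ∈ l} := hp
    rw [e'] at this
    exact this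
  have h2 : q ∈ k := by
    have : q ∈ {p : P | p ∈ l} := hq
    rw [e'] at this
    exact this
  exact (Nondegenerate.eq_or_eq hp hq h1 h2).resolve_left hpq

end

variable {P L : Type*} {I : P → L → Prop} {m n : ℕ} {S : Set P} {T : Set L}

/-- the group of all collineations -/
def colSub (I : P → L → Prop) : Subgroup (Equiv.Perm P × Equiv.Perm L) where
  carrier := {g | Col I g}
  mul_mem' := fun h h' => Col.mul h h'
  one_mem' := Col.one
  inv_mem' := fun h => Col.inv h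

/-- pairs (point permutation in `G`, line permutation) -/
def lift (I : P → L → Prop) (G : Subgroup (Equiv.Perm P)) :
    Subgroup (Equiv.Perm P × Equiv.Perm L) :=
  G.comap (MonoidHom.fst _ _) ⊓ colSub I

theorem mem_lift {G : Subgroup (Equiv.Perm P)} {g : Equiv.Perm P × Equiv.Perm L} :
    g ∈ lift I G ↔ g.1 ∈ G ∧ Col I g := Iff.rfl

theorem eq_of_fst (h : Plane I n) {g k : Equiv.Perm P × Equiv.Perm L} (hg : Col I g)
    (hk : Col I k) (e : g.1 = k.1) : g = k := by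
  have h1 : k⁻¹ * g = 1 := by
    refine eq_one h (hk.inv.mul hg) (fun p => ?_)
    show k.1⁻¹ (g.1 p) = p
    rw [e]
    simp
  have := congrArg (fun z => k * z) h1
  simpa using this

theorem card_lift (h : Plane I n) {G : Subgroup (Equiv.Perm P)}
    (hG : ∀ g ∈ G, ∃ τ : Equiv.Perm L, ∀ p l, I (g p) (τ l) ↔ I p l) :
    Nat.card (lift I G) = Nat.card G := by
  refine Nat.card_congr (Equiv.ofBijective (fun g => ⟨g.1.1, g.2.1⟩) ⟨?_, ?_⟩)
  · rintro ⟨g, hg⟩ ⟨k, hk⟩ e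
    have e1 : g.1 = k.1 := congrArg Subtype.val e
    exact Subtype.ext (eq_of_fst h hg.2 hk.2 e1)
  · rintro ⟨g, hg⟩
    obtain ⟨τ, hτ⟩ := hG g hg
    exact ⟨⟨(g, τ), ⟨hg, fun p l => hτ p l⟩⟩, rfl⟩

theorem pres_lift [Finite P] (s : Sub I S T m) {G : Subgroup (Equiv.Perm P)}
    (hS : ∀ g ∈ G, ∀ p ∈ S, g p ∈ S) {g : Equiv.Perm P × Equiv.Perm L} (hg : g ∈ lift I G) :
    Col I g ∧ Pres S T g := by
  have one : ∀ k ∈ lift I G, ∀ l ∈ T, k.2 l ∈ T := by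
    intro k hk l hl
    obtain ⟨o, ho⟩ := s.ex_pt
    obtain ⟨b, c, hb, hc, hbc, -, -, ib, ic⟩ := s.two_pts hl o
    exact s.jn _ (hS _ hk.1 b hb) _ (hS _ hk.1 c hc) (fun e => hbc (k.1.injective e)) _
      ((hk.2 b l).2 ib) ((hk.2 c l).2 ic)
  refine ⟨hg.2, ⟨fun p => ⟨fun hp => ?_, fun hp => hS _ hg.1 p hp⟩,
    fun l => ⟨fun hl => ?_, fun hl => one g hg l hl⟩⟩⟩
  · have := hS _ (G.inv_mem hg.1) _ hp
    simpa using this
  · have := one g⁻¹ ((lift I G).inv_mem hg) _ hl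
    simpa using this

/-- The subplane structure from the hypotheses of the frozen statement. -/
theorem sub_of [Membership P L] [ProjectivePlane P L] [Finite P] [Finite L]
    (h1 : ∀ p ∈ S, ∀ q ∈ S, p ≠ q → ∃ l ∈ T, p ∈ l ∧ q ∈ l)
    (h2 : ∀ l ∈ T, ∀ l' ∈ T, l ≠ l' → ∃ p ∈ S, p ∈ l ∧ p ∈ l')
    (h3 : ∃ a ∈ S, ∃ b ∈ S, ∃ c ∈ S, ∃ d ∈ S,
        (¬ ∃ l : L, a ∈ l ∧ b ∈ l ∧ c ∈ l) ∧
        (¬ ∃ l : L, a ∈ l ∧ b ∈ l ∧ d ∈ l) ∧
        (¬ ∃ l : L, a ∈ l ∧ c ∈ l ∧ d ∈ l) ∧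
        (¬ ∃ l : L, b ∈ l ∧ c ∈ l ∧ d ∈ l))
    (h4 : ∀ l ∈ T, Set.ncard {p : P | p ∈ S ∧ p ∈ l} = m + 1) :
    Sub (fun (p : P) (l : L) => p ∈ l) S T m := by
  obtain ⟨a, ha, b, hb, c, hc, d, hd, g1, g2, g3, g4⟩ := h3
  obtain ⟨f, sf⟩ := sub_of_quad (I := fun (p : P) (l : L) => p ∈ l) plane_of (F := S) (K := T)
    (by
      intro p hp q hq hpq l hpl hql
      obtain ⟨k, hk, hpk, hqk⟩ := h1 p hp q hq hpq
      rcases Nondegenerate.eq_or_eq hpl hql hpk hqk with e | e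
      · exact absurd e hpq
      · exact e ▸ hk)
    (by
      intro l hl k hk hlk p hpl hpk
      obtain ⟨q, hq, hql, hqk⟩ := h2 l hl k hk hlk
      rcases Nondegenerate.eq_or_eq hpl hql hpk hqk with e | e
      · exact e ▸ hq
      · exact absurd e hlk)
    ha hb hc hd
    (fun l e1 e2 e3 => g1 ⟨l, e1, e2, e3⟩) (fun l e1 e2 e3 => g2 ⟨l, e1, e2, e3⟩)
    (fun l e1 e2 e3 => g3 ⟨l, e1, e2, e3⟩) (fun l e1 e2 e3 => g4 ⟨l, e1, e2, e3⟩)
  obtain ⟨l, hl, -⟩ := sf.ex_two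
  have e1 := sf.pt l hl
  have e2 := h4 l hl
  have e3 : f = m := by
    have : f + 1 = m + 1 := by rw [← e1, ← e2]
    omega
  subst e3
  exact sf

end Pool.Agent.BB
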