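import Pool.Agent.Lib.MP_bbcd91_co.A6

set_option autoImplicit false

namespace Pool.Agent.BB

open Configuration

variable {P L : Type*} {I : P → L → Prop} {m n k f : ℕ} {S : Set P} {T : Set L}

/-- common fixed points -/
def FPs (H : Set (Equiv.Perm P × Equiv.Perm L)) : Set P := {p | ∀ g ∈ H, g.1 p = p}
/-- common fixed lines -/
def FLs (H : Set (Equiv.Perm P × Equiv.Perm L)) : Set L := {l | ∀ g ∈ H, g.2 l = l}

theorem fps_jn (h : Plane I n) {H : Set (Equiv.Perm P × Equiv.Perm L)} (hH : ∀ g ∈ H, Col I g) :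
    ∀ p ∈ FPs H, ∀ q ∈ FPs H, p ≠ q → ∀ l, I p l → I q l → l ∈ FLs H :=
  fun _ hp _ hq hpq _ h1 h2 g hg => fixL h (hH g hg) hpq (hp g hg) (hq g hg) h1 h2

theorem fps_mt (h : Plane I n) {H : Set (Equiv.Perm P × Equiv.Perm L)} (hH : ∀ g ∈ H, Col I g) :
    ∀ l ∈ FLs H, ∀ k ∈ FLs H, l ≠ k → ∀ p, I p l → I p k → p ∈ FPs H :=
  fun _ hl _ hk hlk _ h1 h2 g hg => fixP h (hH g hg) hlk (hl g hg) (hk g hg) h1 h2

theorem sub_jn (h : Plane I n) (s : Sub I S T m) {H : Set (Equiv.Perm P × Equiv.Perm L)}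
    (hH : ∀ g ∈ H, Col I g) :
    ∀ p ∈ S ∩ FPs H, ∀ q ∈ S ∩ FPs H, p ≠ q → ∀ l, I p l → I q l → l ∈ T ∩ FLs H :=
  fun p hp q hq hpq l h1 h2 =>
    ⟨s.jn p hp.1 q hq.1 hpq l h1 h2, fps_jn h hH p hp.2 q hq.2 hpq l h1 h2⟩

theorem sub_mt (h : Plane I n) (s : Sub I S T m) {H : Set (Equiv.Perm P × Equiv.Perm L)}
    (hH : ∀ g ∈ H, Col I g) :
    ∀ l ∈ T ∩ FLs H, ∀ k ∈ T ∩ FLs H, l ≠ k → ∀ p, I p l → I p k → p ∈ S ∩ FPs H :=
  fun l hl k hk hlk p h1 h2 =>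
    ⟨s.mt l hl.1 k hk.1 hlk p h1 h2, fps_mt h hH l hl.2 k hk.2 hlk p h1 h2⟩

/-- inheritance: a fixed exterior point -/
theorem inherit1 [Finite P] [Finite L] (h : Plane I (m ^ 2 + m)) (s : Sub I S T m)
    {H : Set (Equiv.Perm P × Equiv.Perm L)} (hH : ∀ g ∈ H, Col I g ∧ Pres S T g)
    (sk : Sub I (S ∩ FPs H) (T ∩ FLs H) k) (sf : Sub I (FPs H) (FLs H) f) {x : P}
    (hx : Ext I T x) (hxF : x ∈ FPs H) : f = k ^ 2 + k := by
  classical
  have hxS := hx.notMem s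
  have e1 : (S ∩ FPs H).ncard ≤ {l | l ∈ FLs H ∧ I x l}.ncard := by
    have ex : ∀ p, p ∈ S ∩ FPs H → ∃ l, I p l ∧ I x l := fun p hp =>
      h.join p x (by rintro rfl; exact hxS hp.1)
    obtain ⟨l0, -, -⟩ := sf.ex_two
    have : Nonempty L := ⟨l0⟩
    choose! φ hφ using ex
    refine Set.ncard_le_ncard_of_injOn φ ?_ ?_ (Set.toFinite _)
    · intro p hp
      refine ⟨?_, (hφ p hp).2⟩
      exact fps_jn h (fun g hg => (hH g hg).1) p hp.2 x hxF (by rintro rfl; exact hxS hp.1) _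
        (hφ p hp).1 (hφ p hp).2
    · intro p hp q hq e
      by_contra hpq
      have e2 := (hφ p hp).1
      have e3 := (hφ q hq).1
      rw [← e] at e3
      exact hx _ (s.jn p hp.1 q hq.1 hpq _ e2 e3) (hφ p hp).2
  have e2 : {l | l ∈ FLs H ∧ I x l}.ncard ≤ (S ∩ FPs H).ncard := by
    have ex : ∀ l, l ∈ FLs H ∧ I x l → ∃ p, p ∈ S ∩ FPs H ∧ I p l := by
      rintro l ⟨hl, hxl⟩
      obtain ⟨p, hp, hpl⟩ := ext_line h s hx hxl
      refine ⟨p, ⟨hp, fun g hg => ?_⟩, hpl⟩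
      have e3 : I (g.1 p) l := by
        have := ((hH g hg).1 p l).2 hpl
        rwa [hl g hg] at this
      exact s.one (fun hlT => hx l hlT hxl) (((hH g hg).2.s p).2 hp) hp e3 hpl
    have : Nonempty P := ⟨x⟩
    choose! φ hφ using ex
    refine Set.ncard_le_ncard_of_injOn φ ?_ ?_ (Set.toFinite _)
    · intro l hl
      exact (hφ l hl).1
    · intro l hl l' hl' e
      have e3 := (hφ l hl).2
      have e4 := (hφ l' hl').2
      rw [← e] at e4
      rcases h.uniq (φ l) x l l' e3 hl.2 e4 hl'.2 with e5 | e5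
      · exact absurd (e5 ▸ (hφ l hl).1.1) hxS
      · exact e5
  rw [sk.cS, sf.ln x hxF] at e1 e2
  omega

/-- inheritance: no fixed exterior point -/
theorem inherit2 [Finite P] [Finite L] (h : Plane I (m ^ 2 + m)) (s : Sub I S T m)
    {H : Set (Equiv.Perm P × Equiv.Perm L)} (hH : ∀ g ∈ H, Col I g ∧ Pres S T g)
    (sk : Sub I (S ∩ FPs H) (T ∩ FLs H) k) (sf : Sub I (FPs H) (FLs H) f)
    (hno : ∀ x, Ext I T x → x ∉ FPs H) : f = k ∨ f = k ^ 2 := by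
  classical
  have fP := Fintype.ofFinite P
  have fL := Fintype.ofFinite L
  have hkf : k ≤ f := by
    have e := Set.ncard_le_ncard (Set.inter_subset_right (s := S) (t := FPs H)) (Set.toFinite _)
    rw [sk.cS, sf.cS] at e
    by_contra hlt
    push Not at hlt
    nlinarith
  set A : Finset P := Finset.univ.filter (fun p => p ∈ FPs H ∧ p ∉ S) with hA
  set B : Finset L := Finset.univ.filter (fun l => l ∈ T ∩ FLs H) with hB
  have ex : ∀ p, p ∈ FPs H ∧ p ∉ S → ∃ l, l ∈ T ∧ I p l := by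
    rintro p ⟨hp, -⟩
    by_contra hcon
    push Not at hcon
    exact hno p (fun l hl hpl => hcon l hl hpl) hp
  obtain ⟨l0, -, -⟩ := sf.ex_two
  have : Nonempty L := ⟨l0⟩
  choose! φ hφ using ex
  have hmaps : ∀ p ∈ A, φ p ∈ B := by
    intro p hp
    rw [hA, Finset.mem_filter] at hp
    rw [hB, Finset.mem_filter]
    refine ⟨Finset.mem_univ _, (hφ p hp.2).1, fun g hg => ?_⟩
    have e1 : I p (g.2 (φ p)) := by
      have := ((hH g hg).1 p (φ p)).2 (hφ p hp.2).2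
      rwa [hp.2.1 g hg] at this
    exact s.one' hp.2.2 (((hH g hg).2.t _).2 (hφ p hp.2).1) (hφ p hp.2).1 e1 (hφ p hp.2).2
  have hsum := Finset.card_eq_sum_card_fiberwise hmaps
  have hfib : ∀ l ∈ B, (A.filter (fun p => φ p = l)).card = f - k := by
    intro l hl
    rw [hB, Finset.mem_filter] at hl
    have e1 : ((A.filter (fun p => φ p = l) : Finset P) : Set P) =
        {p | p ∈ FPs H ∧ I p l} \ {p | p ∈ S ∩ FPs H ∧ I p l} := by
      ext p
      simp only [Finset.coe_filter, Set.mem_ofPred_eq, Set.mem_sdiff, hA, Finset.mem_filter,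
        Finset.mem_univ, true_and]
      constructor
      · rintro ⟨⟨h1, h2⟩, rfl⟩
        exact ⟨⟨h1, (hφ p ⟨h1, h2⟩).2⟩, fun h3 => h2 h3.1.1⟩
      · rintro ⟨⟨h1, h2⟩, h3⟩
        have h4 : p ∉ S := fun h5 => h3 ⟨⟨h5, h1⟩, h2⟩
        exact ⟨⟨h1, h4⟩, s.one' h4 (hφ p ⟨h1, h4⟩).1 hl.2.1 (hφ p ⟨h1, h4⟩).2 h2⟩
    have e2 : {p | p ∈ S ∩ FPs H ∧ I p l} ⊆ {p | p ∈ FPs H ∧ I p l} :=
      fun p hp => ⟨hp.1.2, hp.2⟩
    rw [← Set.ncard_coe_finset, e1, Set.ncard_sdiff e2 (Set.toFinite _), sf.pt l hl.2.2,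
      sk.pt l hl.2]
    omega
  rw [Finset.sum_congr rfl hfib, Finset.sum_const, smul_eq_mul] at hsum
  have hBc : B.card = k ^ 2 + k + 1 := by
    rw [← sk.cT, ← Set.ncard_coe_finset]
    congr 1
    ext l
    simp [hB]
  have hAc : A.card + (k ^ 2 + k + 1) = f ^ 2 + f + 1 := by
    have e1 : ((A : Finset P) : Set P) = FPs H \ (S ∩ FPs H) := by
      ext p
      simp only [hA, Finset.coe_filter, Finset.mem_univ, true_and, Set.mem_ofPred_eq,
        Set.mem_sdiff, Set.mem_inter_iff]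
      tauto
    rw [← Set.ncard_coe_finset, e1, ← sk.cS, ← sf.cS]
    exact Set.ncard_sdiff_add_ncard_of_subset Set.inter_subset_right (Set.toFinite _)
  rw [hBc] at hsum
  obtain ⟨d, rfl⟩ := Nat.exists_eq_add_of_le hkf
  rw [Nat.add_sub_cancel_left] at hsum
  rw [hsum] at hAc
  rcases Nat.eq_zero_or_pos d with hd | hd
  · left; omega
  · right
    have e1 : d * (k ^ 2 + k + 1) = d * (2 * k + d + 1) := by nlinarith
    have e2 := Nat.eq_of_mul_eq_mul_left hd e1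
    nlinarith

/-- number of exterior points -/
theorem card_ext [Finite P] [Finite L] (h : Plane I (m ^ 2 + m)) (s : Sub I S T m) :
    {x | Ext I T x}.ncard = m ^ 3 := by
  classical
  have fP := Fintype.ofFinite P
  have fL := Fintype.ofFinite L
  obtain ⟨c, hc⟩ := s.ex_pt
  set A : Finset P := Finset.univ.filter (fun p => Ext I T p) with hA
  set B : Finset L := Finset.univ.filter (fun l => l ∉ T ∧ I c l) with hB
  have ex : ∀ p, Ext I T p → ∃ l, I p l ∧ I c l := fun p hp =>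
    h.join p c (by rintro rfl; exact hp.notMem s hc)
  obtain ⟨l0, -, -⟩ := s.ex_two
  have : Nonempty L := ⟨l0⟩
  choose! φ hφ using ex
  have hmaps : ∀ p ∈ A, φ p ∈ B := by
    intro p hp
    rw [hA, Finset.mem_filter] at hp
    rw [hB, Finset.mem_filter]
    exact ⟨Finset.mem_univ _, fun hT => hp.2 _ hT (hφ p hp.2).1, (hφ p hp.2).2⟩
  have hsum := Finset.card_eq_sum_card_fiberwise hmaps
  have hfib : ∀ l ∈ B, (A.filter (fun p => φ p = l)).card = m := by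
    intro l hl
    rw [hB, Finset.mem_filter] at hl
    rw [← tangent_ext h s hc hl.2.1 hl.2.2, ← Set.ncard_coe_finset]
    congr 1
    ext p
    simp only [Finset.coe_filter, Set.mem_ofPred_eq, hA, Finset.mem_filter, Finset.mem_univ,
      true_and]
    constructor
    · rintro ⟨h1, rfl⟩
      exact ⟨(hφ p h1).1, h1⟩
    · rintro ⟨h1, h2⟩
      refine ⟨h2, ?_⟩
      rcases h.uniq p c (φ p) l (hφ p h2).1 (hφ p h2).2 h1 hl.2.2 with e | e
      · exact absurd (e ▸ hc) (h2.notMem s)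
      · exact e
  rw [Finset.sum_congr rfl hfib, Finset.sum_const, smul_eq_mul] at hsum
  have hBc : B.card = m ^ 2 := by
    have e1 : ((B : Finset L) : Set L) = {l | I c l} \ {l | l ∈ T ∧ I c l} := by
      ext l
      simp only [hB, Finset.coe_filter, Finset.mem_univ, true_and, Set.mem_ofPred_eq,
        Set.mem_sdiff]
      tauto
    have e2 : {l | l ∈ T ∧ I c l} ⊆ {l | I c l} := fun l hl => hl.2
    rw [← Set.ncard_coe_finset, e1, Set.ncard_sdiff e2 (Set.toFinite _), h.lns, s.ln c hc]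
    omega
  have hAc : A.card = {x | Ext I T x}.ncard := by
    rw [← Set.ncard_coe_finset]
    congr 1
    ext p
    simp [hA]
  rw [← hAc, hsum, hBc]
  ring

/-- a quadrangle from two lines with two extra points each -/
theorem quad_of (h : Plane I n) {l1 l2 : L} {o b1 c1 b2 c2 : P} (h12 : l1 ≠ l2) (ho1 : I o l1)
    (ho2 : I o l2) (hb1 : I b1 l1) (hc1 : I c1 l1) (hb2 : I b2 l2) (hc2 : I c2 l2)
    (hbc1 : b1 ≠ c1) (hbo1 : b1 ≠ o) (hco1 : c1 ≠ o) (hbc2 : b2 ≠ c2) (hbo2 : b2 ≠ o)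
    (hco2 : c2 ≠ o) :
      (∀ l, I b1 l → I c1 l → ¬ I b2 l) ∧ (∀ l, I b1 l → I c1 l → ¬ I c2 l) ∧
      (∀ l, I b1 l → I b2 l → ¬ I c2 l) ∧ (∀ l, I c1 l → I b2 l → ¬ I c2 l) := by
  have off1 : ∀ x, x ≠ o → I x l1 → ¬ I x l2 := by
    intro x hx e1 e2
    rcases h.uniq x o l1 l2 e1 ho1 e2 ho2 with e | e
    · exact hx e
    · exact h12 e
  refine ⟨?_, ?_, ?_, ?_⟩
  · intro l e1 e2 e3
    rcases h.uniq b1 c1 l l1 e1 e2 hb1 hc1 with e | e
    · exact hbc1 e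
    · subst e
      exact off1 b2 hbo2 e3 hb2
  · intro l e1 e2 e3
    rcases h.uniq b1 c1 l l1 e1 e2 hb1 hc1 with e | e
    · exact hbc1 e
    · subst e
      exact off1 c2 hco2 e3 hc2
  · intro l e1 e2 e3
    rcases h.uniq b2 c2 l l2 e2 e3 hb2 hc2 with e | e
    · exact hbc2 e
    · subst e
      exact off1 b1 hbo1 hb1 e1
  · intro l e1 e2 e3
    rcases h.uniq b2 c2 l l2 e2 e3 hb2 hc2 with e | e
    · exact hbc2 e
    · subst e
      exact off1 c1 hco1 hc1 e1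

/-- a collineation of prime order `r ∤ m(m²-1)(m²+m+1)` fixes a quadrangle of the subplane and an
exterior point -/
theorem prime_quad [Finite P] [Finite L] (h : Plane I (m ^ 2 + m)) (s : Sub I S T m)
    {g : Equiv.Perm P × Equiv.Perm L} (hg : Col I g) (hp : Pres S T g) {r : ℕ} (hr : r.Prime)
    (hgr : g ^ r = 1) (h0 : ¬ r ∣ m) (h1 : ¬ r ∣ m + 1) (h2 : ¬ r ∣ m - 1)
    (h3 : ¬ r ∣ m ^ 2 + m + 1) :
    (∃ x, Ext I T x ∧ g.1 x = x) ∧
    ∃ a ∈ S, ∃ b ∈ S, ∃ c ∈ S, ∃ d ∈ S, g.1 a = a ∧ g.1 b = b ∧ g.1 c = c ∧ g.1 d = d ∧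
      (∀ l, I a l → I b l → ¬ I c l) ∧ (∀ l, I a l → I b l → ¬ I d l) ∧
      (∀ l, I a l → I c l → ¬ I d l) ∧ (∀ l, I b l → I c l → ¬ I d l) := by
  classical
  have hm := s.two
  have hσ : g.1 ^ r = 1 := by
    have := congrArg Prod.fst hgr
    simpa using this
  have hτ : g.2 ^ r = 1 := by
    have := congrArg Prod.snd hgr
    simpa using this
  constructor
  · have c1 := modfix g.1 {x | Ext I T x} (fun x => ⟨fun hx => by
      have := hp.inv.ext hg.inv hx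
      simpa using this, fun hx => hp.ext hg hx⟩) r hr hσ
    rw [card_ext h s] at c1
    by_contra hcon
    push Not at hcon
    have e : {x | x ∈ {x | Ext I T x} ∧ g.1 x = x} = ∅ := by
      ext x
      simp only [Set.mem_ofPred_eq, Set.mem_empty_iff_false, iff_false]
      rintro ⟨h4, h5⟩
      exact hcon x h4 h5
    rw [e, Set.ncard_empty] at c1
    exact h0 (hr.dvd_of_dvd_pow ((Nat.modEq_zero_iff_dvd).1 c1.symm))
  -- counting modulo r: a set of m+1 elements has at least 3 fixed points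
  have cnt : ∀ c : ℕ, c ≡ m + 1 [MOD r] → 3 ≤ c := by
    intro c hc
    by_contra hlt
    have hc3 : c = 0 ∨ c = 1 ∨ c = 2 := by omega
    rcases hc3 with rfl | rfl | rfl
    · exact h1 ((Nat.modEq_zero_iff_dvd).1 hc.symm)
    · have : r ∣ m + 1 - 1 := (Nat.modEq_iff_dvd' (by omega)).1 hc
      exact h0 (by simpa using this)
    · have : r ∣ m + 1 - 2 := (Nat.modEq_iff_dvd' (by omega)).1 hc
      exact h2 (by
        have e : m + 1 - 2 = m - 1 := by omega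
        rwa [e] at this)
  obtain ⟨o, ho, fo⟩ : ∃ o ∈ S, g.1 o = o := by
    have c1 := modfix g.1 S hp.s r hr hσ
    rw [s.cS] at c1
    by_contra hcon
    push Not at hcon
    have e : {x | x ∈ S ∧ g.1 x = x} = ∅ := by
      ext x
      simp only [Set.mem_ofPred_eq, Set.mem_empty_iff_false, iff_false]
      rintro ⟨h4, h5⟩
      exact hcon x h4 h5
    rw [e, Set.ncard_empty] at c1
    exact h3 ((Nat.modEq_zero_iff_dvd).1 c1.symm)
  obtain ⟨l1, l2, hl1, hl2, h12⟩ : ∃ l1 l2, (l1 ∈ T ∧ I o l1 ∧ g.2 l1 = l1) ∧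
      (l2 ∈ T ∧ I o l2 ∧ g.2 l2 = l2) ∧ l1 ≠ l2 := by
    have c1 := modfix g.2 {l | l ∈ T ∧ I o l} (fun l => by
      have e := hg o l
      rw [fo] at e
      simp only [Set.mem_ofPred_eq]
      rw [hp.t, e]) r hr hτ
    rw [s.ln o ho] at c1
    have c2 := cnt _ c1
    obtain ⟨l1, l2, e1, e2, e3⟩ := (Set.one_lt_ncard_iff).1 (by omega :
      1 < {x | x ∈ {l | l ∈ T ∧ I o l} ∧ g.2 x = x}.ncard)
    exact ⟨l1, l2, ⟨e1.1.1, e1.1.2, e1.2⟩, ⟨e2.1.1, e2.1.2, e2.2⟩, e3⟩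
  have two : ∀ l, l ∈ T → g.2 l = l → ∃ b c, b ∈ S ∧ c ∈ S ∧ b ≠ c ∧ b ≠ o ∧ c ≠ o ∧ I b l ∧
      I c l ∧ g.1 b = b ∧ g.1 c = c := by
    intro l hl fl
    have c1 := modfix g.1 {p | p ∈ S ∧ I p l} (fun p => by
      have e := hg p l
      rw [fl] at e
      simp only [Set.mem_ofPred_eq]
      rw [hp.s, e]) r hr hσ
    rw [s.pt l hl] at c1
    have c2 := cnt _ c1
    have c3 := Set.le_ncard_sdiff ({o} : Set P) {x | x ∈ {p | p ∈ S ∧ I p l} ∧ g.1 x = x}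
      (Set.toFinite _)
    rw [Set.ncard_singleton] at c3
    obtain ⟨b, c, hb, hc, hbc⟩ := (Set.one_lt_ncard_iff).1 (by omega :
      1 < ({x | x ∈ {p | p ∈ S ∧ I p l} ∧ g.1 x = x} \ {o}).ncard)
    exact ⟨b, c, hb.1.1.1, hc.1.1.1, hbc, hb.2, hc.2, hb.1.1.2, hc.1.1.2, hb.1.2, hc.1.2⟩
  obtain ⟨b1, c1, hb1, hc1, hbc1, hbo1, hco1, ib1, ic1, fb1, fc1⟩ := two l1 hl1.1 hl1.2.2
  obtain ⟨b2, c2, hb2, hc2, hbc2, hbo2, hco2, ib2, ic2, fb2, fc2⟩ := two l2 hl2.1 hl2.2.2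
  exact ⟨b1, hb1, c1, hc1, b2, hb2, c2, hc2, fb1, fc1, fb2, fc2,
    quad_of h h12 hl1.2.1 hl2.2.1 ib1 ic1 ib2 ic2 hbc1 hbo1 hco1 hbc2 hbo2 hco2⟩

end Pool.Agent.BB
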