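import Pool.Agent.Lib.MP_bbcd91_co.A7

set_option autoImplicit false

namespace Pool.Agent.BB

open Configuration

/-- The points `S` and the lines `T` form a subplane of order `m` of the plane `(P, L)`. -/
structure IsSubplane {P L : Type*} [Membership P L] (m : ℕ) (S : Set P) (T : Set L) : Prop where
  join : ∀ p ∈ S, ∀ q ∈ S, p ≠ q → ∃ l ∈ T, p ∈ l ∧ q ∈ l
  meet : ∀ l ∈ T, ∀ l' ∈ T, l ≠ l' → ∃ p ∈ S, p ∈ l ∧ p ∈ l'
  quad : ∃ a ∈ S, ∃ b ∈ S, ∃ c ∈ S, ∃ d ∈ S,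
        (¬ ∃ l : L, a ∈ l ∧ b ∈ l ∧ c ∈ l) ∧
        (¬ ∃ l : L, a ∈ l ∧ b ∈ l ∧ d ∈ l) ∧
        (¬ ∃ l : L, a ∈ l ∧ c ∈ l ∧ d ∈ l) ∧
        (¬ ∃ l : L, b ∈ l ∧ c ∈ l ∧ d ∈ l)
  card : ∀ l ∈ T, Set.ncard {p : P | p ∈ S ∧ p ∈ l} = m + 1

/-- Question Q1 has a positive answer for the order `m`: a finite projective plane of order
`m^2+m` has a subplane of order `m`. -/
def Extremal (m : ℕ) : Prop :=
  ∃ (P L : Type) (_ : Membership P L) (_ : ProjectivePlane P L) (_ : Finite P) (S : Set P)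
    (T : Set L), ProjectivePlane.order P L = m ^ 2 + m ∧ IsSubplane m S T

section
variable {P L : Type} {I : P → L → Prop} {m : ℕ} {S : Set P} {T : Set L}

theorem extremal_of [Finite P] [Finite L] (h : Plane I (m ^ 2 + m))
    {H : Set (Equiv.Perm P × Equiv.Perm L)} {k : ℕ}
    (sk : Sub I (S ∩ FPs H) (T ∩ FLs H) k) (sf : Sub I (FPs H) (FLs H) (k ^ 2 + k))
    {a b c d : P} (ha : a ∈ S ∩ FPs H) (hb : b ∈ S ∩ FPs H) (hc : c ∈ S ∩ FPs H)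
    (hd : d ∈ S ∩ FPs H)
    (h1 : ∀ l, I a l → I b l → ¬ I c l) (h2 : ∀ l, I a l → I b l → ¬ I d l)
    (h3 : ∀ l, I a l → I c l → ¬ I d l) (h4 : ∀ l, I b l → I c l → ¬ I d l) : Extremal k := by
  obtain ⟨M, inst, memdef⟩ := exists_inst h sf.jn sf.mt ha.2 hb.2 hc.2 hd.2 h1 h2 h3 h4
  refine ⟨FPs H, FLs H, M, inst, inferInstance, {p | (p : P) ∈ S}, {l | (l : L) ∈ T}, ?_, ?_⟩
  · have pl : Plane (fun (p : FPs H) (l : FLs H) => p ∈ l)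
        (ProjectivePlane.order (FPs H) (FLs H)) := plane_of
    have e1 := pl.cp
    rw [Nat.card_coe_set_eq, sf.cS] at e1
    nlinarith
  · constructor
    · intro p hp q hq hpq
      have hpq' : (p : P) ≠ q := fun e => hpq (Subtype.ext e)
      obtain ⟨l, e1, e2⟩ := h.join p q hpq'
      have e3 := sk.jn p ⟨hp, p.2⟩ q ⟨hq, q.2⟩ hpq' l e1 e2
      exact ⟨⟨l, e3.2⟩, e3.1, (memdef _ _).2 e1, (memdef _ _).2 e2⟩
    · intro l hl l' hl' hll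
      have hll' : (l : L) ≠ l' := fun e => hll (Subtype.ext e)
      obtain ⟨p, e1, e2⟩ := h.meet l l' hll'
      have e3 := sk.mt l ⟨hl, l.2⟩ l' ⟨hl', l'.2⟩ hll' p e1 e2
      exact ⟨⟨p, e3.2⟩, e3.1, (memdef _ _).2 e1, (memdef _ _).2 e2⟩
    · refine ⟨⟨a, ha.2⟩, ha.1, ⟨b, hb.2⟩, hb.1, ⟨c, hc.2⟩, hc.1, ⟨d, hd.2⟩, hd.1, ?_, ?_, ?_, ?_⟩
      · rintro ⟨l, e1, e2, e3⟩
        exact h1 l ((memdef _ _).1 e1) ((memdef _ _).1 e2) ((memdef _ _).1 e3)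
      · rintro ⟨l, e1, e2, e3⟩
        exact h2 l ((memdef _ _).1 e1) ((memdef _ _).1 e2) ((memdef _ _).1 e3)
      · rintro ⟨l, e1, e2, e3⟩
        exact h3 l ((memdef _ _).1 e1) ((memdef _ _).1 e2) ((memdef _ _).1 e3)
      · rintro ⟨l, e1, e2, e3⟩
        exact h4 l ((memdef _ _).1 e1) ((memdef _ _).1 e2) ((memdef _ _).1 e3)
    · intro l hl
      rw [← sk.pt l ⟨hl, l.2⟩, ← Set.ncard_image_of_injective _ Subtype.val_injective]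
      congr 1
      ext p
      simp only [Set.mem_image, Set.mem_ofPred_eq]
      constructor
      · rintro ⟨q, ⟨e1, e2⟩, rfl⟩
        exact ⟨⟨e1, q.2⟩, (memdef _ _).1 e2⟩
      · rintro ⟨e1, e2⟩
        exact ⟨⟨p, e1.2⟩, ⟨e1.1, (memdef _ _).2 e2⟩, rfl⟩

theorem core [Finite P] [Finite L] (h : Plane I (m ^ 2 + m)) (s : Sub I S T m)
    {H : Set (Equiv.Perm P × Equiv.Perm L)} (hH : ∀ g ∈ H, Col I g ∧ Pres S T g)
    (hne : ∃ g ∈ H, g ≠ 1)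
    {a b c d : P} (ha : a ∈ S ∩ FPs H) (hb : b ∈ S ∩ FPs H) (hc : c ∈ S ∩ FPs H)
    (hd : d ∈ S ∩ FPs H)
    (h1 : ∀ l, I a l → I b l → ¬ I c l) (h2 : ∀ l, I a l → I b l → ¬ I d l)
    (h3 : ∀ l, I a l → I c l → ¬ I d l) (h4 : ∀ l, I b l → I c l → ¬ I d l) :
    ∃ k f, k < m ∧ Sub I (S ∩ FPs H) (T ∩ FLs H) k ∧ Sub I (FPs H) (FLs H) f ∧
      (f = k ∨ f = k ^ 2 ∨ f = k ^ 2 + k) ∧
      ((∃ x, Ext I T x ∧ x ∈ FPs H) → f = k ^ 2 + k ∧ Extremal k) := by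
  have hH' : ∀ g ∈ H, Col I g := fun g hg => (hH g hg).1
  obtain ⟨k, sk⟩ := sub_of_quad h (sub_jn h s hH') (sub_mt h s hH') ha hb hc hd h1 h2 h3 h4
  obtain ⟨f, sf⟩ := sub_of_quad h (fps_jn h hH') (fps_mt h hH') ha.2 hb.2 hc.2 hd.2 h1 h2 h3 h4
  have hex : (∃ x, Ext I T x ∧ x ∈ FPs H) → f = k ^ 2 + k :=
    fun ⟨x, hx, hxF⟩ => inherit1 h s hH sk sf hx hxF
  refine ⟨k, f, ?_, sk, sf, ?_, fun hx => ⟨hex hx, ?_⟩⟩
  · by_contra hlt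
    push Not at hlt
    obtain ⟨g, hg, hg1⟩ := hne
    apply hg1
    refine faithful h s (hH g hg).1 (fun p hp => ?_)
    have e1 : S ∩ FPs H = S := by
      refine Set.eq_of_subset_of_ncard_le Set.inter_subset_left ?_ (Set.toFinite _)
      rw [sk.cS, s.cS]
      nlinarith
    have e2 : p ∈ S ∩ FPs H := by rw [e1]; exact hp
    exact e2.2 g hg
  · by_cases hx : ∃ x, Ext I T x ∧ x ∈ FPs H
    · exact Or.inr (Or.inr (hex hx))
    · push Not at hx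
      rcases inherit2 h s hH sk sf hx with e | e
      · exact Or.inl e
      · exact Or.inr (Or.inl e)
  · have e := hex hx
    subst e
    exact extremal_of h sk sf ha hb hc hd h1 h2 h3 h4

end

/-- The fixed elements of a subgroup fixing a quadrangle of the subplane. -/
theorem fixed_elements {P L : Type} [Membership P L] [ProjectivePlane P L] [Finite P] (m : ℕ)
    (S : Set P) (T : Set L) (hn : ProjectivePlane.order P L = m ^ 2 + m) (hS : IsSubplane m S T)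
    (G : Subgroup (Equiv.Perm P))
    (hcol : ∀ g ∈ G, ∃ τ : Equiv.Perm L, ∀ p l, g p ∈ τ l ↔ p ∈ l)
    (hinv : ∀ g ∈ G, ∀ p ∈ S, g p ∈ S) :
    ∀ H ≤ G, H ≠ ⊥ → ∀ a ∈ S, ∀ b ∈ S, ∀ c ∈ S, ∀ d ∈ S,
      (∀ g ∈ H, g a = a ∧ g b = b ∧ g c = c ∧ g d = d) →
      (∀ l : L, a ∈ l → b ∈ l → ¬ c ∈ l) → (∀ l : L, a ∈ l → b ∈ l → ¬ d ∈ l) →
      (∀ l : L, a ∈ l → c ∈ l → ¬ d ∈ l) → (∀ l : L, b ∈ l → c ∈ l → ¬ d ∈ l) →
      ∃ k f : ℕ, k < m ∧ (f = k ∨ f = k ^ 2 ∨ f = k ^ 2 + k) ∧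
        Set.ncard {p | p ∈ S ∧ ∀ g ∈ H, g p = p} = k ^ 2 + k + 1 ∧
        Set.ncard {p | ∀ g ∈ H, g p = p} = f ^ 2 + f + 1 ∧
        ((∃ x : P, (∀ l ∈ T, x ∉ l) ∧ ∀ g ∈ H, g x = x) → f = k ^ 2 + k ∧ Extremal k) := by
  have hL : Finite L := finite_lines (P := P) (L := L)
  have h : Plane (fun (p : P) (l : L) => p ∈ l) (m ^ 2 + m) := by
    rw [← hn]
    exact plane_of
  have s : Sub (fun (p : P) (l : L) => p ∈ l) S T m := sub_of hS.join hS.meet hS.quad hS.card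
  intro H hHG hH1 a ha b hb c hc d hd hfix q1 q2 q3 q4
  have hF : FPs ((lift (fun (p : P) (l : L) => p ∈ l) H : Subgroup _) :
      Set (Equiv.Perm P × Equiv.Perm L)) = {p | ∀ g ∈ H, g p = p} := by
    ext p
    constructor
    · intro hp g hg
      obtain ⟨τ, hτ⟩ := hcol g (hHG hg)
      exact hp (g, τ) ⟨hg, fun p l => hτ p l⟩
    · intro hp g hg
      exact hp g.1 hg.1
  have hH' : ∀ g ∈ ((lift (fun (p : P) (l : L) => p ∈ l) H : Subgroup _) :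
      Set (Equiv.Perm P × Equiv.Perm L)),
      Col (fun (p : P) (l : L) => p ∈ l) g ∧ Pres S T g := fun g hg =>
    pres_lift s (fun g hg => hinv g (hHG hg)) hg
  have hne : ∃ g ∈ ((lift (fun (p : P) (l : L) => p ∈ l) H : Subgroup _) :
      Set (Equiv.Perm P × Equiv.Perm L)), g ≠ 1 := by
    obtain ⟨⟨g, hg⟩, hg2⟩ := Subgroup.ne_bot_iff_exists_ne_one.1 hH1
    have hg1 : g ≠ 1 := fun e => hg2 (Subtype.ext e)
    obtain ⟨τ, hτ⟩ := hcol g (hHG hg)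
    exact ⟨(g, τ), ⟨hg, fun p l => hτ p l⟩, fun e => hg1 (congrArg Prod.fst e)⟩
  have mem : ∀ p ∈ S, (∀ g ∈ H, g p = p) → p ∈ S ∩ FPs ((lift (fun (p : P) (l : L) => p ∈ l) H :
      Subgroup _) : Set (Equiv.Perm P × Equiv.Perm L)) := by
    intro p hp hpf
    rw [hF]
    exact ⟨hp, hpf⟩
  obtain ⟨k, f, hk, sk, sf, hkf, hex⟩ := core h s hH' hne (mem a ha fun g hg => (hfix g hg).1)
    (mem b hb fun g hg => (hfix g hg).2.1) (mem c hc fun g hg => (hfix g hg).2.2.1)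
    (mem d hd fun g hg => (hfix g hg).2.2.2) q1 q2 q3 q4
  refine ⟨k, f, hk, hkf, ?_, ?_, ?_⟩
  · rw [← sk.cS, hF]
    rfl
  · rw [← sf.cS, hF]
  · rintro ⟨x, hx, hxf⟩
    refine hex ⟨x, hx, ?_⟩
    rw [hF]
    exact hxf

end Pool.Agent.BB
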