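import Pool.Agent.Lib.MP_bbcd91_co.A7

set_option autoImplicit false

namespace Pool.Agent.BB

variable {P L : Type*} {I : P → L → Prop} {m n : ℕ} {S : Set P} {T : Set L}

/-- `t` is an involution, an elation with centre `c` and axis `a` -/
structure Flag (I : P → L → Prop) (S : Set P) (T : Set L) (t : Equiv.Perm P × Equiv.Perm L)
    (c : P) (a : L) : Prop where
  ne : t ≠ 1
  sq : t * t = 1
  cS : c ∈ S
  aT : a ∈ T
  ca : I c a
  ax : Ax I t a
  cen : Cen I t c
  off : ∀ p, t.1 p = p → I p a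

theorem exists_flag [Finite P] [Finite L] (h : Plane I (m ^ 2 + m)) (s : Sub I S T m)
    {t : Equiv.Perm P × Equiv.Perm L} (hg : Col I t) (hp : Pres S T t) (hne : t ≠ 1)
    (hinv : t * t = 1) : ∃ c a, Flag I S T t c a := by
  obtain ⟨a, haT, c, hc, hca, hax, hcen, hoff⟩ := inv_elation h s hg hp hne hinv
  exact ⟨c, a, hne, hinv, hc, haT, hca, hax, hcen, hoff⟩

theorem Flag.cen_eq (h : Plane I n) {t : Equiv.Perm P × Equiv.Perm L} (hg : Col I t) {c c' : P}
    {a : L} (f : Flag I S T t c a) (h' : Cen I t c') : c' = c := by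
  by_contra e
  exact f.ne (two_cen h hg h' f.cen e)

theorem Flag.ax_eq (h : Plane I n) {t : Equiv.Perm P × Equiv.Perm L} (hg : Col I t) {c : P}
    {a a' : L} (f : Flag I S T t c a) (h' : Ax I t a') : a' = a := by
  by_contra e
  exact f.ne (two_ax h hg h' f.ax e)

/-- fixed lines pass through the centre -/
theorem Flag.fixed_line (h : Plane I n) {t : Equiv.Perm P × Equiv.Perm L} (hg : Col I t) {c : P}
    {a : L} (f : Flag I S T t c a) {l : L} (hl : t.2 l = l) : I c l := by
  by_contra e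
  have h1 := ax_of h hg f.cen hl e
  have h2 := f.ax_eq h hg h1
  exact e (h2 ▸ f.ca)

theorem Flag.conj {t k : Equiv.Perm P × Equiv.Perm L} (hk : Col I k)
    (hpk : Pres S T k) {c : P} {a : L} (f : Flag I S T t c a) :
    Flag I S T (k * t * k⁻¹) (k.1 c) (k.2 a) := by
  refine ⟨?_, ?_, (hpk.s c).2 f.cS, (hpk.t a).2 f.aT, (hk c a).2 f.ca, ?_, ?_, ?_⟩
  · intro e
    apply f.ne
    have := congrArg (fun z => k⁻¹ * z * k) e
    simpa [mul_assoc] using this
  · have : k * t * k⁻¹ * (k * t * k⁻¹) = k * (t * t) * k⁻¹ := by group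
    rw [this, f.sq]
    group
  · intro p hp
    show k.1 (t.1 (k.1⁻¹ p)) = p
    have h1 : I (k.1⁻¹ p) a := by
      rw [← hk]
      simpa using hp
    rw [f.ax _ h1]
    simp
  · intro l hl
    show k.2 (t.2 (k.2⁻¹ l)) = l
    have h1 : I c (k.2⁻¹ l) := by
      rw [← hk]
      simpa using hl
    rw [f.cen _ h1]
    simp
  · intro p hp
    have hp' : k.1 (t.1 (k.1⁻¹ p)) = p := hp
    have h1 : t.1 (k.1⁻¹ p) = k.1⁻¹ p := by
      have := congrArg (fun z => k.1⁻¹ z) hp'
      simpa using this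
    have h2 := f.off _ h1
    rw [← hk] at h2
    simpa using h2

/-- a collineation commuting with an elation fixes its centre -/
theorem Flag.comm_cen (h : Plane I n) {t w : Equiv.Perm P × Equiv.Perm L} (ht : Col I t)
    (hw : Col I w) {c : P} {a : L} (f : Flag I S T t c a) (hc : w * t = t * w) : w.1 c = c := by
  refine f.cen_eq h ht ?_
  intro l hl
  have h1 : I c (w.2⁻¹ l) := by
    rw [← hw]
    simpa using hl
  have h2 := f.cen _ h1
  have h3 : w.2 (t.2 (w.2⁻¹ l)) = t.2 (w.2 (w.2⁻¹ l)) := congrArg (fun z => z.2 (w.2⁻¹ l)) hc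
  rw [h2] at h3
  simpa using h3.symm

/-- a collineation commuting with an elation fixes its axis -/
theorem Flag.comm_ax (h : Plane I n) {t w : Equiv.Perm P × Equiv.Perm L} (ht : Col I t)
    (hw : Col I w) {c : P} {a : L} (f : Flag I S T t c a) (hc : w * t = t * w) : w.2 a = a := by
  refine f.ax_eq h ht ?_
  intro p hp
  have h1 : I (w.1⁻¹ p) a := by
    rw [← hw]
    simpa using hp
  have h2 := f.ax _ h1
  have h3 : w.1 (t.1 (w.1⁻¹ p)) = t.1 (w.1 (w.1⁻¹ p)) := congrArg (fun z => z.1 (w.1⁻¹ p)) hc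
  rw [h2] at h3
  simpa using h3.symm

theorem pow_fix {g : Equiv.Perm P × Equiv.Perm L} (k : ℕ) {x : P} (hx : g.1 x = x) :
    (g ^ k).1 x = x := by
  induction k with
  | zero => rfl
  | succ k ih =>
    rw [pow_succ]
    show (g ^ k).1 (g.1 x) = x
    rw [hx, ih]

theorem pow_fixL {g : Equiv.Perm P × Equiv.Perm L} (k : ℕ) {x : L} (hx : g.2 x = x) :
    (g ^ k).2 x = x := by
  induction k with
  | zero => rfl
  | succ k ih =>
    rw [pow_succ]
    show (g ^ k).2 (g.2 x) = x
    rw [hx, ih]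

/-- Two involutory elations leaving the subplane invariant are never in opposite position. -/
theorem not_opposite [Finite P] [Finite L] (h : Plane I (m ^ 2 + m)) (s : Sub I S T m)
    {t1 t2 : Equiv.Perm P × Equiv.Perm L} (g1 : Col I t1) (p1 : Pres S T t1) (g2 : Col I t2)
    (p2 : Pres S T t2) {c1 c2 : P} {a1 a2 : L} (f1 : Flag I S T t1 c1 a1)
    (f2 : Flag I S T t2 c2 a2) (n12 : ¬ I c1 a2) (n21 : ¬ I c2 a1) : False := by
  classical
  have ha : a1 ≠ a2 := by rintro rfl; exact n12 f1.ca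
  have hcc : c1 ≠ c2 := by rintro rfl; exact n12 f2.ca
  obtain ⟨o, oa1, oa2⟩ := h.meet a1 a2 ha
  obtain ⟨l, c1l, c2l⟩ := h.join c1 c2 hcc
  have oS : o ∈ S := s.mt a1 f1.aT a2 f2.aT ha o oa1 oa2
  have lT : l ∈ T := s.jn c1 f1.cS c2 f2.cS hcc l c1l c2l
  have oc1 : o ≠ c1 := by rintro rfl; exact n12 oa2
  have la1 : l ≠ a1 := by rintro rfl; exact n21 c2l
  have ol : ¬ I o l := by
    intro e
    rcases h.uniq o c1 l a1 e c1l oa1 f1.ca with e' | e'
    · exact oc1 e'
    · exact la1 e'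
  -- the product
  set u := t1 * t2 with hu
  have i1 : t1⁻¹ = t1 := inv_eq_of_mul_eq_one_left f1.sq
  have i2 : t2⁻¹ = t2 := inv_eq_of_mul_eq_one_left f2.sq
  have hu1 : u ≠ 1 := by
    intro e
    have e1 : t1 = t2 := by
      have := mul_eq_one_iff_eq_inv.1 e
      rwa [i2] at this
    subst e1
    exact hcc (f2.cen_eq h g1 f1.cen)
  have hinv1 : t1 * u * t1 = u⁻¹ := by
    rw [hu, mul_inv_rev, i1, i2, ← mul_assoc, f1.sq, one_mul]
  have gu : Col I u := g1.mul g2
  have pu : Pres S T u := p1.mul p2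
  have uo : u.1 o = o := by
    show t1.1 (t2.1 o) = o
    rw [f2.ax o oa2, f1.ax o oa1]
  have ul : u.2 l = l := by
    show t1.2 (t2.2 l) = l
    rw [f2.cen l c2l, f1.cen l c1l]
  have ua1 : u.2 a1 ≠ a1 := by
    intro e
    have e1 : t1.2 (t2.2 a1) = a1 := e
    have e2 : t1.2 a1 = a1 := f1.cen a1 f1.ca
    have e3 : t2.2 a1 = a1 := t1.2.injective (e1.trans e2.symm)
    exact n21 (f2.fixed_line h g2 e3)
  have hou : orderOf u ≠ 1 := fun e => hu1 (orderOf_eq_one_iff.1 e)
  obtain ⟨r, hr, k, hk⟩ := Nat.exists_prime_and_dvd hou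
  have hpos : 0 < orderOf u := orderOf_pos u
  have hkpos : 0 < k := by
    rcases Nat.eq_zero_or_pos k with e | e
    · rw [e, mul_zero] at hk; omega
    · exact e
  set w := u ^ k with hw
  have wr : w ^ r = 1 := by
    rw [hw, ← pow_mul, mul_comm, ← hk]
    exact pow_orderOf_eq_one u
  have w1 : w ≠ 1 := by
    intro e
    have h2 := Nat.le_of_dvd hkpos (orderOf_dvd_of_pow_eq_one e)
    have := hr.one_lt
    nlinarith
  have gw : Col I w := gu.pow k
  have pw : Pres S T w := pu.pow k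
  have wo : w.1 o = o := pow_fix k uo
  have wl : w.2 l = l := pow_fixL k ul
  have wu : w * u = u * w := ((Commute.refl u).pow_left k).eq
  have winv : t1 * w * t1 = w⁻¹ := by
    have e1 : t1 * w * t1 = (t1 * u * t1) ^ k := by
      have : t1 * u * t1 = t1 * u * t1⁻¹ := by rw [i1]
      rw [this, conj_pow, i1]
    rw [e1, hinv1, inv_pow]
  -- w does not fix c1
  have wc1 : w.1 c1 ≠ c1 := by
    intro fc
    have wa1 : w.2 a1 = a1 := fixL h gw oc1 wo fc oa1 f1.ca
    rcases hr.eq_two_or_odd' with r2 | rodd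
    · -- w is an involution commuting with t1 and t2
      subst r2
      have ww : w * w = 1 := by rw [← pow_two]; exact wr
      have wi : w⁻¹ = w := inv_eq_of_mul_eq_one_left ww
      obtain ⟨d, b, f⟩ := exists_flag h s gw pw w1 ww
      have cm1 : w * t1 = t1 * w := by
        have e1 : t1 * (t1 * w * t1) = t1 * w⁻¹ := by rw [winv]
        rw [wi, ← mul_assoc, ← mul_assoc, f1.sq, one_mul] at e1
        exact e1
      have cm2 : w * t2 = t2 * w := by
        have e1 : t2 = t1 * u := by rw [hu, ← mul_assoc, f1.sq, one_mul]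
        have e2 : w * (t1 * u) = t1 * u * w := by
          rw [← mul_assoc w t1 u, cm1, mul_assoc t1 w u, wu, ← mul_assoc t1 u w]
        rwa [← e1] at e2
      have k1 := f.off _ (f1.comm_cen h g1 gw cm1)
      have k2 := f.off _ (f2.comm_cen h g2 gw cm2)
      have k3 := f.off _ wo
      rcases h.uniq c1 c2 b l k1 k2 c1l c2l with e | e
      · exact hcc e
      · exact ol (e ▸ k3)
    · have ax2 : Ax I (w * w) a1 := by
        intro p hp
        have e1 : w * w = w * t1 * w⁻¹ * t1 := by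
          rw [← winv]
          have : w * t1 * (t1 * w * t1) * t1 = w * (t1 * t1) * w * (t1 * t1) := by group
          rw [this, f1.sq, mul_one, mul_one]
        rw [e1]
        show w.1 (t1.1 (w.1⁻¹ (t1.1 p))) = p
        rw [f1.ax p hp]
        have e2 : I (w.1⁻¹ p) a1 := by
          rw [← gw, wa1]
          simpa using hp
        rw [f1.ax _ e2]
        simp
      obtain ⟨j, hj⟩ := rodd
      have ax1 : Ax I w a1 := by
        intro p hp
        have e1 : (w * w) ^ (j + 1) = w := by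
          have : (w * w) ^ (j + 1) = w ^ (2 * j + 1) * w := by
            rw [← pow_two, ← pow_mul, ← pow_succ]
            ring_nf
          rw [this, ← hj, wr, one_mul]
        have e2 := pow_fix (j + 1) (ax2 p hp)
        rwa [e1] at e2
      have ax3 : Ax I w (u.2 a1) := by
        intro p hp
        have e1 : I (u.1⁻¹ p) a1 := by
          rw [← gu]
          simpa using hp
        have e2 := ax1 _ e1
        have e3 : w.1 (u.1 (u.1⁻¹ p)) = u.1 (w.1 (u.1⁻¹ p)) :=
          congrArg (fun z => z.1 (u.1⁻¹ p)) wu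
        rw [e2] at e3
        simpa using e3
      exact w1 (two_ax h gw ax3 ax1 ua1)
  have wa1 : w.2 a1 ≠ a1 := fun e => wc1 (fixP h gw la1 wl e c1l f1.ca)
  -- fixed points of w
  have fixw : ∀ x, w.1 x = x → x = o ∨ I x l := by
    intro x hx
    by_contra hcon
    push Not at hcon
    obtain ⟨xo, xl⟩ := hcon
    have xa1 : ¬ I x a1 := fun e => wa1 (fixL h gw xo hx wo e oa1)
    have tx : t1.1 x ≠ x := fun e => xa1 (f1.off x e)
    have wt : w.1 (t1.1 x) = t1.1 x := by
      have e1 : w * t1 = t1 * w⁻¹ := by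
        rw [← winv, ← mul_assoc, ← mul_assoc, f1.sq, one_mul]
      have e2 : w.1 (t1.1 x) = t1.1 (w.1⁻¹ x) := congrArg (fun z => z.1 x) e1
      rw [e2]
      congr 1
      rw [Equiv.Perm.inv_eq_iff_eq]
      exact hx.symm
    obtain ⟨g, hg1, hg2⟩ := h.join x (t1.1 x) tx.symm
    have wg : w.2 g = g := fixL h gw tx.symm hx wt hg1 hg2
    have tt : t1.1 (t1.1 x) = x := congrArg (fun z => z.1 x) f1.sq
    have tg : t1.2 g = g := by
      have k1 : I (t1.1 x) (t1.2 g) := (g1 x g).2 hg1
      have k2 : I x (t1.2 g) := by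
        have := (g1 (t1.1 x) g).2 hg2
        rwa [tt] at this
      rcases h.uniq x (t1.1 x) (t1.2 g) g k2 k1 hg1 hg2 with e | e
      · exact absurd e.symm tx
      · exact e
    have cg : I c1 g := f1.fixed_line h g1 tg
    have gl : g ≠ l := by rintro rfl; exact xl hg1
    exact wc1 (fixP h gw gl wg wl cg c1l)
  -- counting
  have wr1 : w.1 ^ r = 1 := by
    have := congrArg Prod.fst wr
    simpa using this
  have e1 := modfix w.1 {x | Ext I T x} (fun x => by
    constructor
    · intro hx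
      have := pw.inv.ext gw.inv (x := w.1 x) hx
      have e : (w⁻¹).1 (w.1 x) = x := by
        show w.1⁻¹ (w.1 x) = x
        simp
      rwa [e] at this
    · intro hx
      exact pw.ext gw hx) r hr wr1
  have e2 : {x | x ∈ {x | Ext I T x} ∧ w.1 x = x} = ∅ := by
    ext x
    simp only [Set.mem_ofPred_eq, Set.mem_empty_iff_false, iff_false, not_and]
    intro hx hwx
    rcases fixw x hwx with e | e
    · exact hx.notMem s (e ▸ oS)
    · exact hx l lT e
  rw [e2, Set.ncard_empty, card_ext h s] at e1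
  have rm : r ∣ m := hr.dvd_of_dvd_pow ((Nat.modEq_zero_iff_dvd).1 e1.symm)
  have e3 := modfix w.1 S (fun x => pw.s x) r hr wr1
  have e4 := modfix w.1 {p | p ∈ S ∧ I p l} (fun x => by
    have k1 : I (w.1 x) l ↔ I x l := by
      have := gw x l
      rwa [wl] at this
    simp only [Set.mem_ofPred_eq]
    rw [pw.s, k1]) r hr wr1
  have e5 : {x | x ∈ S ∧ w.1 x = x} = insert o {x | x ∈ {p | p ∈ S ∧ I p l} ∧ w.1 x = x} := by
    ext x
    simp only [Set.mem_ofPred_eq, Set.mem_insert_iff]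
    constructor
    · rintro ⟨hx, hwx⟩
      rcases fixw x hwx with e | e
      · exact Or.inl e
      · exact Or.inr ⟨⟨hx, e⟩, hwx⟩
    · rintro (rfl | ⟨⟨hx, -⟩, hwx⟩)
      · exact ⟨oS, wo⟩
      · exact ⟨hx, hwx⟩
  rw [e5, Set.ncard_insert_of_notMem (fun e => ol e.1.2) (Set.toFinite _), s.cS] at e3
  rw [s.pt l lT] at e4
  have e6 := (e4.symm.add_right 1).trans e3
  obtain ⟨q, hq⟩ := rm
  have e7 : m + 1 + 1 ≡ 2 [MOD r] := by
    have : m + 1 + 1 = 2 + r * q := by omega
    rw [this]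
    simp [Nat.ModEq]
  have e8 : m ^ 2 + m + 1 ≡ 1 [MOD r] := by
    have : m ^ 2 + m + 1 = 1 + r * (q * m + q) := by
      nth_rewrite 2 [hq]
      rw [pow_two]
      nth_rewrite 1 [hq]
      ring
    rw [this]
    simp [Nat.ModEq]
  have e9 : 2 ≡ 1 [MOD r] := e7.symm.trans (e6.trans e8)
  have e10 : r ∣ 2 - 1 := (Nat.modEq_iff_dvd' (by omega)).1 e9.symm
  exact hr.one_lt.ne' (Nat.dvd_one.1 e10)

end Pool.Agent.BB
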