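import Pool.Agent.Lib.MP_bbcd91_co.B1

set_option autoImplicit false

namespace Pool.Agent.BB

variable {P L : Type*} {I : P → L → Prop} {m n : ℕ} {S : Set P} {T : Set L}

theorem Flag.uniq (h : Plane I n) {t : Equiv.Perm P × Equiv.Perm L} (hg : Col I t) {c c' : P}
    {a a' : L} (f : Flag I S T t c a) (f' : Flag I S T t c' a') : c = c' ∧ a = a' :=
  ⟨(f.cen_eq h hg f'.cen).symm, (f.ax_eq h hg f'.ax).symm⟩

/-- the case of two involutions with different centres and different axes -/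
theorem fix_of_mixed [Finite P] [Finite L] (h : Plane I (m ^ 2 + m)) (s : Sub I S T m)
    {G : Subgroup (Equiv.Perm P × Equiv.Perm L)} (hG : ∀ g ∈ G, Col I g ∧ Pres S T g)
    {t1 t2 : Equiv.Perm P × Equiv.Perm L} (g1 : t1 ∈ G) (g2 : t2 ∈ G) {c1 c2 : P} {a1 a2 : L}
    (f1 : Flag I S T t1 c1 a1) (f2 : Flag I S T t2 c2 a2) (hc : c1 ≠ c2) (ha : a1 ≠ a2)
    (h12 : I c1 a2) : ∀ g ∈ G, g.1 c1 = c1 := by
  have n21 : ¬ I c2 a1 := by
    intro e
    rcases h.uniq c1 c2 a1 a2 f1.ca e h12 f2.ca with e' | e'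
    · exact hc e'
    · exact ha e'
  -- the conjugate of t1 by t2
  have f3 : Flag I S T (t2 * t1 * t2⁻¹) (t2.1 c1) (t2.2 a1) := f1.conj (hG _ g2).1 (hG _ g2).2
  rw [f2.ax c1 h12] at f3
  have g3 : t2 * t1 * t2⁻¹ ∈ G := G.mul_mem (G.mul_mem g2 g1) (G.inv_mem g2)
  have n3 : t2.2 a1 ≠ a1 := fun e => n21 (f2.fixed_line h (hG _ g2).1 e)
  -- every flag has centre `c1` or axis `a2`
  have key : ∀ t ∈ G, ∀ d b, Flag I S T t d b → d = c1 ∨ b = a2 := by
    intro t ht d b f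
    have op : ∀ {t' : Equiv.Perm P × Equiv.Perm L} {d' : P} {b' : L}, t' ∈ G →
        Flag I S T t' d' b' → I d b' ∨ I d' b := by
      intro t' d' b' ht' f'
      by_contra hcon
      push Not at hcon
      exact not_opposite h s (hG _ ht).1 (hG _ ht).2 (hG _ ht').1 (hG _ ht').2 f f' hcon.1 hcon.2
    by_contra hcon
    push Not at hcon
    obtain ⟨k1, k2⟩ := hcon
    rcases op g1 f1 with e1 | e1
    · -- I d a1
      rcases op g3 f3 with e3 | e3
      · rcases h.uniq d c1 a1 (t2.2 a1) e1 f1.ca e3 f3.ca with e | e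
        · exact k1 e
        · exact n3 e.symm
      · rcases h.uniq d c1 a1 b e1 f1.ca f.ca e3 with e | e
        · exact k1 e
        · subst e
          rcases op g2 f2 with e2 | e2
          · rcases h.uniq d c1 a1 a2 e1 f1.ca e2 h12 with e | e
            · exact k1 e
            · exact ha e
          · exact n21 e2
    · -- I c1 b
      rcases op g2 f2 with e2 | e2
      · rcases h.uniq d c1 a2 b e2 h12 f.ca e1 with e | e
        · exact k1 e
        · exact k2 e.symm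
      · rcases h.uniq c1 c2 b a2 e1 e2 h12 f2.ca with e | e
        · exact hc e
        · exact k2 e
  have thr : ∀ t ∈ G, ∀ d b, Flag I S T t d b → I c1 b := by
    intro t ht d b f
    rcases key t ht d b f with e | e
    · exact e ▸ f.ca
    · exact e ▸ h12
  intro g hg
  have hg' : g⁻¹ ∈ G := G.inv_mem hg
  have k : ∀ {t : Equiv.Perm P × Equiv.Perm L} {d : P} {b : L}, t ∈ G → Flag I S T t d b →
      I (g.1 c1) b := by
    intro t d b ht f
    have f' := f.conj (hG _ hg').1 (hG _ hg').2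
    have e1 := thr _ (G.mul_mem (G.mul_mem hg' ht) (G.inv_mem hg')) _ _ f'
    have e2 := ((hG _ hg).1 c1 ((g⁻¹).2 b)).2 e1
    have e3 : g.2 ((g⁻¹).2 b) = b := by
      show g.2 (g.2⁻¹ b) = b
      simp
    rwa [e3] at e2
  rcases h.uniq (g.1 c1) c1 a1 a2 (k g1 f1) f1.ca (k g2 f2) h12 with e | e
  · exact e
  · exact absurd e ha

/-- A group of even order leaving the subplane invariant fixes a point or a line of it. -/
theorem even_fix [Finite P] [Finite L] (h : Plane I (m ^ 2 + m)) (s : Sub I S T m)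
    {G : Subgroup (Equiv.Perm P × Equiv.Perm L)} (hG : ∀ g ∈ G, Col I g ∧ Pres S T g)
    (hev : Even (Nat.card G)) :
    (∃ c ∈ S, ∀ g ∈ G, g.1 c = c) ∨ ∃ a ∈ T, ∀ g ∈ G, g.2 a = a := by
  classical
  haveI : Fact (Nat.Prime 2) := ⟨Nat.prime_two⟩
  obtain ⟨x, hx⟩ := exists_prime_orderOf_dvd_card' (G := G) 2 hev.two_dvd
  have hx1 : (x : Equiv.Perm P × Equiv.Perm L) ≠ 1 := by
    intro e
    have : x = 1 := Subtype.ext e
    rw [this, orderOf_one] at hx
    omega
  have hx2 : (x : Equiv.Perm P × Equiv.Perm L) * x = 1 := by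
    have h1 := pow_orderOf_eq_one x
    rw [hx, pow_two] at h1
    exact congrArg Subtype.val h1
  obtain ⟨c0, a0, f0⟩ := exists_flag h s (hG x x.2).1 (hG x x.2).2 hx1 hx2
  by_cases H : ∃ t1 ∈ G, ∃ t2 ∈ G, ∃ c1 c2 a1 a2, Flag I S T t1 c1 a1 ∧ Flag I S T t2 c2 a2 ∧
      c1 ≠ c2 ∧ a1 ≠ a2
  · obtain ⟨t1, g1, t2, g2, c1, c2, a1, a2, f1, f2, hc, ha⟩ := H
    left
    by_cases h12 : I c1 a2
    · exact ⟨c1, f1.cS, fix_of_mixed h s hG g1 g2 f1 f2 hc ha h12⟩
    · have h21 : I c2 a1 := by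
        by_contra h21
        exact not_opposite h s (hG _ g1).1 (hG _ g1).2 (hG _ g2).1 (hG _ g2).2 f1 f2 h12 h21
      exact ⟨c2, f2.cS, fix_of_mixed h s hG g2 g1 f2 f1 hc.symm ha.symm h21⟩
  · push Not at H
    have H' : ∀ {t1 t2 : Equiv.Perm P × Equiv.Perm L} {c1 c2 : P} {a1 a2 : L}, t1 ∈ G → t2 ∈ G →
        Flag I S T t1 c1 a1 → Flag I S T t2 c2 a2 → c1 ≠ c2 → a1 = a2 :=
      fun g1 g2 f1 f2 hc => H _ g1 _ g2 _ _ _ _ f1 f2 hc
    by_cases hall : ∀ t ∈ G, ∀ c a, Flag I S T t c a → c = c0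
    · left
      refine ⟨c0, f0.cS, fun g hg => ?_⟩
      exact hall _ (G.mul_mem (G.mul_mem hg x.2) (G.inv_mem hg)) _ _
        (f0.conj (hG _ hg).1 (hG _ hg).2)
    · push Not at hall
      obtain ⟨t1, g1, c1, a1, f1, hc1⟩ := hall
      have e1 : a1 = a0 := H' g1 x.2 f1 f0 hc1
      subst e1
      right
      refine ⟨a1, f1.aT, fun g hg => ?_⟩
      have g2 := G.mul_mem (G.mul_mem hg x.2) (G.inv_mem hg)
      have f2 := f0.conj (hG _ hg).1 (hG _ hg).2
      by_cases e2 : g.1 c0 = c0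
      · refine H' g2 g1 f2 f1 ?_
        rw [e2]
        exact hc1.symm
      · exact H' g2 x.2 f2 f0 e2

end Pool.Agent.BB
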