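import Pool.Agent.Lib.MP_bbcd91_co.B2
import Pool.Agent.Lib.MP_bbcd91_co.A6

set_option autoImplicit false

namespace Pool.Agent.BB

/-- orbit lengths divisible by `d` -/
theorem orb_dvd {A X : Type*} [Group A] [Finite A] [Finite X] (φ : A →* Equiv.Perm X)
    (Y : Set X) (hY : ∀ g, ∀ x ∈ Y, φ g x ∈ Y) (d : ℕ)
    (hd : ∀ x ∈ Y, d * Nat.card {g : A // φ g x = x} ∣ Nat.card A) : d ∣ Y.ncard := by
  classical
  letI : MulAction A Y :=
    { smul := fun g y => ⟨φ g y, hY g y y.2⟩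
      one_smul := fun y => Subtype.ext (by
        show φ 1 y.1 = y.1
        rw [map_one]
        rfl)
      mul_smul := fun g k y => Subtype.ext (by
        show φ (g * k) y.1 = φ g (φ k y.1)
        rw [map_mul]
        rfl) }
  haveI : Fintype A := Fintype.ofFinite A
  haveI : Fintype Y := Fintype.ofFinite Y
  haveI : Fintype (MulAction.orbitRel.Quotient A Y) := Fintype.ofFinite _
  haveI : ∀ b : Y, Fintype (MulAction.stabilizer A b) := fun b => Fintype.ofFinite _
  have h1 := MulAction.card_eq_sum_card_group_div_card_stabilizer A Y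
  have h2 : Y.ncard = Fintype.card Y := by
    rw [← Nat.card_coe_set_eq, Nat.card_eq_fintype_card]
  rw [h2, h1]
  refine Finset.dvd_sum (fun b _ => ?_)
  have h3 := hd b.out.1 b.out.2
  have h4 : Nat.card {g : A // φ g b.out.1 = b.out.1} =
      Fintype.card (MulAction.stabilizer A b.out) := by
    rw [← Nat.card_eq_fintype_card]
    refine Nat.card_congr (Equiv.subtypeEquivRight (fun g => ?_))
    rw [MulAction.mem_stabilizer_iff]
    exact ⟨fun e => Subtype.ext e, fun e => congrArg Subtype.val e⟩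
  rw [h4, Nat.card_eq_fintype_card] at h3
  have h5 : 0 < Fintype.card (MulAction.stabilizer A b.out) := Fintype.card_pos
  obtain ⟨c, hc⟩ := h3
  refine ⟨c, ?_⟩
  rw [hc]
  have : d * Fintype.card (MulAction.stabilizer A b.out) * c =
      d * c * Fintype.card (MulAction.stabilizer A b.out) := by ring
  rw [this, Nat.mul_div_cancel _ h5]

variable {P L : Type*} {I : P → L → Prop} {m n : ℕ} {S : Set P} {T : Set L}

theorem Cen.mul {g k : Equiv.Perm P × Equiv.Perm L} {c : P} (h : Cen I g c) (h' : Cen I k c) :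
    Cen I (g * k) c := fun l hl => by
  show g.2 (k.2 l) = l
  rw [h' l hl, h l hl]

theorem Cen.inv {g : Equiv.Perm P × Equiv.Perm L} {c : P} (h : Cen I g c) :
    Cen I g⁻¹ c := fun l hl => by
  show g.2⁻¹ l = l
  rw [Equiv.Perm.inv_eq_iff_eq]
  exact (h l hl).symm

/-- the elements of `G` with centre `c` -/
def cenSub (I : P → L → Prop) (G : Subgroup (Equiv.Perm P × Equiv.Perm L)) (c : P) :
    Subgroup (Equiv.Perm P × Equiv.Perm L) where
  carrier := {g | g ∈ G ∧ Cen I g c}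
  mul_mem' := fun h h' => ⟨G.mul_mem h.1 h'.1, h.2.mul h'.2⟩
  one_mem' := ⟨G.one_mem, fun _ _ => rfl⟩
  inv_mem' := fun h => ⟨G.inv_mem h.1, h.2.inv⟩

/-- a group of collineations with common centre `c ∈ S` has order dividing `m` -/
theorem cen_dvd [Finite P] [Finite L] (h : Plane I (m ^ 2 + m)) (s : Sub I S T m)
    {G : Subgroup (Equiv.Perm P × Equiv.Perm L)} (hG : ∀ g ∈ G, Col I g ∧ Pres S T g) {c : P}
    (hc : c ∈ S) : Nat.card (cenSub I G c) ∣ m := by
  classical
  obtain ⟨t, x, ht, hct, -, -⟩ := ex_ext h s hc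
  have key := orb_dvd ((MonoidHom.fst (Equiv.Perm P) (Equiv.Perm L)).comp (cenSub I G c).subtype)
    {p | I p t ∧ Ext I T p} (by
      rintro ⟨g, hg⟩ y ⟨hy1, hy2⟩
      show I (g.1 y) t ∧ Ext I T (g.1 y)
      refine ⟨?_, (hG g hg.1).2.ext (hG g hg.1).1 hy2⟩
      have := ((hG g hg.1).1 y t).2 hy1
      rwa [hg.2 t hct] at this) (Nat.card (cenSub I G c)) (by
      rintro y ⟨hy1, hy2⟩
      have : Nat.card {g : cenSub I G c //
          ((MonoidHom.fst (Equiv.Perm P) (Equiv.Perm L)).comp (cenSub I G c).subtype) g y = y}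
          = 1 := by
        rw [Nat.card_eq_one_iff_unique]
        refine ⟨⟨fun a b => ?_⟩, ⟨⟨1, rfl⟩⟩⟩
        have one : ∀ a : {g : cenSub I G c //
            ((MonoidHom.fst (Equiv.Perm P) (Equiv.Perm L)).comp (cenSub I G c).subtype) g y = y},
            a.1.1 = 1 := fun a => by
          have e : a.1.1.1 y = y := a.2
          exact cen_ext h s (hG _ a.1.2.1).1 (hG _ a.1.2.1).2 hc a.1.2.2 hy2 e
        exact Subtype.ext (Subtype.ext ((one a).trans (one b).symm))
      rw [this, mul_one])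
  rwa [tangent_ext h s hc ht hct] at key

/-- the elements of `G` with axis `a` -/
def axSub (I : P → L → Prop) (G : Subgroup (Equiv.Perm P × Equiv.Perm L)) (a : L) :
    Subgroup (Equiv.Perm P × Equiv.Perm L) where
  carrier := {g | g ∈ G ∧ Ax I g a}
  mul_mem' := fun {g k} h h' => ⟨G.mul_mem h.1 h'.1, fun p hp => by
    show g.1 (k.1 p) = p
    rw [h'.2 p hp, h.2 p hp]⟩
  one_mem' := ⟨G.one_mem, fun _ _ => rfl⟩
  inv_mem' := fun {g} h => ⟨G.inv_mem h.1, fun p hp => by
    show g.1⁻¹ p = p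
    rw [Equiv.Perm.inv_eq_iff_eq]
    exact (h.2 p hp).symm⟩

/-- a group of collineations with common axis `a ∈ T` has order dividing `m` -/
theorem ax_dvd [Finite P] [Finite L] (h : Plane I (m ^ 2 + m)) (s : Sub I S T m)
    {G : Subgroup (Equiv.Perm P × Equiv.Perm L)} (hG : ∀ g ∈ G, Col I g ∧ Pres S T g) {a : L}
    (ha : a ∈ T) : Nat.card (axSub I G a) ∣ m := by
  let φ : Equiv.Perm P × Equiv.Perm L ≃* Equiv.Perm L × Equiv.Perm P := MulEquiv.prodComm
  have h1 := cen_dvd h.dual s.dual (G := G.map φ.toMonoidHom)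
    (by
      rintro g ⟨k, hk, rfl⟩
      exact ⟨(hG k hk).1.dual, (hG k hk).2.dual⟩) ha
  have h2 : Nat.card (axSub I G a) =
      Nat.card (cenSub (fun (l : L) (p : P) => I p l) (G.map φ.toMonoidHom) a) := by
    refine Nat.card_congr (Equiv.ofBijective
      (fun g => ⟨φ g.1, ⟨g.1, g.2.1, rfl⟩, g.2.2⟩) ⟨?_, ?_⟩)
    · intro g k e
      exact Subtype.ext (φ.injective (congrArg Subtype.val e))
    · rintro ⟨g, ⟨k, hk, rfl⟩, hg⟩
      exact ⟨⟨k, hk, hg⟩, rfl⟩
  rwa [← h2] at h1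

/-- the stabilizer of a point -/
def stabSub (G : Subgroup (Equiv.Perm P × Equiv.Perm L)) (q : P) :
    Subgroup (Equiv.Perm P × Equiv.Perm L) where
  carrier := {g | g ∈ G ∧ g.1 q = q}
  mul_mem' := fun {g k} h h' => ⟨G.mul_mem h.1 h'.1, by
    show g.1 (k.1 q) = q
    rw [h'.2, h.2]⟩
  one_mem' := ⟨G.one_mem, rfl⟩
  inv_mem' := fun {g} h => ⟨G.inv_mem h.1, by
    show g.1⁻¹ q = q
    rw [Equiv.Perm.inv_eq_iff_eq]
    exact h.2.symm⟩

theorem dvd_pow_odd {s u j : ℕ} (h : 2 ^ j ∣ 2 ^ s * (2 * u + 1)) : j ≤ s := by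
  have hc : Nat.Coprime (2 ^ j) (2 * u + 1) := by
    apply Nat.Coprime.pow_left
    rw [Nat.coprime_two_left]
    exact ⟨u, rfl⟩
  exact (Nat.pow_dvd_pow_iff_le_right (by norm_num)).1 (hc.dvd_of_dvd_mul_right h)

/-- the order of a `2`-group leaving the subplane invariant divides `m ^ 2` -/
theorem two_group [Finite P] [Finite L] (h : Plane I (m ^ 2 + m)) (s : Sub I S T m)
    {H : Subgroup (Equiv.Perm P × Equiv.Perm L)} (hH : ∀ g ∈ H, Col I g ∧ Pres S T g) {k : ℕ}
    (hk : Nat.card H = 2 ^ k) : 2 ^ k ∣ m ^ 2 := by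
  classical
  by_contra hnd
  haveI : Fact (Nat.Prime 2) := ⟨Nat.prime_two⟩
  have hm := s.two
  have hk0 : k ≠ 0 := by
    rintro rfl
    exact hnd (by simp)
  have hP : IsPGroup 2 H := IsPGroup.of_card hk
  haveI hnt : Nontrivial H := by
    rw [← Finite.one_lt_card_iff_nontrivial, hk]
    exact Nat.one_lt_two_pow hk0
  -- a central involution
  obtain ⟨z, hz1, hzz, hzH, hzc⟩ : ∃ z : Equiv.Perm P × Equiv.Perm L, z ≠ 1 ∧ z * z = 1 ∧
      z ∈ H ∧ ∀ g ∈ H, g * z = z * g := by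
    haveI := hP.center_nontrivial
    have h1 : 1 < Nat.card (Subgroup.center H) := Finite.one_lt_card_iff_nontrivial.2 ‹_›
    obtain ⟨j, hj⟩ := IsPGroup.iff_card.1 (hP.to_subgroup (Subgroup.center H))
    have h2 : 2 ∣ Nat.card (Subgroup.center H) := by
      rw [hj] at h1 ⊢
      have : j ≠ 0 := by
        rintro rfl
        simp at h1
      exact dvd_pow_self 2 this
    obtain ⟨x, hx⟩ := exists_prime_orderOf_dvd_card' (G := Subgroup.center H) 2 h2
    refine ⟨x.1.1, ?_, ?_, x.1.2, ?_⟩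
    · intro e
      have : x = 1 := Subtype.ext (Subtype.ext e)
      rw [this, orderOf_one] at hx
      omega
    · have h3 := pow_orderOf_eq_one x
      rw [hx, pow_two] at h3
      exact congrArg (fun y => y.1.1) h3
    · intro g hg
      have h3 := (Subgroup.mem_center_iff.1 x.2) ⟨g, hg⟩
      exact congrArg Subtype.val h3
  obtain ⟨c, a, fz⟩ := exists_flag h s (hH z hzH).1 (hH z hzH).2 hz1 hzz
  have hfc : ∀ g ∈ H, g.1 c = c := fun g hg =>
    fz.comm_cen h (hH z hzH).1 (hH g hg).1 (hzc g hg)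
  have hfa : ∀ g ∈ H, g.2 a = a := fun g hg =>
    fz.comm_ax h (hH z hzH).1 (hH g hg).1 (hzc g hg)
  -- an involution fixing a point of `a` other than `c` has axis `a`
  have hax : ∀ t ∈ H, t ≠ 1 → t * t = 1 → ∀ q, I q a → q ≠ c → t.1 q = q →
      ∃ d, Flag I S T t d a := by
    intro t ht ht1 htt q hqa hqc htq
    obtain ⟨d, b, f⟩ := exists_flag h s (hH t ht).1 (hH t ht).2 ht1 htt
    have h1 : I c b := f.off c (hfc t ht)
    have h2 : I q b := f.off q htq
    rcases h.uniq q c b a h2 h1 hqa fz.ca with e | e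
    · exact absurd e hqc
    · subst e
      exact ⟨d, f⟩
  -- the exponent of 2 in m
  obtain ⟨e, m', hm', hmm⟩ := Nat.exists_eq_two_pow_mul_odd (n := m) (by omega)
  obtain ⟨u, hu⟩ := hm'
  have hke : 2 * e + 1 ≤ k := by
    by_contra hcon
    apply hnd
    have h1 : 2 ^ k ∣ 2 ^ (2 * e) := pow_dvd_pow 2 (by omega)
    refine h1.trans ?_
    rw [hmm, mul_pow, ← pow_mul, mul_comm e 2]
    exact Dvd.intro _ rfl
  have small : ∀ K : Subgroup (Equiv.Perm P × Equiv.Perm L), K ≤ H → Nat.card K ∣ m →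
      Nat.card K ∣ 2 ^ e := by
    intro K hK hKm
    have h1 : Nat.card K ∣ 2 ^ k := by
      rw [← hk]
      exact Subgroup.card_dvd_of_le hK
    obtain ⟨j, -, hj⟩ := (Nat.dvd_prime_pow Nat.prime_two).1 h1
    rw [hj] at hKm ⊢
    rw [hmm, hu] at hKm
    exact pow_dvd_pow 2 (dvd_pow_odd hKm)
  -- the elations with axis a
  have hA : Nat.card (axSub I H a) ≤ 2 ^ e :=
    Nat.le_of_dvd (by positivity) (small _ (fun g hg => hg.1) (ax_dvd h s hH fz.aT))
  set X0 : Set P := {q | q ∈ S ∧ I q a ∧ q ≠ c} with hX0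
  set N1 : Set P := {q | q ∈ X0 ∧ ∃ t ∈ H, t ≠ 1 ∧ Ax I t a ∧ Cen I t q} with hN1
  have hX0c : X0.ncard = m := by
    have h1 : X0 = {q | q ∈ S ∧ I q a} \ {c} := by
      ext q
      exact ⟨fun hq => ⟨⟨hq.1, hq.2.1⟩, hq.2.2⟩, fun hq => ⟨hq.1.1, hq.1.2, hq.2⟩⟩
    rw [h1, Set.ncard_sdiff_singleton_of_mem (show c ∈ {q | q ∈ S ∧ I q a} from ⟨fz.cS, fz.ca⟩),
      s.pt a fz.aT]
    rfl
  have hN1c : N1.ncard + 2 ≤ 2 ^ e := by
    have hch : ∀ q ∈ N1, ∃ t, t ∈ H ∧ t ≠ 1 ∧ Ax I t a ∧ Cen I t q := fun q hq => by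
      obtain ⟨-, t, h1, h2, h3, h4⟩ := hq
      exact ⟨t, h1, h2, h3, h4⟩
    choose! τ hτ using hch
    have h1 : insert (1 : Equiv.Perm P × Equiv.Perm L) (insert z (τ '' N1)) ⊆
        (axSub I H a : Set (Equiv.Perm P × Equiv.Perm L)) := by
      rintro g (rfl | rfl | ⟨q, hq, rfl⟩)
      · exact (axSub I H a).one_mem
      · exact ⟨hzH, fz.ax⟩
      · exact ⟨(hτ q hq).1, (hτ q hq).2.2.1⟩
    have h2 := Set.ncard_le_ncard h1 (Set.toFinite _)
    have h3 : Set.InjOn τ N1 := by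
      intro q hq q' hq' e'
      by_contra hne
      have k1 := (hτ q hq).2.2.2
      have k2 := (hτ q' hq').2.2.2
      rw [← e'] at k2
      exact (hτ q hq).2.1 (two_cen h (hH _ (hτ q hq).1).1 k1 k2 hne)
    have h4 : z ∉ τ '' N1 := by
      rintro ⟨q, hq, hqz⟩
      have k1 := (hτ q hq).2.2.2
      rw [hqz] at k1
      exact hz1 (two_cen h (hH z hzH).1 k1 fz.cen hq.1.2.2)
    have h5 : (1 : Equiv.Perm P × Equiv.Perm L) ∉ insert z (τ '' N1) := by
      rintro (e' | ⟨q, hq, hq1⟩)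
      · exact hz1 e'.symm
      · exact (hτ q hq).2.1 hq1
    rw [Set.ncard_insert_of_notMem h5 (Set.toFinite _),
      Set.ncard_insert_of_notMem h4 (Set.toFinite _), h3.ncard_image] at h2
    have h6 : (axSub I H a : Set (Equiv.Perm P × Equiv.Perm L)).ncard =
        Nat.card (axSub I H a) := by
      rw [← Nat.card_coe_set_eq]
      rfl
    rw [h6] at h2
    omega
  -- stabilizers
  have hstab : ∀ q ∈ X0 \ N1, Nat.card (stabSub H q) ∣ 2 ^ e := by
    rintro q ⟨hq, hqN⟩
    refine small _ (fun g hg => hg.1) ?_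
    have hYc : {l | l ∈ T ∧ I q l ∧ l ≠ a}.ncard = m := by
      have h1 : {l | l ∈ T ∧ I q l ∧ l ≠ a} = {l | l ∈ T ∧ I q l} \ {a} := by
        ext l
        exact ⟨fun hl => ⟨⟨hl.1, hl.2.1⟩, hl.2.2⟩, fun hl => ⟨hl.1.1, hl.1.2, hl.2⟩⟩
      rw [h1, Set.ncard_sdiff_singleton_of_mem
        (show a ∈ {l | l ∈ T ∧ I q l} from ⟨fz.aT, hq.2.1⟩), s.ln q hq.1]
      rfl
    rw [← hYc]
    refine orb_dvd ((MonoidHom.snd (Equiv.Perm P) (Equiv.Perm L)).comp (stabSub H q).subtype)
      {l | l ∈ T ∧ I q l ∧ l ≠ a} ?_ _ ?_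
    · rintro ⟨g, hg⟩ l ⟨hl1, hl2, hl3⟩
      show g.2 l ∈ T ∧ I q (g.2 l) ∧ g.2 l ≠ a
      refine ⟨((hH g hg.1).2.t l).2 hl1, ?_, ?_⟩
      · have := ((hH g hg.1).1 q l).2 hl2
        rwa [hg.2] at this
      · intro e'
        apply hl3
        have := hfa g hg.1
        exact g.2.injective (e'.trans this.symm)
    · rintro l ⟨hl1, hl2, hl3⟩
      have : Nat.card {g : stabSub H q //
          ((MonoidHom.snd (Equiv.Perm P) (Equiv.Perm L)).comp (stabSub H q).subtype) g l = l}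
          = 1 := by
        rw [Nat.card_eq_one_iff_unique]
        refine ⟨⟨fun x y => ?_⟩, ⟨⟨1, rfl⟩⟩⟩
        have one : ∀ x : {g : stabSub H q //
            ((MonoidHom.snd (Equiv.Perm P) (Equiv.Perm L)).comp (stabSub H q).subtype) g l = l},
            x.1.1 = 1 := fun x => by
          obtain ⟨⟨g, hgH, hgq⟩, hgl⟩ := x
          show g = 1
          have hgl' : g.2 l = l := hgl
          by_contra hg1
          -- an involution in the group generated by g
          have ho : orderOf g ≠ 1 := fun e' => hg1 (orderOf_eq_one_iff.1 e')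
          have ho2 : orderOf g ∣ 2 ^ k := by
            have k1 := orderOf_dvd_natCard (⟨g, hgH⟩ : H)
            rw [hk] at k1
            rwa [← Subgroup.orderOf_coe] at k1
          obtain ⟨j, -, hj⟩ := (Nat.dvd_prime_pow Nat.prime_two).1 ho2
          have hj0 : j ≠ 0 := by
            rintro rfl
            exact ho (by rw [hj, pow_zero])
          obtain ⟨i, rfl⟩ := Nat.exists_eq_succ_of_ne_zero hj0
          set t := g ^ (2 ^ i) with ht
          have htH : t ∈ H := H.pow_mem hgH _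
          have ht1 : t ≠ 1 := by
            intro e'
            have k1 := orderOf_dvd_of_pow_eq_one e'
            rw [hj] at k1
            have k2 := Nat.le_of_dvd (by positivity) k1
            have k3 : 2 ^ i < 2 ^ (i + 1) := Nat.pow_lt_pow_right (by norm_num) (by omega)
            exact absurd k2 (not_le.2 k3)
          have htt : t * t = 1 := by
            rw [ht, ← pow_add, ← two_mul, ← pow_succ', ← hj]
            exact pow_orderOf_eq_one g
          obtain ⟨d, f⟩ := hax t htH ht1 htt q hq.2.1 hq.2.2 (pow_fix _ hgq)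
          have k1 : I d l := f.fixed_line h (hH t htH).1 (pow_fixL _ hgl')
          have k2 : d = q := by
            rcases h.uniq d q a l f.ca hq.2.1 k1 hl2 with e' | e'
            · exact e'
            · exact absurd e'.symm hl3
          subst k2
          exact hqN ⟨hq, t, htH, ht1, f.ax, f.cen⟩
        exact Subtype.ext (Subtype.ext ((one x).trans (one y).symm))
      rw [this, mul_one]
  -- orbits
  have hinvX0 : ∀ g ∈ H, ∀ q ∈ X0, g.1 q ∈ X0 := by
    rintro g hg q ⟨h1, h2, h3⟩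
    refine ⟨((hH g hg).2.s q).2 h1, ?_, ?_⟩
    · have := ((hH g hg).1 q a).2 h2
      rwa [hfa g hg] at this
    · intro e'
      exact h3 (g.1.injective (e'.trans (hfc g hg).symm))
  have hinvN1 : ∀ g ∈ H, ∀ q, g.1 q ∈ N1 → q ∈ N1 := by
    rintro g hg q ⟨h1, t, ht, ht1, hta, htc⟩
    have hgi := H.inv_mem hg
    have h2 : q ∈ X0 := by
      have := hinvX0 _ hgi _ h1
      have e' : (g⁻¹).1 (g.1 q) = q := by
        show g.1⁻¹ (g.1 q) = q
        simp
      rwa [e'] at this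
    refine ⟨h2, g⁻¹ * t * g, H.mul_mem (H.mul_mem hgi ht) hg, ?_, ?_, ?_⟩
    · intro e'
      apply ht1
      have := congrArg (fun w => g * w * g⁻¹) e'
      simpa [mul_assoc] using this
    · intro p hp
      show g.1⁻¹ (t.1 (g.1 p)) = p
      have k1 : I (g.1 p) a := by
        have := ((hH g hg).1 p a).2 hp
        rwa [hfa g hg] at this
      rw [hta _ k1]
      simp
    · intro l hl
      show g.2⁻¹ (t.2 (g.2 l)) = l
      rw [htc _ (((hH g hg).1 q l).2 hl)]
      simp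
  have horb : 2 ^ (e + 1) ∣ (X0 \ N1).ncard := by
    refine orb_dvd ((MonoidHom.fst (Equiv.Perm P) (Equiv.Perm L)).comp H.subtype)
      (X0 \ N1) ?_ _ ?_
    · rintro ⟨g, hg⟩ q ⟨h1, h2⟩
      exact ⟨hinvX0 g hg q h1, fun h3 => h2 (hinvN1 g hg q h3)⟩
    · intro q hq
      have h1 : Nat.card {g : H //
          ((MonoidHom.fst (Equiv.Perm P) (Equiv.Perm L)).comp H.subtype) g q = q} =
          Nat.card (stabSub H q) := by
        refine Nat.card_congr (Equiv.ofBijective (fun g => ⟨g.1.1, g.1.2, g.2⟩) ⟨?_, ?_⟩)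
        · intro g g' e'
          exact Subtype.ext (Subtype.ext (congrArg (fun w : stabSub H q => w.1) e'))
        · rintro ⟨g, hg1, hg2⟩
          exact ⟨⟨⟨g, hg1⟩, hg2⟩, rfl⟩
      rw [h1, hk]
      have h2 := Nat.mul_dvd_mul_left (2 ^ (e + 1)) (hstab q hq)
      refine h2.trans ?_
      rw [← pow_add]
      exact pow_dvd_pow 2 (by omega)
  have hsum : N1.ncard + (X0 \ N1).ncard = m := by
    have h1 : N1 ⊆ X0 := fun q hq => hq.1
    have h2 := Set.ncard_sdiff_add_ncard_of_subset h1 (Set.toFinite _)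
    omega
  obtain ⟨v, hv⟩ := horb
  have hpow : 2 ^ (e + 1) = 2 * 2 ^ e := by rw [pow_succ, mul_comm]
  have hE : 2 ^ e * (2 * u + 1) = N1.ncard + 2 * 2 ^ e * v := by
    rw [← hpow, ← hv, hsum, hmm, hu]
  set E := 2 ^ e with hEdef
  have h7 : E + 2 * E * u = N1.ncard + 2 * E * v := by
    rw [← hE]; ring
  have h8 : 2 ≤ E := by omega
  rcases le_or_gt u v with huv | huv
  · have h9 : 2 * E * u ≤ 2 * E * v := Nat.mul_le_mul_left _ huv
    obtain ⟨w, rfl⟩ := Nat.exists_eq_add_of_le huv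
    rw [Nat.mul_add] at h7
    rcases Nat.eq_zero_or_pos w with hw | hw
    · subst hw
      omega
    · have : 2 * E ≤ 2 * E * w := Nat.le_mul_of_pos_right _ hw
      omega
  · obtain ⟨w, rfl⟩ := Nat.exists_eq_add_of_lt huv
    have : 2 * E * (v + w + 1) = 2 * E * v + 2 * E * w + 2 * E := by ring
    have h9 : 0 ≤ 2 * E * w := Nat.zero_le _
    omega

/-- the `2`-part of the order of a group leaving the subplane invariant divides `m ^ 2` -/
theorem two_part [Finite P] [Finite L] (h : Plane I (m ^ 2 + m)) (s : Sub I S T m)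
    {G : Subgroup (Equiv.Perm P × Equiv.Perm L)} (hG : ∀ g ∈ G, Col I g ∧ Pres S T g) {k : ℕ}
    (hk : 2 ^ k ∣ Nat.card G) : 2 ^ k ∣ m ^ 2 := by
  haveI : Fact (Nat.Prime 2) := ⟨Nat.prime_two⟩
  obtain ⟨K, hK⟩ := Sylow.exists_subgroup_card_pow_prime (G := G) 2 hk
  refine two_group h s (H := K.map G.subtype) ?_ ?_
  · rintro g ⟨x, -, rfl⟩
    exact hG _ x.2
  · rw [← hK]
    exact Nat.card_congr (K.equivMapOfInjective G.subtype G.subtype_injective).symm.toEquiv

end Pool.Agent.BB
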