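import Pool.Agent.Lib.MP_bbcd91_co.A2

set_option autoImplicit false

/-! Row bb-C1: the number of absolute points of a polarity (Baer).

`N = n ^ 2 + n + 1`. `A` = the real symmetric `P × P` matrix with entry `1` at `(p, q)` iff `I p (π q)`. `A * A = n • 1 + J` (`J` all ones), `A * J = (n + 1) • J`,
`trace A` = number of absolute points. Put `c = (√n - (n + 1)) / N`, so `N * c ^ 2 + 2 * (n + 1) * c + 1 = 0`, and `B = A + c • J`; then `B * B = n • 1`, so
`E = (1 / 2) • (1 + (1 / √n) • B)` is idempotent and its trace is a natural number `k` (its rank; `LinearMap.IsProj.trace` or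
`LinearMap.IsIdempotentElem`...). `trace B = trace A + c * N = a - (n + 1) + √n`. So `2 k = N + (a - (n + 1)) / √n + 1`, i.e. `a - (n + 1) = √n * (2 k - N - 1)`; as `√n` is
irrational (`irrational_sqrt_natCast_iff`), `a = n + 1`. -/

namespace Pool.Agent.BB

variable {P L : Type*} {I : P → L → Prop} {n : ℕ}

/-- `π` is a polarity -/
def Pol (I : P → L → Prop) (π : P ≃ L) : Prop := ∀ p q, I p (π q) ↔ I q (π p)

private theorem C1_trace {ι : Type*} [Fintype ι] [DecidableEq ι] (E : Matrix ι ι ℝ) (h : E * E = E) :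
    ∃ k : ℕ, E.trace = k := by
  have h1 : IsIdempotentElem (Matrix.toLin' E) := by
    show Matrix.toLin' E ∘ₗ Matrix.toLin' E = Matrix.toLin' E
    rw [← Matrix.toLin'_mul, h]
  have h2 := (LinearMap.isProj_range_iff_isIdempotentElem (Matrix.toLin' E)).2 h1
  have h3 := h2.trace
  rw [Matrix.trace_toLin'_eq] at h3
  exact ⟨_, h3⟩

private theorem C1_two [Finite P] [Finite L] (h : Plane I n) (π : P ≃ L) {p r : P} (hpr : p ≠ r) :
    {q | I p (π q) ∧ I r (π q)}.ncard = 1 := by
  obtain ⟨l, h1, h2⟩ := h.join p r hpr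
  rw [Set.ncard_eq_one]
  refine ⟨π.symm l, ?_⟩
  ext q
  simp only [Set.mem_ofPred_eq, Set.mem_singleton_iff]
  constructor
  · rintro ⟨h3, h4⟩
    rcases h.uniq p r (π q) l h3 h4 h1 h2 with h5 | h5
    · exact absurd h5 hpr
    · rw [← h5, Equiv.symm_apply_apply]
  · rintro rfl
    rw [Equiv.apply_symm_apply]
    exact ⟨h1, h2⟩

private theorem C1_one [Finite P] [Finite L] (h : Plane I n) (π : P ≃ L) (p : P) :
    {q | I p (π q)}.ncard = n + 1 := by
  rw [← h.lns p, ← Set.ncard_image_of_injective {q | I p (π q)} π.injective]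
  congr 1
  ext l
  simp only [Set.mem_image, Set.mem_ofPred_eq]
  constructor
  · rintro ⟨q, hq, rfl⟩
    exact hq
  · intro hl
    exact ⟨π.symm l, by rwa [Equiv.apply_symm_apply], Equiv.apply_symm_apply _ _⟩

theorem abs_card [Finite P] [Finite L] (h : Plane I n) (hn : ¬ IsSquare n) {π : P ≃ L}
    (hπ : Pol I π) : {p | I p (π p)}.ncard = n + 1 := by
  classical
  have hfP : Fintype P := Fintype.ofFinite P
  set N : ℕ := n ^ 2 + n + 1 with hN
  have hcP : Fintype.card P = N := by rw [← Nat.card_eq_fintype_card, h.cp]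
  set a : ℕ := {p | I p (π p)}.ncard with ha
  have hcount : ∀ (S : P → Prop) [DecidablePred S], (∑ q, if S q then (1 : ℝ) else 0) = ({q | S q}.ncard : ℝ) := by
    intro S _
    rw [Finset.sum_ite, Finset.sum_const_zero, add_zero, Finset.sum_const, nsmul_eq_mul, mul_one,
      Set.ncard_eq_toFinset_card', Set.toFinset_ofPred]
  let A : Matrix P P ℝ := Matrix.of fun p q => if I p (π q) then 1 else 0
  let J : Matrix P P ℝ := Matrix.of fun _ _ => 1
  have hAA : A * A = (n : ℝ) • (1 : Matrix P P ℝ) + J := by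
    ext p r
    rw [Matrix.mul_apply]
    have h1 : ∀ q, A p q * A q r = if (I p (π q) ∧ I r (π q)) then 1 else 0 := by
      intro q
      simp only [A, Matrix.of_apply, hπ q r]
      by_cases h2 : I p (π q) <;> by_cases h3 : I r (π q) <;> simp [h2, h3]
    simp only [h1]
    rw [hcount]
    simp only [Matrix.add_apply, Matrix.smul_apply, J, Matrix.of_apply, smul_eq_mul]
    by_cases hpr : p = r
    · subst hpr
      simp only [and_self]
      rw [C1_one h π p, Matrix.one_apply_eq]
      push_cast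
      ring
    · rw [C1_two h π hpr, Matrix.one_apply_ne hpr]
      push_cast
      ring
  have hAJ : A * J = ((n : ℝ) + 1) • J := by
    ext p r
    rw [Matrix.mul_apply]
    simp only [A, J, Matrix.of_apply, mul_one, Matrix.smul_apply, smul_eq_mul]
    rw [hcount, C1_one h π p]
    push_cast
    ring
  have hJA : J * A = ((n : ℝ) + 1) • J := by
    ext p r
    rw [Matrix.mul_apply]
    simp only [A, J, Matrix.of_apply, one_mul, Matrix.smul_apply, smul_eq_mul, hπ _ r]
    rw [hcount, C1_one h π r]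
    push_cast
    ring
  have hJJ : J * J = (N : ℝ) • J := by
    ext p r
    rw [Matrix.mul_apply]
    simp only [J, Matrix.of_apply, one_mul, Matrix.smul_apply, smul_eq_mul, mul_one]
    rw [Finset.sum_const, Finset.card_univ, hcP, nsmul_eq_mul, mul_one]
  have htA : A.trace = a := by
    rw [Matrix.trace]
    simp only [A, Matrix.diag_apply, Matrix.of_apply]
    rw [hcount]
  have htJ : J.trace = N := by
    rw [Matrix.trace]
    simp only [J, Matrix.diag_apply, Matrix.of_apply]
    rw [Finset.sum_const, Finset.card_univ, hcP, nsmul_eq_mul, mul_one]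
  have hn0 : (0 : ℝ) < n := by
    have := h.two
    exact_mod_cast (by omega : 0 < n)
  set s : ℝ := Real.sqrt n with hs
  have hs0 : 0 < s := Real.sqrt_pos.2 hn0
  have hss : s * s = n := Real.mul_self_sqrt hn0.le
  have hN0 : (0 : ℝ) < N := by rw [hN]; positivity
  have hNr : (N : ℝ) = n ^ 2 + n + 1 := by rw [hN]; push_cast; ring
  set c : ℝ := (s - (n + 1)) / N with hc
  have hcN : c * N = s - (n + 1) := by rw [hc]; field_simp
  have hq : N * c ^ 2 + 2 * (n + 1) * c + 1 = 0 := by
    have h1 : N * (N * c ^ 2 + 2 * (n + 1) * c + 1) = 0 := by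
      have h2 : N * (N * c ^ 2 + 2 * (n + 1) * c + 1) = (c * N) ^ 2 + 2 * (n + 1) * (c * N) + N := by ring
      rw [h2, hcN, hNr]
      linear_combination hss
    rcases mul_eq_zero.1 h1 with h2 | h2
    · exact absurd h2 hN0.ne'
    · exact h2
  let B : Matrix P P ℝ := A + c • J
  have hBB : B * B = (n : ℝ) • (1 : Matrix P P ℝ) := by
    have h1 : B * B = A * A + c • (A * J) + c • (J * A) + (c * c) • (J * J) := by
      simp only [B, add_mul, mul_add, Matrix.smul_mul, Matrix.mul_smul, smul_smul]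
      abel
    rw [h1, hAA, hAJ, hJA, hJJ]
    have h2 : (n : ℝ) • (1 : Matrix P P ℝ) + J + c • ((n : ℝ) + 1) • J + c • ((n : ℝ) + 1) • J +
        (c * c) • (N : ℝ) • J = (n : ℝ) • (1 : Matrix P P ℝ) + (N * c ^ 2 + 2 * (n + 1) * c + 1) • J := by
      module
    rw [h2, hq, zero_smul, add_zero]
  let E : Matrix P P ℝ := (1 / 2 : ℝ) • (1 + (1 / s) • B)
  have hEE : E * E = E := by
    have h1 : E * E = (1 / 4 : ℝ) • ((1 : Matrix P P ℝ) + (2 / s) • B + (1 / s * (1 / s)) • (B * B)) := by
      simp only [E, add_mul, mul_add, Matrix.smul_mul, Matrix.mul_smul, smul_smul, one_mul, mul_one]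
      module
    rw [h1, hBB, smul_smul]
    have h2 : 1 / s * (1 / s) * (n : ℝ) = 1 := by
      rw [← hss]
      field_simp
    rw [h2, one_smul]
    simp only [E]
    module
  obtain ⟨k, hk⟩ := C1_trace E hEE
  have htE : E.trace = (1 / 2) * (N + (1 / s) * (a + c * N)) := by
    simp only [E, B, Matrix.trace_smul, Matrix.trace_add, htA, htJ, Matrix.trace_one, hcP, smul_eq_mul]
  rw [htE, hcN] at hk
  have h1 : (a : ℝ) - (n + 1) = s * (2 * k - N - 1) := by
    field_simp at hk
    linear_combination hk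
  have hirr : Irrational s := irrational_sqrt_natCast_iff.2 hn
  by_cases h2 : (2 * (k : ℤ) - N - 1) = 0
  · have h3 : (2 * (k : ℝ) - N - 1) = 0 := by exact_mod_cast h2
    rw [h3, mul_zero, sub_eq_zero] at h1
    exact_mod_cast h1
  · exfalso
    have h3 : (2 * (k : ℝ) - N - 1) ≠ 0 := by exact_mod_cast h2
    apply hirr
    refine ⟨((a : ℤ) - (n + 1) : ℤ) / (2 * (k : ℤ) - N - 1 : ℤ), ?_⟩
    push_cast
    rw [h1]
    field_simp

end Pool.Agent.BB
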