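import Pool.Agent.Lib.MP_bbcd91_co.C1
import Pool.Agent.Lib.MP_bbcd91_co.A4

set_option autoImplicit false

/-! Row bb-C2: parity of absolute points on lines; collinearity. -/

namespace Pool.Agent.BB

variable {P L : Type*} {I : P → L → Prop} {n : ℕ}

/-- An absolute line `π y`, `I y (π y)`, carries exactly one absolute point: if `x` is absolute and on `π y`, then `y` is on `π x`, so
`x, y` are both on `π x` and `π y`. -/
theorem abs_line (h : Plane I n) {π : P ≃ L} (hπ : Pol I π) {x y : P} (hx : I x (π x))
    (hy : I y (π y)) (hxy : I x (π y)) : x = y := by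
  have h1 : I y (π x) := (hπ x y).1 hxy
  rcases h.uniq x y (π x) (π y) hx h1 hxy hy with e | e
  · exact e
  · exact π.injective e

/-- On a line `l` which is not absolute the number of absolute points is congruent to `n + 1` modulo `2`: `y ↦ l ∩ π y` is an involution on the
points of `l` (`π y ≠ l` for `y` on `l`, since `l = π z` with `z` not on `l`), with the absolute points as fixed points; use `modfix` (file A4) for the
permutation of `P` which is this involution on the points of `l` and the identity elsewhere, or `Equiv.Perm.card_fixedPoints_modEq` on the subtype. -/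
theorem abs_parity [Finite P] [Finite L] (h : Plane I n) {π : P ≃ L} (hπ : Pol I π) {l : L}
    (hl : ∀ y, I y (π y) → π y ≠ l) : {p | I p l ∧ I p (π p)}.ncard ≡ n + 1 [MOD 2] := by
  classical
  have hne : ∀ p, I p l → l ≠ π p := fun p hp e => hl p (e ▸ hp) e.symm
  have hex : ∀ p, ∃ q, I p l → I q l ∧ I q (π p) := by
    intro p
    by_cases hp : I p l
    · obtain ⟨q, hq1, hq2⟩ := h.meet l (π p) (hne p hp)
      exact ⟨q, fun _ => ⟨hq1, hq2⟩⟩
    · exact ⟨p, fun hp' => absurd hp' hp⟩
  choose f hf using hex
  have hff : ∀ p, I p l → f (f p) = p := by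
    intro p hp
    obtain ⟨h1, h2⟩ := hf p hp
    obtain ⟨h3, h4⟩ := hf (f p) h1
    have h5 : I p (π (f p)) := (hπ (f p) p).1 h2
    rcases h.uniq (f (f p)) p l (π (f p)) h3 hp h4 h5 with e | e
    · exact e
    · exact absurd e (hne _ h1)
  have hinv : Function.Involutive (fun p => if I p l then f p else p) := by
    intro p
    by_cases hp : I p l
    · have h1 := (hf p hp).1
      simp only [if_pos hp, if_pos h1]
      exact hff p hp
    · simp only [if_neg hp]
  have key := modfix (Function.Involutive.toPerm _ hinv) {p | I p l} (fun x => by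
    show I (if I x l then f x else x) l ↔ I x l
    by_cases hx : I x l
    · rw [if_pos hx]
      exact ⟨fun _ => hx, fun _ => (hf x hx).1⟩
    · rw [if_neg hx]) 2 Nat.prime_two (by
    ext x
    rw [pow_two]
    exact hinv x)
  have hset : {x | x ∈ {p | I p l} ∧ (Function.Involutive.toPerm _ hinv) x = x} =
      {p | I p l ∧ I p (π p)} := by
    ext x
    constructor
    · rintro ⟨hx, hx'⟩
      have hx1 : I x l := hx
      have hx2 : (if I x l then f x else x) = x := hx'
      rw [if_pos hx1] at hx2
      have h2 := (hf x hx1).2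
      rw [hx2] at h2
      exact ⟨hx1, h2⟩
    · rintro ⟨hx1, hx2⟩
      refine ⟨hx1, ?_⟩
      show (if I x l then f x else x) = x
      rw [if_pos hx1]
      obtain ⟨h3, h4⟩ := hf x hx1
      rcases h.uniq (f x) x l (π x) h3 hx1 h4 hx2 with e | e
      · exact e
      · exact absurd e (hne _ hx1)
  rw [hset, h.pts l] at key
  exact key

/-- For even `n` every line carries an absolute point (`abs_parity`, `abs_line`). A set of `n + 1` points which meets every line is a line: take two points `x ≠ y` of it and
the line `l` through them; if `w` on `l` is not in the set, the `n + 1` lines through `w` carry at least one point each and `l` two. -/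
theorem abs_collinear [Finite P] [Finite L] (h : Plane I n) (hn : Even n) {π : P ≃ L}
    (hπ : Pol I π) (hc : {p | I p (π p)}.ncard = n + 1) :
    ∃ l, ∀ p, I p (π p) → I p l := by
  classical
  -- every line carries an absolute point
  have hmeet : ∀ k : L, ∃ p, I p k ∧ I p (π p) := by
    intro k
    by_cases hk : ∀ y, I y (π y) → π y ≠ k
    · have h1 := abs_parity h hπ hk
      have h2 : 0 < {p | I p k ∧ I p (π p)}.ncard := by
        rcases Nat.eq_zero_or_pos {p | I p k ∧ I p (π p)}.ncard with h0 | h0
        · rw [h0] at h1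
          obtain ⟨c, hc⟩ := hn
          have h3 : 0 % 2 = (n + 1) % 2 := h1
          omega
        · exact h0
      obtain ⟨p, hp⟩ := (Set.ncard_pos (Set.toFinite _)).1 h2
      exact ⟨p, hp⟩
    · have hk' : ∃ y, I y (π y) ∧ π y = k := by
        by_contra hcon
        exact hk fun y hy e => hcon ⟨y, hy, e⟩
      obtain ⟨y, hy, rfl⟩ := hk'
      exact ⟨y, hy, hy⟩
  -- two different absolute points
  have htwo := h.two
  have h1 : 1 < {p | I p (π p)}.ncard := by omega
  obtain ⟨x, hx, y, hy, hxy⟩ := (Set.one_lt_ncard (Set.toFinite _)).1 h1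
  obtain ⟨l, hxl, hyl⟩ := h.join x y hxy
  -- all points of `l` are absolute
  have hall : ∀ w, I w l → I w (π w) := by
    intro w hw
    by_contra hwn
    have hjoin : ∀ s : {p | I p (π p)}, ∃ k : {k | I w k}, I (s : P) (k : L) := by
      intro s
      have hws : w ≠ (s : P) := fun e => hwn (e ▸ s.2)
      obtain ⟨k, hk1, hk2⟩ := h.join w s hws
      exact ⟨⟨k, hk1⟩, hk2⟩
    choose g hg using hjoin
    have huniq : ∀ (s : {p | I p (π p)}) (k : {k | I w k}), I (s : P) (k : L) → g s = k := by
      intro s k hk
      have hws : w ≠ (s : P) := fun e => hwn (e ▸ s.2)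
      rcases h.uniq w s (g s) k (g s).2 (hg s) k.2 hk with e | e
      · exact absurd e hws
      · exact Subtype.ext e
    have hsurj : Function.Surjective g := by
      intro k
      obtain ⟨p, hp1, hp2⟩ := hmeet k
      exact ⟨⟨p, hp2⟩, huniq ⟨p, hp2⟩ k hp1⟩
    have hcard : Nat.card {p | I p (π p)} ≤ Nat.card {k | I w k} := by
      rw [Nat.card_coe_set_eq, Nat.card_coe_set_eq, hc, h.lns w]
    have hbij := hsurj.bijective_of_nat_card_le hcard
    have e := hbij.1 ((huniq ⟨x, hx⟩ ⟨l, hw⟩ hxl).trans (huniq ⟨y, hy⟩ ⟨l, hw⟩ hyl).symm)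
    exact hxy (congrArg Subtype.val e)
  have heq : {p | I p l} = {p | I p (π p)} :=
    Set.eq_of_subset_of_ncard_le (fun w hw => hall w hw) (by rw [hc, h.pts l]) (Set.toFinite _)
  exact ⟨l, fun p hp => by
    have : p ∈ {p | I p l} := by
      rw [heq]
      exact hp
    exact this⟩

end Pool.Agent.BB
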