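import Pool.Agent.Lib.MP_bbcd91_co.C1

set_option autoImplicit false

/-! Row bb-C3: a polarity of a finite projective plane has absolute points.

`p` a prime divisor of `n`. `A` = the `P × P` matrix over `ZMod p` with entry `1` at `(x, y)` iff `I x (π y)`. `A * A = n • 1 + J = J`, `A * J = (n + 1) • J = J`, so `A ^ k = J` for
`k ≥ 2`, and `(trace A) ^ p = trace (A ^ p) = trace J = n ^ 2 + n + 1 = 1` (`ZMod.trace_pow_card`). So `trace A ≠ 0`. -/

namespace Pool.Agent.BB

variable {P L : Type*} {I : P → L → Prop} {n : ℕ}

theorem abs_exists [Finite P] [Finite L] (h : Plane I n) {π : P ≃ L} (hπ : Pol I π) :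
    ∃ p, I p (π p) := by
  classical
  have := Fintype.ofFinite P
  have := Fintype.ofFinite L
  by_contra hcon
  push Not at hcon
  obtain ⟨p, hp, hpn⟩ := Nat.exists_prime_and_dvd (show n ≠ 1 by have := h.two; omega)
  have : Fact p.Prime := ⟨hp⟩
  have hn0 : (n : ZMod p) = 0 := (ZMod.natCast_eq_zero_iff n p).2 hpn
  let A : Matrix P P (ZMod p) := Matrix.of fun x y => if I x (π y) then 1 else 0
  let J : Matrix P P (ZMod p) := Matrix.of fun _ _ => 1
  have hrow : ∀ x : P, (Finset.univ.filter fun y : P => I x (π y)).card = n + 1 := by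
    intro x
    rw [← h.lns x, ← Set.ncard_coe_finset]
    refine Set.ncard_congr (fun y _ => π y) ?_ ?_ ?_
    · intro y hy
      simpa using hy
    · intro y z _ _ e
      exact π.injective e
    · intro l hl
      refine ⟨π.symm l, ?_, ?_⟩
      · simpa using hl
      · simp
  have hAA : A * A = J := by
    ext x z
    rw [Matrix.mul_apply]
    simp only [A, J, Matrix.of_apply, ite_mul, one_mul, zero_mul]
    have e1 : ∀ y : P, (if I x (π y) then (if I y (π z) then (1 : ZMod p) else 0) else 0) =
        if I x (π y) ∧ I z (π y) then 1 else 0 := by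
      intro y
      rw [hπ y z]
      split_ifs <;> simp_all
    rw [Finset.sum_congr rfl fun y _ => e1 y, Finset.sum_boole]
    by_cases hxz : x = z
    · subst hxz
      simp only [and_self]
      rw [hrow]
      push_cast
      rw [hn0, zero_add]
    · obtain ⟨l, hl1, hl2⟩ := h.join x z hxz
      have e2 : (Finset.univ.filter fun y : P => I x (π y) ∧ I z (π y)) = {π.symm l} := by
        ext y
        simp only [Finset.mem_filter, Finset.mem_univ, true_and, Finset.mem_singleton]
        constructor
        · rintro ⟨h1, h2⟩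
          rcases h.uniq x z (π y) l h1 h2 hl1 hl2 with e | e
          · exact absurd e hxz
          · rw [← e, Equiv.symm_apply_apply]
        · rintro rfl
          simpa using ⟨hl1, hl2⟩
      rw [e2, Finset.card_singleton, Nat.cast_one]
  have hAJ : A * J = J := by
    ext x z
    rw [Matrix.mul_apply]
    simp only [A, J, Matrix.of_apply, mul_one]
    rw [Finset.sum_boole, hrow]
    push_cast
    rw [hn0, zero_add]
  have hpow : ∀ q : ℕ, 2 ≤ q → A ^ q = J := by
    intro q hq
    obtain ⟨k, rfl⟩ := Nat.exists_eq_add_of_le' hq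
    clear hq
    induction k with
    | zero => rw [zero_add, pow_two, hAA]
    | succ k ih => rw [show k + 1 + 2 = (k + 2) + 1 by ring, pow_succ', ih, hAJ]
  have h1 := ZMod.trace_pow_card (p := p) A
  have h2 : A ^ p = J := hpow p hp.two_le
  have h3 : Matrix.trace J = 1 := by
    simp only [Matrix.trace, Matrix.diag_apply, J, Matrix.of_apply]
    rw [Finset.sum_const, Finset.card_univ, ← Nat.card_eq_fintype_card, h.cp, nsmul_eq_mul,
      mul_one]
    push_cast
    rw [hn0]
    ring
  have h4 : Matrix.trace A = 0 := by
    simp only [Matrix.trace, Matrix.diag_apply, A, Matrix.of_apply]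
    exact Finset.sum_eq_zero fun x _ => if_neg (hcon x)
  rw [h2, h3, h4, zero_pow hp.ne_zero] at h1
  exact one_ne_zero h1

end Pool.Agent.BB
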