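import Pool.Agent.Lib.MP_bbcd91_co.C2
import Pool.Agent.Lib.MP_bbcd91_co.C3

set_option autoImplicit false

/-! Row bb-C4: no polarity leaves a subplane of odd order `m` of a plane of order `m ^ 2 + m` invariant. -/

namespace Pool.Agent.BB

variable {P L : Type*} {I : P → L → Prop} {m n : ℕ} {S : Set P} {T : Set L}

private theorem C4_ncard {α : Type*} (S : Set α) (Q : α → Prop) :
    {x : S | Q x.1}.ncard = {x | x ∈ S ∧ Q x}.ncard := by
  rw [← Nat.card_coe_set_eq, ← Nat.card_coe_set_eq]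
  exact Nat.card_congr ⟨fun x => ⟨x.1.1, x.1.2, x.2⟩, fun x => ⟨⟨x.1, x.2.1⟩, x.2.2⟩,
    fun _ => rfl, fun _ => rfl⟩

/-- the subplane as a plane on subtypes -/
theorem Sub.plane [Finite P] [Finite L] (h : Plane I n) (s : Sub I S T m) :
    Plane (fun (p : S) (l : T) => I p.1 l.1) m where
  join := by
    rintro ⟨p, hp⟩ ⟨q, hq⟩ hpq
    have hpq' : p ≠ q := fun e => hpq (Subtype.ext e)
    obtain ⟨l, h1, h2⟩ := h.join p q hpq'
    exact ⟨⟨l, s.jn p hp q hq hpq' l h1 h2⟩, h1, h2⟩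
  meet := by
    rintro ⟨l, hl⟩ ⟨k, hk⟩ hlk
    have hlk' : l ≠ k := fun e => hlk (Subtype.ext e)
    obtain ⟨p, h1, h2⟩ := h.meet l k hlk'
    exact ⟨⟨p, s.mt l hl k hk hlk' p h1 h2⟩, h1, h2⟩
  uniq := by
    rintro ⟨p, hp⟩ ⟨q, hq⟩ ⟨l, hl⟩ ⟨k, hk⟩ h1 h2 h3 h4
    rcases h.uniq p q l k h1 h2 h3 h4 with e | e
    · exact Or.inl (Subtype.ext e)
    · exact Or.inr (Subtype.ext e)
  pts := by
    rintro ⟨l, hl⟩
    rw [← s.pt l hl]
    exact C4_ncard S (fun p => I p l)
  lns := by
    rintro ⟨p, hp⟩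
    rw [← s.ln p hp]
    exact C4_ncard T (fun l => I p l)
  cp := by
    rw [← s.cS]
    exact Nat.card_coe_set_eq S
  cl := by
    rw [← s.cT]
    exact Nat.card_coe_set_eq T
  two := s.two

/-- `m ^ 2 + m` is even and not a square, so all absolute points of `π` are on a line `l0` (`abs_card`, `abs_collinear`). Restrict `π` to `ρ : S ≃ T`. By `abs_exists` there is
an absolute point `q` in `S`. Every line `b` of `T` through `q` with `b ≠ π q` is not absolute (`abs_line`), so it has an even number (`abs_parity` for the subplane, `m + 1` is even)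
of absolute points in `S`, and `q` is one of them; so there is another one and `b = l0`. But there are `m ≥ 2` such lines `b`. -/
theorem no_polarity [Finite P] [Finite L] (h : Plane I (m ^ 2 + m)) (s : Sub I S T m)
    (hm : Odd m) {π : P ≃ L} (hπ : Pol I π) (hS : ∀ p, π p ∈ T ↔ p ∈ S) : False := by
  classical
  have hm2 := s.two
  have hns : ¬ IsSquare (m ^ 2 + m) := by
    rintro ⟨r, hr⟩
    have h1 : m < r := by
      by_contra hc
      push Not at hc
      have := Nat.mul_le_mul hc hc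
      nlinarith
    have h2 : r < m + 1 := by
      by_contra hc
      push Not at hc
      have := Nat.mul_le_mul hc hc
      nlinarith
    omega
  have hev : Even (m ^ 2 + m) := by
    rw [sq]
    have : m * m + m = m * (m + 1) := by ring
    rw [this]
    exact Nat.even_mul_succ_self m
  obtain ⟨l0, hl0⟩ := abs_collinear h hev hπ (abs_card h hns hπ)
  let ρ : S ≃ T := π.subtypeEquiv (fun p => (hS p).symm)
  have hρ : Pol (fun (p : S) (l : T) => I p.1 l.1) ρ := fun p q => hπ p.1 q.1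
  obtain ⟨q, hq⟩ := abs_exists (s.plane h) hρ
  have hq' : I q.1 (π q.1) := hq
  have key : ∀ b ∈ T, I q.1 b → b ≠ π q.1 → b = l0 := by
    intro b hb hqb hbq
    have hna : ∀ y : S, I y.1 (ρ y).1 → ρ y ≠ ⟨b, hb⟩ := by
      intro y hy e
      have e1 : π y.1 = b := congrArg Subtype.val e
      have hy' : I y.1 (π y.1) := hy
      have e2 : q.1 = y.1 := abs_line h hπ hq' hy' (by rw [e1]; exact hqb)
      rw [← e2] at e1
      exact hbq e1.symm
    have hpar := abs_parity (s.plane h) hρ (l := ⟨b, hb⟩) hna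
    set A : Set S := {p : S | I p.1 b ∧ I p.1 (ρ p).1} with hA
    have hqA : q ∈ A := ⟨hqb, hq⟩
    have hpar' : A.ncard ≡ m + 1 [MOD 2] := hpar
    have hpos : 0 < A.ncard := (Set.ncard_pos (Set.toFinite _)).2 ⟨q, hqA⟩
    have hev2 : A.ncard % 2 = 0 := by
      obtain ⟨k, hk⟩ := hm
      have := hpar'
      unfold Nat.ModEq at this
      omega
    have h1 : 1 < A.ncard := by omega
    obtain ⟨x, hxA, hxq⟩ := Set.exists_ne_of_one_lt_ncard h1 q
    have hx0 : I x.1 l0 := hl0 x.1 hxA.2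
    have hq0 : I q.1 l0 := hl0 q.1 hq'
    rcases h.uniq x.1 q.1 b l0 hxA.1 hqb hx0 hq0 with e | e
    · exact absurd (Subtype.ext e) hxq
    · exact e
  have hln := s.ln q.1 q.2
  have h3 : 1 < ({l | l ∈ T ∧ I q.1 l} \ {π q.1}).ncard := by
    have h5 := Set.le_ncard_sdiff ({π q.1} : Set L) {l | l ∈ T ∧ I q.1 l} (Set.toFinite _)
    rw [Set.ncard_singleton] at h5
    omega
  obtain ⟨b, c, hb, hc, hbc⟩ := (Set.one_lt_ncard_iff).1 h3
  exact hbc ((key b hb.1.1 hb.1.2 hb.2).trans (key c hc.1.1 hc.1.2 hc.2).symm)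

end Pool.Agent.BB
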