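import Pool.Agent.Lib.MP_bbcd91_co.C4
import Pool.Agent.Lib.MP_bbcd91_co.A6

set_option autoImplicit false

/-! Row bb-C5: no correlation leaves the subplane invariant if `m` is odd. -/

namespace Pool.Agent.BB

variable {P L : Type*} {I : P → L → Prop} {m n : ℕ} {S : Set P} {T : Set L}

private theorem C5_iff {A B : Type*} [Finite A] [Finite B] (e : A ≃ B) {S : Set A} {T : Set B}
    (h : ∀ a ∈ S, e a ∈ T) (hc : S.ncard = T.ncard) (a : A) : e a ∈ T ↔ a ∈ S := by
  constructor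
  · intro ha
    have h1 : e '' S ⊆ T := by
      rintro _ ⟨b, hb, rfl⟩
      exact h b hb
    have h2 : T.ncard ≤ (e '' S).ncard := by
      rw [Set.ncard_image_of_injective S e.injective, hc]
    have h3 := Set.eq_of_subset_of_ncard_le h1 h2 (Set.toFinite _)
    rw [← h3] at ha
    obtain ⟨b, hb, hba⟩ := ha
    rw [← e.injective hba]
    exact hb
  · exact h a

/-- `hS` gives `α p ∈ T ↔ p ∈ S` and `β l ∈ S ↔ l ∈ T` (`α` maps `S` onto `T` by `Set.ncard`; a line `l` of `T` is joined by two points of `S`, so `β l` is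
on two lines of `T`). `g = (α.trans β, β.trans α)` is a collineation (`Col`, `Pres`); the group `Subgroup.zpowers g` has odd order by `odd_odd` (file A5), so
`orderOf g = 2 * j + 1`, and `π = α ∘ g.1 ^ j` is a polarity (`Pol`): the map `β' = g.1 ^ j ∘ β : L → P` satisfies `I p l ↔ I (β' l) (π p)` and `β' ∘ π = g.1 ^ (2 * j + 1) = 1`.
Use `no_polarity`. -/
theorem no_correlation [Finite P] [Finite L] (h : Plane I (m ^ 2 + m)) (s : Sub I S T m)
    (hm : Odd m) (α : P ≃ L) (β : L ≃ P) (hαβ : ∀ p l, I p l ↔ I (β l) (α p))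
    (hS : ∀ p ∈ S, α p ∈ T) : False := by
  have hα : ∀ p, α p ∈ T ↔ p ∈ S := C5_iff α hS (by rw [s.cS, s.cT])
  have hT : ∀ l ∈ T, β l ∈ S := by
    intro l hl
    have h1 : 1 < {p | p ∈ S ∧ I p l}.ncard := by
      rw [s.pt l hl]
      have := s.two
      omega
    obtain ⟨p, q, hp, hq, hpq⟩ := (Set.one_lt_ncard_iff (Set.toFinite _)).1 h1
    exact s.mt (α p) (hS p hp.1) (α q) (hS q hq.1) (fun e => hpq (α.injective e)) (β l)
      ((hαβ p l).1 hp.2) ((hαβ q l).1 hq.2)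
  have hβ : ∀ l, β l ∈ S ↔ l ∈ T := C5_iff β hT (by rw [s.cS, s.cT])
  set g : Equiv.Perm P × Equiv.Perm L := (α.trans β, β.trans α) with hg
  have g1 : ∀ p, g.1 p = β (α p) := fun p => rfl
  have g2 : ∀ l, g.2 l = α (β l) := fun l => rfl
  have hCol : Col I g := by
    intro p l
    rw [g1, g2, ← hαβ, ← hαβ]
  have hPres1 : ∀ p, g.1 p ∈ S ↔ p ∈ S := fun p => by rw [g1, hβ, hα]
  have hPres2 : ∀ l, g.2 l ∈ T ↔ l ∈ T := fun l => by rw [g2, hα, hβ]
  have hPres : Pres S T g := ⟨hPres1, hPres2⟩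
  have hz : ∀ x ∈ Subgroup.zpowers g, Col I x ∧ Pres S T x := by
    intro x hx
    obtain ⟨k, rfl⟩ := Subgroup.mem_zpowers_iff.1 hx
    rcases Int.eq_nat_or_neg k with ⟨j, rfl | rfl⟩
    · rw [zpow_natCast]
      exact ⟨hCol.pow j, hPres.pow j⟩
    · rw [zpow_neg, zpow_natCast]
      exact ⟨(hCol.pow j).inv, (hPres.pow j).inv⟩
  have hodd := odd_odd h s hz hm
  rw [Nat.card_zpowers] at hodd
  obtain ⟨j, hj⟩ := hodd
  have hgj : g ^ (2 * j + 1) = 1 := by
    rw [← hj]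
    exact pow_orderOf_eq_one g
  have hgj1 : ∀ p, (g ^ (2 * j + 1)).1 p = p := fun p => by
    rw [hgj]
    rfl
  have hcomm : ∀ (k : ℕ) (p : P), (g ^ k).2 (α p) = α ((g ^ k).1 p) := by
    intro k
    induction k with
    | zero => intro p; rw [pow_zero]; rfl
    | succ k ih =>
      intro p
      rw [pow_succ]
      have e1 : (g ^ k * g).2 (α p) = (g ^ k).2 (g.2 (α p)) := rfl
      have e2 : (g ^ k * g).1 p = (g ^ k).1 (g.1 p) := rfl
      rw [e1, e2, g2, ih, g1]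
  have hpol : Pol I ((g ^ j).1.trans α) := by
    intro p q
    change I p (α ((g ^ j).1 q)) ↔ I q (α ((g ^ j).1 p))
    rw [hαβ p]
    have e1 : β (α ((g ^ j).1 q)) = (g ^ (j + 1)).1 q := by
      rw [pow_succ']
      rfl
    rw [e1, ← (hCol.pow j) ((g ^ (j + 1)).1 q) (α p), hcomm]
    have e2 : (g ^ j).1 ((g ^ (j + 1)).1 q) = q := by
      have e3 : (g ^ j).1 ((g ^ (j + 1)).1 q) = (g ^ j * g ^ (j + 1)).1 q := rfl
      rw [e3, ← pow_add, show j + (j + 1) = 2 * j + 1 by ring]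
      exact hgj1 q
    rw [e2]
  refine no_polarity h s hm hpol fun p => ?_
  change α ((g ^ j).1 p) ∈ T ↔ p ∈ S
  rw [hα]
  exact (hPres.pow j).s p

end Pool.Agent.BB
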