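import Mathlib

set_option autoImplicit false

/-! Row bb-D1: the multiplier theorem for planar abelian difference sets.

`F g` = number of `(x, y) ∈ D × D` with `x ^ p * y⁻¹ = g`.
(1) `F g ≡ 1 [MOD p]`: in the commutative ring `MonoidAlgebra (ZMod p) G` of characteristic `p` let `D = ∑ single d 1`, `D' = ∑ single d⁻¹ 1`, `J = ∑ g, single g 1`;
`D * D' = m + J = J`, `D * J = (m + 1) J = J`, and `D ^ p = ∑ single (d ^ p) 1` (`sum_pow_char`), so `(∑ single (d ^ p) 1) * D' = D ^ (p - 1) * J = J`.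
(2) `∑ F = (m + 1) ^ 2`, `∑ F ^ 2 = (m + 1) ^ 2 + m ^ 2 + m` (count `(x, y, x', y')` with `(x * x'⁻¹) ^ p = y * y'⁻¹`; `g ↦ g ^ p` is a bijection of `G` as `p` does not divide
`m ^ 2 + m + 1`). (3) `y g = F g - 1 ≥ 0` has `∑ y = m` and `∑ y ^ 2 = m ^ 2 = (∑ y) ^ 2`, so `y` vanishes except at one `g0`, where it is `m`. `F g0 = m + 1` means that
`x ^ p ∈ g0 D` for all `x ∈ D`. -/

namespace Pool.Agent.BB

/-- planar difference set of order `m` in a finite abelian group -/
structure PDS {G : Type*} [CommGroup G] (m : ℕ) (D : Finset G) : Prop where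
  cG : Nat.card G = m ^ 2 + m + 1
  cD : D.card = m + 1
  ex : ∀ g : G, g ≠ 1 → ∃! z : G × G, z.1 ∈ D ∧ z.2 ∈ D ∧ z.1 * z.2⁻¹ = g

/-- number of representations -/
private noncomputable def D1_N {G : Type*} [CommGroup G] [DecidableEq G] (D : Finset G) (g : G) :
    ℤ := ∑ x ∈ D, ∑ y ∈ D, if x * y⁻¹ = g then 1 else 0

private noncomputable def D1_F {G : Type*} [CommGroup G] [DecidableEq G] (D : Finset G) (p : ℕ)
    (g : G) : ℤ := ∑ x ∈ D, ∑ y ∈ D, if x ^ p * y⁻¹ = g then 1 else 0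

private theorem D1_N_one {G : Type*} [CommGroup G] [DecidableEq G] (D : Finset G) :
    D1_N D 1 = D.card := by
  unfold D1_N
  have h : ∀ x ∈ D, (∑ y ∈ D, if x * y⁻¹ = 1 then (1 : ℤ) else 0) = 1 := by
    intro x hx
    have h1 : ∀ y ∈ D, (if x * y⁻¹ = 1 then (1 : ℤ) else 0) = if x = y then 1 else 0 := by
      intro y _
      simp only [mul_inv_eq_one]
    rw [Finset.sum_congr rfl h1, Finset.sum_ite_eq, if_pos hx]
  rw [Finset.sum_congr rfl h]
  simp

private theorem D1_N_ne {G : Type*} [CommGroup G] [DecidableEq G] {m : ℕ} {D : Finset G}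
    (hD : PDS m D) {g : G} (hg : g ≠ 1) : D1_N D g = 1 := by
  unfold D1_N
  obtain ⟨z, ⟨hz1, hz2, hz3⟩, huniq⟩ := hD.ex g hg
  rw [Finset.sum_eq_single_of_mem z.1 hz1, Finset.sum_eq_single_of_mem z.2 hz2, if_pos hz3]
  · intro y hy hne
    rw [if_neg]
    intro h
    have := huniq (z.1, y) ⟨hz1, hy, h⟩
    exact hne (congrArg Prod.snd this)
  · intro x hx hne
    apply Finset.sum_eq_zero
    intro y hy
    rw [if_neg]
    intro h
    have := huniq (x, y) ⟨hx, hy, h⟩
    exact hne (congrArg Prod.fst this)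

private theorem D1_coeff {G : Type*} [CommGroup G] [DecidableEq G] {p : ℕ} (D : Finset G)
    (f : G → G → G) (g : G) :
    (∑ x ∈ D, ∑ y ∈ D, MonoidAlgebra.single (f x y) (1 : ZMod p)).coeff g =
      ((∑ x ∈ D, ∑ y ∈ D, if f x y = g then 1 else 0 : ℤ) : ZMod p) := by
  rw [MonoidAlgebra.coeff_sum, Finsupp.finset_sum_apply]
  push_cast
  refine Finset.sum_congr rfl fun x _ => ?_
  rw [MonoidAlgebra.coeff_sum, Finsupp.finset_sum_apply]
  refine Finset.sum_congr rfl fun y _ => ?_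
  rw [MonoidAlgebra.coeff_single_apply]

private theorem D1_mod {G : Type*} [CommGroup G] [Fintype G] [DecidableEq G] {m : ℕ}
    {D : Finset G} (hD : PDS m D) {p : ℕ} (hp : p.Prime) (hpm : p ∣ m) (g : G) :
    ((D1_F D p g : ℤ) : ZMod p) = 1 := by
  haveI : Fact p.Prime := ⟨hp⟩
  have hm0 : (m : ZMod p) = 0 := (ZMod.natCast_eq_zero_iff m p).2 hpm
  have hinj : Function.Injective (algebraMap (ZMod p) (MonoidAlgebra (ZMod p) G)) :=
    (algebraMap (ZMod p) (MonoidAlgebra (ZMod p) G)).injective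
  haveI : CharP (MonoidAlgebra (ZMod p) G) p := charP_of_injective_algebraMap hinj p
  let X : MonoidAlgebra (ZMod p) G := ∑ x ∈ D, MonoidAlgebra.single x 1
  let Y : MonoidAlgebra (ZMod p) G := ∑ y ∈ D, MonoidAlgebra.single y⁻¹ 1
  let J : MonoidAlgebra (ZMod p) G := ∑ g : G, MonoidAlgebra.single g 1
  have hJ : ∀ g, J.coeff g = 1 := by
    intro g
    show (∑ g : G, MonoidAlgebra.single g (1 : ZMod p)).coeff g = 1
    rw [MonoidAlgebra.coeff_sum, Finsupp.finset_sum_apply]
    have : ∀ x ∈ (Finset.univ : Finset G), (MonoidAlgebra.single x (1 : ZMod p)).coeff g =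
        if x = g then 1 else 0 := fun x _ => MonoidAlgebra.coeff_single_apply
    rw [Finset.sum_congr rfl this]
    simp
  have hXY : X * Y = J := by
    have h1 : X * Y = ∑ x ∈ D, ∑ y ∈ D, MonoidAlgebra.single (x * y⁻¹) (1 : ZMod p) := by
      show (∑ x ∈ D, MonoidAlgebra.single x (1 : ZMod p)) *
        (∑ y ∈ D, MonoidAlgebra.single y⁻¹ (1 : ZMod p)) = _
      rw [Finset.sum_mul_sum]
      refine Finset.sum_congr rfl fun x _ => Finset.sum_congr rfl fun y _ => ?_
      rw [MonoidAlgebra.single_mul_single, one_mul]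
    rw [h1]
    ext g
    rw [D1_coeff D (fun x y => x * y⁻¹) g, hJ g]
    by_cases hg : g = 1
    · rw [hg]
      have := D1_N_one D
      unfold D1_N at this
      rw [this, hD.cD]
      push_cast
      rw [hm0]
      ring
    · have := D1_N_ne hD hg
      unfold D1_N at this
      rw [this]
      norm_num
  have hXJ : X * J = J := by
    have h2 : ∀ d : G, MonoidAlgebra.single d (1 : ZMod p) * J = J := by
      intro d
      show MonoidAlgebra.single d (1 : ZMod p) * (∑ g : G, MonoidAlgebra.single g 1) =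
        ∑ g : G, MonoidAlgebra.single g 1
      rw [Finset.mul_sum]
      have h3 : ∀ g ∈ (Finset.univ : Finset G), MonoidAlgebra.single d (1 : ZMod p) *
          MonoidAlgebra.single g 1 = MonoidAlgebra.single (Equiv.mulLeft d g) 1 := by
        intro g _
        rw [MonoidAlgebra.single_mul_single, one_mul]
        rfl
      rw [Finset.sum_congr rfl h3]
      exact Equiv.sum_comp (Equiv.mulLeft d) (fun g => MonoidAlgebra.single g (1 : ZMod p))
    show (∑ x ∈ D, MonoidAlgebra.single x (1 : ZMod p)) * J = J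
    rw [Finset.sum_mul, Finset.sum_congr rfl (fun d _ => h2 d), Finset.sum_const, hD.cD,
      ← Nat.cast_smul_eq_nsmul (ZMod p)]
    push_cast
    rw [hm0, zero_add, one_smul]
  have hXnJ : ∀ n : ℕ, X ^ n * J = J := by
    intro n
    induction n with
    | zero => rw [pow_zero, one_mul]
    | succ n ih => rw [pow_succ, mul_assoc, hXJ, ih]
  have hXp : X ^ p * Y = J := by
    have e : X ^ p = X ^ (p - 1) * X := by rw [← pow_succ, Nat.sub_add_cancel hp.pos]
    rw [e, mul_assoc, hXY, hXnJ]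
  have hXp2 : X ^ p * Y = ∑ x ∈ D, ∑ y ∈ D, MonoidAlgebra.single (x ^ p * y⁻¹) (1 : ZMod p) := by
    show (∑ x ∈ D, MonoidAlgebra.single x (1 : ZMod p)) ^ p *
        (∑ y ∈ D, MonoidAlgebra.single y⁻¹ (1 : ZMod p)) = _
    rw [sum_pow_char p, Finset.sum_mul_sum]
    refine Finset.sum_congr rfl fun x _ => Finset.sum_congr rfl fun y _ => ?_
    rw [MonoidAlgebra.single_pow, MonoidAlgebra.single_mul_single, one_pow, one_mul]
  have h5 := D1_coeff (p := p) D (fun x y => x ^ p * y⁻¹) g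
  unfold D1_F
  rw [← h5, ← hXp2, hXp, hJ]

private theorem D1_sum {G : Type*} [CommGroup G] [Fintype G] [DecidableEq G] (D : Finset G)
    (p : ℕ) : ∑ g : G, D1_F D p g = (D.card : ℤ) ^ 2 := by
  unfold D1_F
  rw [Finset.sum_comm]
  have h : ∀ x ∈ D, (∑ g : G, ∑ y ∈ D, if x ^ p * y⁻¹ = g then (1 : ℤ) else 0) = D.card := by
    intro x _
    rw [Finset.sum_comm]
    simp
  rw [Finset.sum_congr rfl h]
  simp [sq]

private theorem D1_sq {G : Type*} [CommGroup G] [Fintype G] [DecidableEq G] (D : Finset G)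
    (p : ℕ) : ∑ g : G, D1_F D p g ^ 2 =
      ∑ x ∈ D, ∑ x' ∈ D, D1_N D ((x * x'⁻¹) ^ p) := by
  have h1 : ∀ g : G, D1_F D p g ^ 2 = ∑ x ∈ D, ∑ x' ∈ D, ∑ y ∈ D, ∑ y' ∈ D,
      if x ^ p * y⁻¹ = g then (if x' ^ p * y'⁻¹ = g then (1 : ℤ) else 0) else 0 := by
    intro g
    rw [sq]
    unfold D1_F
    rw [Finset.sum_mul_sum]
    refine Finset.sum_congr rfl fun x _ => Finset.sum_congr rfl fun x' _ => ?_
    rw [Finset.sum_mul_sum]
    refine Finset.sum_congr rfl fun y _ => Finset.sum_congr rfl fun y' _ => ?_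
    by_cases h : x ^ p * y⁻¹ = g
    · simp [h]
    · simp [h]
  rw [Finset.sum_congr rfl (fun g _ => h1 g), Finset.sum_comm]
  refine Finset.sum_congr rfl fun x _ => ?_
  rw [Finset.sum_comm]
  refine Finset.sum_congr rfl fun x' _ => ?_
  unfold D1_N
  rw [Finset.sum_comm]
  refine Finset.sum_congr rfl fun y _ => ?_
  rw [Finset.sum_comm]
  refine Finset.sum_congr rfl fun y' _ => ?_
  have h2 : (y * y'⁻¹ = (x * x'⁻¹) ^ p) ↔ (x' ^ p * y'⁻¹ = x ^ p * y⁻¹) := by
    rw [mul_pow, inv_pow]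
    constructor
    · intro h
      have h3 : y'⁻¹ = y⁻¹ * (x ^ p * (x' ^ p)⁻¹) := by
        rw [← h, inv_mul_cancel_left]
      rw [h3]
      rw [mul_comm (x' ^ p), mul_assoc y⁻¹, inv_mul_cancel_right, mul_comm]
    · intro h
      have h3 : y'⁻¹ = (x' ^ p)⁻¹ * (x ^ p * y⁻¹) := by
        rw [← h, inv_mul_cancel_left]
      rw [h3, ← mul_assoc, mul_comm y, mul_assoc, mul_comm y, inv_mul_cancel_right, mul_comm]
  rw [Finset.sum_ite_eq]
  simp only [Finset.mem_univ, if_true]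
  exact if_congr h2.symm rfl rfl

theorem multiplier {G : Type*} [CommGroup G] [Finite G] {m : ℕ} {D : Finset G} (hD : PDS m D)
    {p : ℕ} (hp : p.Prime) (hpm : p ∣ m) : ∃ g : G, ∀ x ∈ D, ∃ y ∈ D, x ^ p = g * y := by
  classical
  haveI := Fintype.ofFinite G
  have hcG : (Fintype.card G : ℤ) = m ^ 2 + m + 1 := by
    rw [← Nat.card_eq_fintype_card, hD.cG]
    push_cast
    ring
  have hcD : (D.card : ℤ) = m + 1 := by
    rw [hD.cD]
    push_cast
    ring
  have hF1 : ∀ g : G, 1 ≤ D1_F D p g := by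
    intro g
    have h0 : 0 ≤ D1_F D p g := by
      unfold D1_F
      refine Finset.sum_nonneg fun x _ => Finset.sum_nonneg fun y _ => ?_
      split_ifs <;> norm_num
    rcases h0.lt_or_eq with h | h
    · omega
    · exfalso
      have h1 := D1_mod hD hp hpm g
      rw [← h] at h1
      haveI : Fact p.Prime := ⟨hp⟩
      rw [Int.cast_zero] at h1
      exact zero_ne_one h1
  have hN1 : ∀ g : G, 1 ≤ D1_N D g := by
    intro g
    by_cases hg : g = 1
    · rw [hg, D1_N_one, hcD]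
      have : (0 : ℤ) ≤ m := Int.natCast_nonneg m
      linarith
    · rw [D1_N_ne hD hg]
  have hsum := D1_sum D p
  have hsq : ((m : ℤ) + 1) ^ 2 + m ^ 2 + m ≤ ∑ g : G, D1_F D p g ^ 2 := by
    rw [D1_sq]
    have h1 : ∀ x ∈ D, (2 * (m : ℤ) + 1) ≤ ∑ x' ∈ D, D1_N D ((x * x'⁻¹) ^ p) := by
      intro x hx
      rw [← Finset.add_sum_erase D _ hx]
      have h2 : D1_N D ((x * x⁻¹) ^ p) = m + 1 := by
        rw [mul_inv_cancel, one_pow, D1_N_one, hcD]
      have h3 : (m : ℤ) ≤ ∑ x' ∈ D.erase x, D1_N D ((x * x'⁻¹) ^ p) := by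
        have h4 : ∑ _x' ∈ D.erase x, (1 : ℤ) ≤ ∑ x' ∈ D.erase x, D1_N D ((x * x'⁻¹) ^ p) :=
          Finset.sum_le_sum fun x' _ => hN1 _
        have h5 : ∑ _x' ∈ D.erase x, (1 : ℤ) = m := by
          rw [Finset.sum_const, Finset.card_erase_of_mem hx, hD.cD]
          simp
        rw [h5] at h4
        exact h4
      rw [h2]
      linarith
    have h6 := Finset.sum_le_sum h1
    rw [Finset.sum_const, nsmul_eq_mul, hcD] at h6
    nlinarith
  obtain ⟨g0, hg0⟩ := Finite.exists_max (fun g : G => D1_F D p g)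
  have hy1 : ∑ g : G, (D1_F D p g - 1) = m := by
    rw [Finset.sum_sub_distrib, hsum, hcD]
    simp only [Finset.sum_const, Finset.card_univ, nsmul_eq_mul, mul_one]
    rw [hcG]
    ring
  have hy2 : (m : ℤ) ^ 2 ≤ ∑ g : G, (D1_F D p g - 1) ^ 2 := by
    have h1 : ∑ g : G, (D1_F D p g - 1) ^ 2 = ∑ g : G, D1_F D p g ^ 2 -
        2 * ∑ g : G, D1_F D p g + Fintype.card G := by
      rw [Finset.mul_sum, ← Finset.sum_sub_distrib]
      have h2 : (Fintype.card G : ℤ) = ∑ _g : G, (1 : ℤ) := by simp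
      rw [h2, ← Finset.sum_add_distrib]
      refine Finset.sum_congr rfl fun g _ => ?_
      ring
    rw [h1, hsum, hcD, hcG]
    nlinarith
  have hy3 : ∑ g : G, (D1_F D p g - 1) ^ 2 ≤ (D1_F D p g0 - 1) * m := by
    rw [← hy1, Finset.mul_sum]
    refine Finset.sum_le_sum fun g _ => ?_
    have h1 := hF1 g
    have h2 : D1_F D p g ≤ D1_F D p g0 := hg0 g
    nlinarith
  have hmax : (m : ℤ) + 1 ≤ D1_F D p g0 := by
    rcases Nat.eq_zero_or_pos m with h | h
    · have := hF1 g0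
      rw [h]
      push_cast
      linarith
    · have hm : (0 : ℤ) < m := by exact_mod_cast h
      nlinarith
  refine ⟨g0, fun x hx => ?_⟩
  by_contra hcon
  push Not at hcon
  have hle : ∀ x ∈ D, (∑ y ∈ D, if x ^ p * y⁻¹ = g0 then (1 : ℤ) else 0) ≤ 1 := by
    intro x _
    have h1 : ∀ y ∈ D, (if x ^ p * y⁻¹ = g0 then (1 : ℤ) else 0) =
        if y = g0⁻¹ * x ^ p then 1 else 0 := by
      intro y _
      refine if_congr ?_ rfl rfl
      constructor
      · intro h
        rw [← h]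
        group
      · intro h
        rw [h]
        simp
    rw [Finset.sum_congr rfl h1, Finset.sum_ite_eq']
    split_ifs <;> norm_num
  have hzero : (∑ y ∈ D, if x ^ p * y⁻¹ = g0 then (1 : ℤ) else 0) = 0 := by
    refine Finset.sum_eq_zero fun y hy => ?_
    rw [if_neg]
    intro h
    apply hcon y hy
    rw [← h]
    simp
  have hF : D1_F D p g0 ≤ m := by
    unfold D1_F
    rw [← Finset.add_sum_erase D _ hx, hzero, zero_add]
    have h1 : ∑ x ∈ D.erase x, (∑ y ∈ D, if x ^ p * y⁻¹ = g0 then (1 : ℤ) else 0) ≤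
        ∑ _x ∈ D.erase x, (1 : ℤ) :=
      Finset.sum_le_sum fun x' hx' => hle x' (Finset.mem_of_mem_erase hx')
    have h5 : ∑ _x' ∈ D.erase x, (1 : ℤ) = m := by
      rw [Finset.sum_const, Finset.card_erase_of_mem hx, hD.cD]
      simp
    rw [h5] at h1
    exact h1
  linarith

end Pool.Agent.BB
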