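import Pool.Agent.Lib.MP_bbcd91_co.D1
import Pool.Agent.Lib.MP_bbcd91_co.A4

set_option autoImplicit false

/-! Row bb-D2: a planar difference set with product `1` contains `1` if `3 ∣ m`. -/

namespace Pool.Agent.BB

private theorem D2_one {G : Type*} [CommGroup G] {g : G} {k : ℕ}
    (hk : (Nat.card G).Coprime k) (h : g ^ k = 1) : g = 1 := by
  have h1 : orderOf g ∣ k := orderOf_dvd_of_pow_eq_one h
  have h2 : orderOf g ∣ Nat.card G := orderOf_dvd_natCard g
  have h3 : orderOf g ∣ 1 := by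
    have := Nat.dvd_gcd h2 h1
    rwa [hk] at this
  exact orderOf_eq_one_iff.1 (Nat.dvd_one.1 h3)

private theorem D2_inj {G : Type*} [CommGroup G] {x y : G} {k : ℕ}
    (hk : (Nat.card G).Coprime k) (h : x ^ k = y ^ k) : x = y := by
  have h1 : (x * y⁻¹) ^ k = 1 := by rw [mul_pow, h, ← mul_pow, mul_inv_cancel, one_pow]
  exact mul_inv_eq_one.1 (D2_one hk h1)

private theorem D2_cop {m k : ℕ} (hk : k ∣ m) : (m ^ 2 + m + 1).Coprime k := by
  obtain ⟨c, rfl⟩ := hk
  have : (k * c) ^ 2 + k * c + 1 = (k * c ^ 2 + c) * k + 1 := by ring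
  rw [this]
  exact (Nat.coprime_mul_right_add_left _ _ _).2 (Nat.coprime_one_left k)

private theorem D2_prime {G : Type*} [CommGroup G] [Finite G] {m : ℕ} {D : Finset G} (hD : PDS m D)
    (hprod : ∏ x ∈ D, x = 1) {p : ℕ} (hp : p.Prime) (hpm : p ∣ m) : ∀ x ∈ D, x ^ p ∈ D := by
  classical
  obtain ⟨g, hg⟩ := multiplier hD hp hpm
  choose! φ hφ using hg
  have hcp : (Nat.card G).Coprime p := by rw [hD.cG]; exact D2_cop hpm
  have hinj : Set.InjOn φ (D : Set G) := by
    intro x hx y hy hxy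
    apply D2_inj hcp
    rw [(hφ x hx).2, (hφ y hy).2, hxy]
  have himg : D.image φ = D := by
    apply Finset.eq_of_subset_of_card_le
    · intro y hy
      obtain ⟨x, hx, rfl⟩ := Finset.mem_image.1 hy
      exact (hφ x hx).1
    · rw [Finset.card_image_of_injOn hinj]
  have hpr : ∏ x ∈ D, φ x = 1 := by
    rw [← hprod]
    conv_rhs => rw [← himg]
    rw [Finset.prod_image hinj]
  have h1 : g ^ (m + 1) = 1 := by
    have h2 : ∏ x ∈ D, x ^ p = ∏ x ∈ D, (g * φ x) := Finset.prod_congr rfl fun x hx => (hφ x hx).2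
    rw [Finset.prod_pow, hprod, one_pow, Finset.prod_mul_distrib, Finset.prod_const, hD.cD, hpr,
      mul_one] at h2
    exact h2.symm
  have hcm : (Nat.card G).Coprime (m + 1) := by
    rw [hD.cG]
    have : m ^ 2 + m + 1 = m * (m + 1) + 1 := by ring
    rw [this]
    exact (Nat.coprime_mul_right_add_left _ _ _).2 (Nat.coprime_one_left _)
  have hg1 : g = 1 := D2_one hcm h1
  intro x hx
  rw [(hφ x hx).2, hg1, one_mul]
  exact (hφ x hx).1

private theorem D2_pow {G : Type*} [CommGroup G] [Finite G] {m : ℕ} {D : Finset G} (hD : PDS m D)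
    (h2 : 2 ≤ m) (hprod : ∏ x ∈ D, x = 1) (k : ℕ) (hk : k ∣ m) : ∀ x ∈ D, x ^ k ∈ D := by
  induction k using Nat.strong_induction_on with
  | _ k ih =>
    intro x hx
    have hk0 : k ≠ 0 := by rintro rfl; rw [Nat.zero_dvd] at hk; omega
    by_cases hk1 : k = 1
    · rw [hk1, pow_one]; exact hx
    · have hp := Nat.minFac_prime hk1
      obtain ⟨c, hc⟩ := Nat.minFac_dvd k
      have hc0 : c ≠ 0 := by rintro rfl; rw [mul_zero] at hc; exact hk0 hc
      have hck : c < k := by
        rw [hc]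
        have := hp.two_le
        nlinarith [Nat.pos_of_ne_zero hc0]
      have hcm : c ∣ m := (Dvd.intro_left _ hc.symm).trans hk
      have hpx : x ^ k.minFac ∈ D := D2_prime hD hprod hp ((Nat.minFac_dvd k).trans hk) x hx
      have := ih c hck hcm _ hpx
      rw [← pow_mul] at this
      rwa [← hc] at this

/-- Let `p ∣ m` be prime and `g` as in `multiplier`. The map `x ↦ y` is a bijection of `D` (`x ↦ x ^ p` is injective as `p` does not divide `m ^ 2 + m + 1`), so
`∏ x ^ p = g ^ (m + 1) * ∏ y`, hence `g ^ (m + 1) = 1` and `g = 1` (`m + 1` is coprime to `m ^ 2 + m + 1`). So `x ^ p ∈ D` for all `x ∈ D`, for all primes `p ∣ m`, and by induction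
(`Nat.recOnMul` or induction on the prime factors) `x ^ m ∈ D` for `x ∈ D`. The permutation `x ↦ x ^ m` of `G` has cube `1` (`x ^ (m ^ 3) = x` as `m ^ 2 + m + 1 ∣ m ^ 3 - 1`) and leaves `D`
invariant; by `modfix` (file A4) with the prime `3` and `D.card = m + 1 ≡ 1`, it has a fixed point `x` in `D`: `x ^ m = x`. As `m - 1` and `m ^ 2 + m + 1` are coprime (`3 ∣ m`),
`x = 1`. -/
theorem one_mem {G : Type*} [CommGroup G] [Finite G] {m : ℕ} {D : Finset G} (hD : PDS m D)
    (h2 : 2 ≤ m) (h3 : 3 ∣ m) (hprod : ∏ x ∈ D, x = 1) : (1 : G) ∈ D := by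
  classical
  have hcm : (Nat.card G).Coprime m := by rw [hD.cG]; exact D2_cop dvd_rfl
  have hpow := D2_pow hD h2 hprod m dvd_rfl
  have hcard : ∀ x : G, x ^ (m ^ 2 + m + 1) = 1 := fun x => by rw [← hD.cG]; exact pow_card_eq_one'
  obtain ⟨n, rfl⟩ : ∃ n, m = n + 1 := ⟨m - 1, by omega⟩
  let σ : Equiv.Perm G := Equiv.ofBijective (fun x : G => x ^ (n + 1))
    ((Finite.injective_iff_bijective).1 fun x y h => D2_inj hcm h)
  have hσ : ∀ x, σ x = x ^ (n + 1) := fun x => rfl
  have hσ3 : ∀ x, σ (σ (σ x)) = x := by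
    intro x
    rw [hσ, hσ, hσ, ← pow_mul, ← pow_mul]
    have : (n + 1) * ((n + 1) * (n + 1)) = ((n + 1) ^ 2 + (n + 1) + 1) * n + 1 := by ring
    rw [this, pow_succ, pow_mul, hcard, one_pow, one_mul]
  have hσp : σ ^ 3 = 1 := by
    ext x
    exact hσ3 x
  have hA : ∀ x, σ x ∈ (D : Set G) ↔ x ∈ (D : Set G) := by
    intro x
    constructor
    · intro hx
      have h4 : σ (σ (σ x)) ∈ (D : Set G) := hpow _ (hpow _ hx)
      rwa [hσ3] at h4
    · intro hx
      exact hpow x hx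
  have hmod := modfix σ (D : Set G) hA 3 Nat.prime_three hσp
  rw [Set.ncard_coe_finset, hD.cD] at hmod
  have hne : {x | x ∈ (D : Set G) ∧ σ x = x}.Nonempty := by
    by_contra hcon
    rw [Set.not_nonempty_iff_eq_empty] at hcon
    rw [hcon, Set.ncard_empty] at hmod
    have : (n + 1 + 1) % 3 = 0 := hmod.symm
    omega
  obtain ⟨x, hx, hfix⟩ := hne
  have hx1 : x ^ n = 1 := by
    have h5 : x ^ n * x = 1 * x := by rw [← pow_succ, one_mul]; exact hfix
    exact mul_right_cancel h5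
  have hcn : (Nat.card G).Coprime n := by
    rw [hD.cG]
    rw [Nat.coprime_iff_gcd_eq_one]
    have hd1 := Nat.gcd_dvd_left ((n + 1) ^ 2 + (n + 1) + 1) n
    have hd2 := Nat.gcd_dvd_right ((n + 1) ^ 2 + (n + 1) + 1) n
    generalize Nat.gcd ((n + 1) ^ 2 + (n + 1) + 1) n = d at hd1 hd2
    have hd3 : d ∣ 3 := by
      have h6 : (n + 1) ^ 2 + (n + 1) + 1 = n * (n + 3) + 3 := by ring
      rw [h6] at hd1
      exact (Nat.dvd_add_right (hd2.mul_right _)).1 hd1
    rcases (Nat.dvd_prime Nat.prime_three).1 hd3 with h | h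
    · exact h
    · exfalso
      rw [h] at hd2
      omega
  have hx0 : x = 1 := D2_one hcn hx1
  rw [← hx0]
  exact hx

end Pool.Agent.BB
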