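import Pool.Agent.Lib.MP_bbcd91_co.A7

set_option autoImplicit false

/-! Row bb-D3: an abelian group transitive on the points of the subplane: regularity and the fixed exterior point. -/

namespace Pool.Agent.BB

variable {P L : Type*} {I : P → L → Prop} {m n : ℕ} {S : Set P} {T : Set L}

private theorem D3_comm1 {g k : Equiv.Perm P × Equiv.Perm L} (e : g * k = k * g) (x : P) :
    g.1 (k.1 x) = k.1 (g.1 x) := congrArg (fun z => z.1 x) e

private theorem D3_comm2 {g k : Equiv.Perm P × Equiv.Perm L} (e : g * k = k * g) (x : L) :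
    g.2 (k.2 x) = k.2 (g.2 x) := congrArg (fun z => z.2 x) e

/-- a commutative group transitive on `S` is regular on `S`: if `g p = p` then `g` fixes every `k p`, so `g = 1` by `faithful` -/
theorem regS [Finite P] [Finite L] (h : Plane I (m ^ 2 + m)) (s : Sub I S T m)
    {G : Subgroup (Equiv.Perm P × Equiv.Perm L)} (hG : ∀ g ∈ G, Col I g ∧ Pres S T g)
    (hcomm : ∀ g ∈ G, ∀ k ∈ G, g * k = k * g) (htr : ∀ p ∈ S, ∀ q ∈ S, ∃ g ∈ G, g.1 p = q)
    {g : Equiv.Perm P × Equiv.Perm L} (hg : g ∈ G) {p : P} (hp : p ∈ S) (hgp : g.1 p = p) :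
    g = 1 := by
  refine faithful h s (hG g hg).1 ?_
  intro q hq
  obtain ⟨k, hk, rfl⟩ := htr p hp q hq
  rw [D3_comm1 (hcomm g hg k hk), hgp]

/-- so `G` has `m ^ 2 + m + 1` elements (`k ↦ k p` is a bijection of `G` with `S`) -/
theorem cardG [Finite P] [Finite L] (h : Plane I (m ^ 2 + m)) (s : Sub I S T m)
    {G : Subgroup (Equiv.Perm P × Equiv.Perm L)} (hG : ∀ g ∈ G, Col I g ∧ Pres S T g)
    (hcomm : ∀ g ∈ G, ∀ k ∈ G, g * k = k * g) (htr : ∀ p ∈ S, ∀ q ∈ S, ∃ g ∈ G, g.1 p = q) :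
    Nat.card G = m ^ 2 + m + 1 := by
  obtain ⟨p, hp⟩ := s.ex_pt
  have hb : Function.Bijective
      (fun k : G => (⟨(k : Equiv.Perm P × Equiv.Perm L).1 p, ((hG k k.2).2.s p).2 hp⟩ : S)) := by
    constructor
    · rintro ⟨k, hk⟩ ⟨k', hk'⟩ e
      have e1 : k.1 p = k'.1 p := congrArg Subtype.val e
      have e2 : (k'⁻¹ * k).1 p = p := by
        show k'.1⁻¹ (k.1 p) = p
        rw [e1]
        simp
      have e3 := regS h s hG hcomm htr (G.mul_mem (G.inv_mem hk') hk) hp e2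
      have e4 : k = k' := by
        have := congrArg (fun z => k' * z) e3
        simpa using this
      exact Subtype.ext e4
    · rintro ⟨q, hq⟩
      obtain ⟨k, hk, e⟩ := htr p hp q hq
      exact ⟨⟨k, hk⟩, Subtype.ext e⟩
  rw [Nat.card_congr (Equiv.ofBijective _ hb), Nat.card_coe_set_eq, s.cS]

/-- and it is regular on the lines: if `g ≠ 1` fixes `l ∈ T`, it fixes all `k l`; if `k l ≠ l`, the point of `S` on both is fixed by `g`, against `regS`; if `k l = l` for all `k`, then all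
points of `S` are on `l` by transitivity. -/
theorem regT [Finite P] [Finite L] (h : Plane I (m ^ 2 + m)) (s : Sub I S T m)
    {G : Subgroup (Equiv.Perm P × Equiv.Perm L)} (hG : ∀ g ∈ G, Col I g ∧ Pres S T g)
    (hcomm : ∀ g ∈ G, ∀ k ∈ G, g * k = k * g) (htr : ∀ p ∈ S, ∀ q ∈ S, ∃ g ∈ G, g.1 p = q)
    {g : Equiv.Perm P × Equiv.Perm L} (hg : g ∈ G) {l : L} (hl : l ∈ T) (hgl : g.2 l = l) :
    g = 1 := by
  by_cases hk : ∃ k ∈ G, k.2 l ≠ l
  · obtain ⟨k, hk, hkl⟩ := hk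
    have e1 : g.2 (k.2 l) = k.2 l := by rw [D3_comm2 (hcomm g hg k hk), hgl]
    obtain ⟨D, hD1, hD2⟩ := h.meet l (k.2 l) (fun e => hkl e.symm)
    have hkT : k.2 l ∈ T := ((hG k hk).2.t l).2 hl
    have hDS : D ∈ S := s.mt l hl _ hkT (fun e => hkl e.symm) D hD1 hD2
    exact regS h s hG hcomm htr hg hDS
      (fixP h (hG g hg).1 (fun e => hkl e.symm) hgl e1 hD1 hD2)
  · push Not at hk
    exfalso
    obtain ⟨p0, -⟩ := s.ex_pt
    obtain ⟨p, -, hp, -, -, -, -, ip, -⟩ := s.two_pts hl p0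
    obtain ⟨b, hbS, hbl⟩ : ∃ b ∈ S, ¬ I b l := by
      have h1 : 0 < {p | p ∈ S ∧ ¬ I p l}.ncard := by
        rw [s.off hl]
        have := s.two
        positivity
      obtain ⟨b, hb⟩ := (Set.ncard_pos (Set.toFinite _)).1 h1
      exact ⟨b, hb.1, hb.2⟩
    obtain ⟨k, hkG, rfl⟩ := htr p hp b hbS
    have h2 := ((hG k hkG).1 p l).2 ip
    rw [hk k hkG] at h2
    exact hbl h2

/-- transitivity on the lines (`regT` and `cardG`, `T.ncard = m ^ 2 + m + 1`) -/
theorem transT [Finite P] [Finite L] (h : Plane I (m ^ 2 + m)) (s : Sub I S T m)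
    {G : Subgroup (Equiv.Perm P × Equiv.Perm L)} (hG : ∀ g ∈ G, Col I g ∧ Pres S T g)
    (hcomm : ∀ g ∈ G, ∀ k ∈ G, g * k = k * g) (htr : ∀ p ∈ S, ∀ q ∈ S, ∃ g ∈ G, g.1 p = q) :
    ∀ l ∈ T, ∀ k ∈ T, ∃ g ∈ G, g.2 l = k := by
  intro l hl k hk
  have hinj : Function.Injective
      (fun k : G => (⟨(k : Equiv.Perm P × Equiv.Perm L).2 l, ((hG k k.2).2.t l).2 hl⟩ : T)) := by
    rintro ⟨k, hk⟩ ⟨k', hk'⟩ e
    have e1 : k.2 l = k'.2 l := congrArg Subtype.val e
    have e2 : (k'⁻¹ * k).2 l = l := by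
      show k'.2⁻¹ (k.2 l) = l
      rw [e1]
      simp
    have e3 := regT h s hG hcomm htr (G.mul_mem (G.inv_mem hk') hk) hl e2
    have e4 : k = k' := by
      have := congrArg (fun z => k' * z) e3
      simpa using this
    exact Subtype.ext e4
  have hb := hinj.bijective_of_nat_card_le (by
    rw [cardG h s hG hcomm htr, Nat.card_coe_set_eq, s.cT])
  obtain ⟨⟨g, hg⟩, e⟩ := hb.2 ⟨k, hk⟩
  exact ⟨g, hg, congrArg Subtype.val e⟩

/-- Two exterior points `x ≠ y` are not both fixed by `g ∈ G`, `g ≠ 1`: the line through them is fixed and carries a point of `S` (`ext_line`), exactly one as it is not in `T`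
(`Sub.one`), so this point is fixed. Take a prime `r` dividing `m ^ 2 + m + 1` and `g0 ∈ G` of order `r`: the number of exterior points is `m ^ 3 ≡ 1` modulo `r` (`card_ext`,
`modfix`), so `g0` fixes an exterior point `x`. For `k ∈ G`, `k x` is also fixed by `g0`, so `k x = x`. -/
theorem ex_center [Finite P] [Finite L] (h : Plane I (m ^ 2 + m)) (s : Sub I S T m)
    {G : Subgroup (Equiv.Perm P × Equiv.Perm L)} (hG : ∀ g ∈ G, Col I g ∧ Pres S T g)
    (hcomm : ∀ g ∈ G, ∀ k ∈ G, g * k = k * g) (htr : ∀ p ∈ S, ∀ q ∈ S, ∃ g ∈ G, g.1 p = q) :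
    ∃ x, Ext I T x ∧ ∀ g ∈ G, g.1 x = x := by
  classical
  have two : ∀ g ∈ G, ∀ x y, Ext I T x → Ext I T y → x ≠ y → g.1 x = x → g.1 y = y → g = 1 := by
    intro g hg x y hx hy hxy fx fy
    obtain ⟨l, hl1, hl2⟩ := h.join x y hxy
    have fl := fixL h (hG g hg).1 hxy fx fy hl1 hl2
    obtain ⟨p, hp, hpl⟩ := ext_line h s hx hl1
    have hlT : l ∉ T := fun e => hx l e hl1
    have e1 : I (g.1 p) l := by
      have := ((hG g hg).1 p l).2 hpl
      rwa [fl] at this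
    exact regS h s hG hcomm htr hg hp (s.one hlT (((hG g hg).2.s p).2 hp) hp e1 hpl)
  have hm := s.two
  have hr : (Nat.minFac (m ^ 2 + m + 1)).Prime := Nat.minFac_prime (by
    have : 0 < m ^ 2 := by positivity
    omega)
  have hrd := Nat.minFac_dvd (m ^ 2 + m + 1)
  set r := Nat.minFac (m ^ 2 + m + 1) with hrdef
  haveI := Fact.mk hr
  obtain ⟨g0, hg0⟩ := exists_prime_orderOf_dvd_card' (G := G) r (by
    rw [cardG h s hG hcomm htr]; exact hrd)
  have hne : (g0 : Equiv.Perm P × Equiv.Perm L) ≠ 1 := by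
    intro e
    have : g0 = 1 := Subtype.ext e
    rw [this, orderOf_one] at hg0
    exact hr.one_lt.ne hg0
  have hpow : (g0 : Equiv.Perm P × Equiv.Perm L) ^ r = 1 := by
    have h1 := pow_orderOf_eq_one g0
    rw [hg0] at h1
    exact congrArg Subtype.val h1
  have hσ : (g0 : Equiv.Perm P × Equiv.Perm L).1 ^ r = 1 := congrArg Prod.fst hpow
  have hgc := (hG g0 g0.2).1
  have hgp := (hG g0 g0.2).2
  have c1 := modfix (g0 : Equiv.Perm P × Equiv.Perm L).1 {x | Ext I T x} (fun x => ⟨fun hx => by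
      have := hgp.inv.ext hgc.inv hx
      simpa using this, fun hx => hgp.ext hgc hx⟩) r hr hσ
  rw [card_ext h s] at c1
  obtain ⟨x, hx, fx⟩ : ∃ x, Ext I T x ∧ (g0 : Equiv.Perm P × Equiv.Perm L).1 x = x := by
    by_contra hcon
    push Not at hcon
    have e : {x | x ∈ {x | Ext I T x} ∧ (g0 : Equiv.Perm P × Equiv.Perm L).1 x = x} = ∅ := by
      ext x
      simp only [Set.mem_ofPred_eq, Set.mem_empty_iff_false, iff_false]
      rintro ⟨h4, h5⟩
      exact hcon x h4 h5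
    rw [e, Set.ncard_empty] at c1
    have h1 : r ∣ m ^ 3 := (Nat.modEq_zero_iff_dvd).1 c1.symm
    have h2 : r ∣ m := hr.dvd_of_dvd_pow h1
    have h3 : r ∣ m ^ 2 + m := by
      have : m ^ 2 + m = m * (m + 1) := by ring
      rw [this]
      exact h2.mul_right _
    have h4 : r ∣ 1 := (Nat.dvd_add_right h3).1 hrd
    exact hr.one_lt.ne' (Nat.dvd_one.1 h4)
  refine ⟨x, hx, fun k hk => ?_⟩
  by_contra hkx
  refine hne (two g0 g0.2 x (k.1 x) hx ((hG k hk).2.ext (hG k hk).1 hx) (fun e => hkx e.symm)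
    fx ?_)
  rw [D3_comm1 (hcomm g0 g0.2 k hk), fx]

/-- dual of `ex_center` (use `transT` and the dual plane, as in `trans_odd`/`card_ax` in file A5: the group `G.map MulEquiv.prodComm.toMonoidHom`) -/
theorem ex_axis [Finite P] [Finite L] (h : Plane I (m ^ 2 + m)) (s : Sub I S T m)
    {G : Subgroup (Equiv.Perm P × Equiv.Perm L)} (hG : ∀ g ∈ G, Col I g ∧ Pres S T g)
    (hcomm : ∀ g ∈ G, ∀ k ∈ G, g * k = k * g) (htr : ∀ p ∈ S, ∀ q ∈ S, ∃ g ∈ G, g.1 p = q) :
    ∃ l, (∀ p ∈ S, ¬ I p l) ∧ ∀ g ∈ G, g.2 l = l := by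
  let φ : Equiv.Perm P × Equiv.Perm L ≃* Equiv.Perm L × Equiv.Perm P := MulEquiv.prodComm
  obtain ⟨l, hl, hfix⟩ := ex_center h.dual s.dual (G := G.map φ.toMonoidHom)
    (by
      rintro g ⟨k, hk, rfl⟩
      exact ⟨(hG k hk).1.dual, (hG k hk).2.dual⟩)
    (by
      rintro g ⟨k, hk, rfl⟩ g' ⟨k', hk', rfl⟩
      show φ k * φ k' = φ k' * φ k
      rw [← map_mul, ← map_mul, hcomm k hk k' hk'])
    (by
      intro l hl k hk
      obtain ⟨g, hg, e⟩ := transT h s hG hcomm htr l hl k hk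
      exact ⟨φ g, ⟨g, hg, rfl⟩, e⟩)
  exact ⟨l, hl, fun g hg => hfix (φ g) ⟨g, hg, rfl⟩⟩

end Pool.Agent.BB
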