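import Pool.Agent.Lib.MP_bbcd91_co.D3

set_option autoImplicit false

/-! Rows bb-D4 (labels). -/

namespace Pool.Agent.BB

variable {P L : Type*} {I : P → L → Prop} {m n : ℕ} {S : Set P} {T : Set L}

/-- The data of an abelian regular group: `G` fixes the exterior point `x` and the exterior line `l`; `q0 ∈ S`, `M` the line through `x` and `q0`, `z` the point on
`M` and `l`, `b` the line of `T` through `z`. -/
structure Lab (I : P → L → Prop) (S : Set P) (T : Set L)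
    (G : Subgroup (Equiv.Perm P × Equiv.Perm L)) (x q0 z : P) (l M b : L) : Prop where
  hG : ∀ g ∈ G, Col I g ∧ Pres S T g
  regS : ∀ g ∈ G, ∀ p ∈ S, g.1 p = p → g = 1
  regT : ∀ g ∈ G, ∀ k ∈ T, g.2 k = k → g = 1
  trS : ∀ p ∈ S, ∀ q ∈ S, ∃ g ∈ G, g.1 p = q
  hx : Ext I T x
  gx : ∀ g ∈ G, g.1 x = x
  hl : ∀ p ∈ S, ¬ I p l
  gl : ∀ g ∈ G, g.2 l = l
  hq : q0 ∈ S
  xM : I x M
  qM : I q0 M
  zM : I z M
  zl : I z l
  hb : b ∈ T
  zb : I z b

/-- existence: `z` is on a line of `T` by the dual of `ext_line` (file A3) -/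
theorem ex_lab [Finite P] [Finite L] (h : Plane I (m ^ 2 + m)) (s : Sub I S T m)
    {G : Subgroup (Equiv.Perm P × Equiv.Perm L)} (hG : ∀ g ∈ G, Col I g ∧ Pres S T g)
    (hcomm : ∀ g ∈ G, ∀ k ∈ G, g * k = k * g) (htr : ∀ p ∈ S, ∀ q ∈ S, ∃ g ∈ G, g.1 p = q) :
    ∃ x q0 z l M b, Lab I S T G x q0 z l M b := by
  obtain ⟨x, hx, gx⟩ := ex_center h s hG hcomm htr
  obtain ⟨l, hl, gl⟩ := ex_axis h s hG hcomm htr
  obtain ⟨q0, hq⟩ := s.ex_pt
  have hxq : x ≠ q0 := by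
    rintro rfl
    exact hx.notMem s hq
  obtain ⟨M, xM, qM⟩ := h.join x q0 hxq
  have hMl : M ≠ l := by
    rintro rfl
    exact hl q0 hq qM
  obtain ⟨z, zM, zl⟩ := h.meet M l hMl
  obtain ⟨b, hb, zb⟩ := ext_line h.dual s.dual (x := l) hl zl
  exact ⟨x, q0, z, l, M, b, hG, fun g hg p hp e => regS h s hG hcomm htr hg hp e,
    fun g hg k hk e => regT h s hG hcomm htr hg hk e, htr, hx, gx, hl, gl, hq, xM, qM, zM, zl,
    hb, zb⟩

/-- an exterior point is not on `l`: all points of `l` are on a line of `T` (dual of `ext_line`) -/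
theorem Lab.ext_off [Finite P] [Finite L] (h : Plane I (m ^ 2 + m)) (s : Sub I S T m)
    {G : Subgroup (Equiv.Perm P × Equiv.Perm L)} {x q0 z : P} {l M b : L}
    (c : Lab I S T G x q0 z l M b) {y : P} (hy : Ext I T y) : ¬ I y l := by
  intro hyl
  obtain ⟨b', hb', hyb'⟩ := ext_line h.dual s.dual (x := l) c.hl hyl
  exact hy b' hb' hyb'

/-- the lines `M_g = g M` through `x` : the line through `x` and `g q0` is `g M`; `g M` meets `l` in `g z` only -/
theorem Lab.M_eq [Finite P] [Finite L] (h : Plane I (m ^ 2 + m)) (s : Sub I S T m)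
    {G : Subgroup (Equiv.Perm P × Equiv.Perm L)} {x q0 z : P} {l M b : L}
    (c : Lab I S T G x q0 z l M b) {g : Equiv.Perm P × Equiv.Perm L} (hg : g ∈ G) {k : L}
    (h1 : I x k) (h2 : I (g.1 q0) k) : k = g.2 M := by
  obtain ⟨hc, hp⟩ := c.hG g hg
  have e1 : I x (g.2 M) := by
    have := (hc x M).2 c.xM
    rwa [c.gx g hg] at this
  have e2 : I (g.1 q0) (g.2 M) := (hc q0 M).2 c.qM
  rcases h.uniq x (g.1 q0) k (g.2 M) h1 h2 e1 e2 with e | e
  · exact absurd ((hp.s q0).2 c.hq) (e ▸ c.hx.notMem s)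
  · exact e

/-- `g ↦ g z` is injective on `G`: if `g z = z`, then `g` fixes the line `M` through `x` and `z`, so its point `q0` of `S` (unique, as `M` is not in `T`) -/
theorem Lab.z_inj [Finite P] [Finite L] (h : Plane I (m ^ 2 + m)) (s : Sub I S T m)
    {G : Subgroup (Equiv.Perm P × Equiv.Perm L)} {x q0 z : P} {l M b : L}
    (c : Lab I S T G x q0 z l M b) {g k : Equiv.Perm P × Equiv.Perm L} (hg : g ∈ G)
    (hk : k ∈ G) (e : g.1 z = k.1 z) : g = k := by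
  have hw : k⁻¹ * g ∈ G := G.mul_mem (G.inv_mem hk) hg
  have hwz : (k⁻¹ * g).1 z = z := by
    show k.1⁻¹ (g.1 z) = z
    rw [e]
    simp
  have hxz : x ≠ z := by
    rintro rfl
    exact c.ext_off h s c.hx c.zl
  obtain ⟨hc, hp⟩ := c.hG _ hw
  have hM : (k⁻¹ * g).2 M = M := fixL h hc hxz (c.gx _ hw) hwz c.xM c.zM
  have hMT : M ∉ T := fun hT => c.hx M hT c.xM
  have e1 : I ((k⁻¹ * g).1 q0) M := by
    have := (hc q0 M).2 c.qM
    rwa [hM] at this
  have e2 : (k⁻¹ * g).1 q0 = q0 := s.one hMT ((hp.s q0).2 c.hq) c.hq e1 c.qM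
  have e3 := c.regS _ hw q0 c.hq e2
  exact (inv_mul_eq_one.1 e3).symm

/-- all points of `l` are `g z` (`z_inj`, `Nat.card G = m ^ 2 + m + 1` because `g ↦ g q0` is a bijection onto `S`, and `l` has `m ^ 2 + m + 1` points) -/
theorem Lab.z_surj [Finite P] [Finite L] (h : Plane I (m ^ 2 + m)) (s : Sub I S T m)
    {G : Subgroup (Equiv.Perm P × Equiv.Perm L)} {x q0 z : P} {l M b : L}
    (c : Lab I S T G x q0 z l M b) {y : P} (hy : I y l) : ∃ g ∈ G, g.1 z = y := by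
  classical
  have ex : ∀ p, p ∈ S → ∃ g, g ∈ G ∧ g.1 q0 = p := fun p hp => c.trS q0 c.hq p hp
  have : Nonempty (Equiv.Perm P × Equiv.Perm L) := ⟨1⟩
  choose! φ hφ using ex
  have inj : Set.InjOn (fun p => (φ p).1 z) S := by
    intro p hp q hq e
    have e1 := c.z_inj h s (hφ p hp).1 (hφ q hq).1 e
    rw [← (hφ p hp).2, ← (hφ q hq).2, e1]
  have sub : (fun p => (φ p).1 z) '' S ⊆ {y | I y l} := by
    rintro _ ⟨p, hp, rfl⟩
    have h1 := ((c.hG _ (hφ p hp).1).1 z l).2 c.zl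
    rwa [c.gl _ (hφ p hp).1] at h1
  have eq : (fun p => (φ p).1 z) '' S = {y | I y l} := by
    refine Set.eq_of_subset_of_ncard_le sub ?_ (Set.toFinite _)
    rw [Set.ncard_image_of_injOn inj, h.pts l, s.cS]
  have hy' : y ∈ (fun p => (φ p).1 z) '' S := by
    rw [eq]
    exact hy
  obtain ⟨p, hp, e⟩ := hy'
  exact ⟨φ p, (hφ p hp).1, e⟩

/-- `q0` is not on `b`: otherwise `b = M` (both through `q0 ≠ z`), but `x` is on `M` and on no line of `T` -/
theorem Lab.q_off [Finite P] [Finite L] (h : Plane I (m ^ 2 + m)) (s : Sub I S T m)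
    {G : Subgroup (Equiv.Perm P × Equiv.Perm L)} {x q0 z : P} {l M b : L}
    (c : Lab I S T G x q0 z l M b) : ¬ I q0 b := by
  intro hqb
  have hqz : q0 ≠ z := by
    rintro rfl
    exact c.hl _ c.hq c.zl
  rcases h.uniq q0 z b M hqb c.zb c.qM c.zM with e | e
  · exact hqz e
  · exact c.hx b c.hb (e ▸ c.xM)

/-- the exterior points on `M` other than `x`: `tangent_ext` (file A3) -/
theorem Lab.card_E0 [Finite P] [Finite L] (h : Plane I (m ^ 2 + m)) (s : Sub I S T m)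
    {G : Subgroup (Equiv.Perm P × Equiv.Perm L)} {x q0 z : P} {l M b : L}
    (c : Lab I S T G x q0 z l M b) : {y | I y M ∧ Ext I T y ∧ y ≠ x}.ncard = m - 1 := by
  have hMT : M ∉ T := fun hT => c.hx M hT c.xM
  have h1 := tangent_ext h s c.hq hMT c.qM
  have h2 : {y | I y M ∧ Ext I T y ∧ y ≠ x} = {p | I p M ∧ Ext I T p} \ {x} := by
    ext y
    constructor
    · rintro ⟨a1, a2, a3⟩
      exact ⟨⟨a1, a2⟩, a3⟩
    · rintro ⟨⟨a1, a2⟩, a3⟩
      exact ⟨a1, a2, a3⟩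
  rw [h2, Set.ncard_diff_singleton_of_mem (show x ∈ {p | I p M ∧ Ext I T p} from ⟨c.xM, c.hx⟩), h1]

/-- every exterior point `y ≠ x` is `g y'` with `g ∈ G` and `y'` on `M` (the line through `x` and `y` carries a point `g q0` of `S`), for exactly one `g` -/
theorem Lab.ext_M [Finite P] [Finite L] (h : Plane I (m ^ 2 + m)) (s : Sub I S T m)
    {G : Subgroup (Equiv.Perm P × Equiv.Perm L)} {x q0 z : P} {l M b : L}
    (c : Lab I S T G x q0 z l M b) {y : P} (hy : Ext I T y) (hyx : y ≠ x) :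
    ∃! g, g ∈ G ∧ I y (g.2 M) := by
  obtain ⟨k, xk, yk⟩ := h.join x y hyx.symm
  obtain ⟨p, hp, pk⟩ := ext_line h s c.hx xk
  obtain ⟨g, hg, hgp⟩ := c.trS q0 c.hq p hp
  have hk : k = g.2 M := c.M_eq h s hg xk (by rw [hgp]; exact pk)
  refine ⟨g, ⟨hg, hk ▸ yk⟩, ?_⟩
  rintro g' ⟨hg', hy'⟩
  obtain ⟨hc', hp'⟩ := c.hG g' hg'
  have e1 : I x (g'.2 M) := by
    have := (hc' x M).2 c.xM
    rwa [c.gx g' hg'] at this
  have e2 : k = g'.2 M := by
    rcases h.uniq x y k (g'.2 M) xk yk e1 hy' with e | e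
    · exact absurd e.symm hyx
    · exact e
  have hkT : k ∉ T := fun hT => c.hx k hT xk
  have e3 : I (g'.1 q0) k := by
    rw [e2]
    exact (hc' q0 M).2 c.qM
  have e4 : g'.1 q0 = p := s.one hkT ((hp'.s q0).2 c.hq) hp e3 pk
  have hw : g⁻¹ * g' ∈ G := G.mul_mem (G.inv_mem hg) hg'
  have e5 : (g⁻¹ * g').1 q0 = q0 := by
    show g.1⁻¹ (g'.1 q0) = q0
    rw [e4, ← hgp]
    simp
  exact (inv_mul_eq_one.1 (c.regS _ hw q0 c.hq e5)).symm

end Pool.Agent.BB
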