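import Pool.Agent.Lib.MP_bbcd91_co.D4
import Pool.Agent.Lib.MP_bbcd91_co.D1

set_option autoImplicit false

/-! Row bb-D5: the difference set `D = {d ∈ G | d q0 on b}`. `A` is a copy of `G` (with a commutative group structure). -/

namespace Pool.Agent.BB

variable {P L : Type*} {I : P → L → Prop} {m n : ℕ} {S : Set P} {T : Set L}

private theorem D5_act {G : Subgroup (Equiv.Perm P × Equiv.Perm L)} {A : Type*} [CommGroup A]
    (e : A ≃* G) (a c : A) (p : P) : (e (a * c)).1.1 p = (e a).1.1 ((e c).1.1 p) := by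
  rw [map_mul]
  rfl

private theorem D5_inj {G : Subgroup (Equiv.Perm P × Equiv.Perm L)} {A : Type*} [CommGroup A]
    (e : A ≃* G) {x q0 z : P} {l M b : L} (c : Lab I S T G x q0 z l M b) :
    Function.Injective (fun a : A => (e a).1.1 q0) := by
  intro a a' h
  simp only at h
  have h1 : (e (a'⁻¹ * a)).1.1 q0 = q0 := by
    rw [D5_act, h, ← D5_act, inv_mul_cancel, map_one]
    rfl
  have h2 := c.regS (e (a'⁻¹ * a)).1 (e (a'⁻¹ * a)).2 q0 c.hq h1
  have h3 : e (a'⁻¹ * a) = 1 := Subtype.ext h2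
  have h4 : a'⁻¹ * a = 1 := by
    apply e.injective
    rw [h3, map_one]
  exact (inv_mul_eq_one.1 h4).symm

private theorem D5_mem {G : Subgroup (Equiv.Perm P × Equiv.Perm L)} {A : Type*} [CommGroup A]
    (e : A ≃* G) {x q0 z : P} {l M b : L} (c : Lab I S T G x q0 z l M b) (a : A) :
    (e a).1.1 q0 ∈ S := ((c.hG _ (e a).2).2.1 q0).2 c.hq

private theorem D5_surj {G : Subgroup (Equiv.Perm P × Equiv.Perm L)} {A : Type*} [CommGroup A]
    (e : A ≃* G) {x q0 z : P} {l M b : L} (c : Lab I S T G x q0 z l M b) {p : P} (hp : p ∈ S) :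
    ∃ a : A, (e a).1.1 q0 = p := by
  obtain ⟨g, hg, h⟩ := c.trS q0 c.hq p hp
  refine ⟨e.symm ⟨g, hg⟩, ?_⟩
  rw [MulEquiv.apply_symm_apply]
  exact h

/-- `D.card = m + 1`: `d ↦ d q0` is a bijection of `D` with the points of `S` on `b`. For `g ≠ 1` the lines `b` and `g b` are different (`regT`), meet in exactly one point of `S`, which
is `d q0` with `d ∈ D` and `g⁻¹ d ∈ D`; the pair is `(d, g⁻¹ d)`. -/
theorem Lab.pds [Finite P] [Finite L] (h : Plane I (m ^ 2 + m)) (s : Sub I S T m)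
    {G : Subgroup (Equiv.Perm P × Equiv.Perm L)} {A : Type*} [CommGroup A] (e : A ≃* G)
    {x q0 z : P} {l M b : L} (c : Lab I S T G x q0 z l M b) (D : Finset A)
    (hD : ∀ a : A, a ∈ D ↔ I ((e a).1.1 q0) b) : PDS m D := by
  classical
  have hinj := D5_inj e c
  refine ⟨?_, ?_, ?_⟩
  · let f : A → S := fun a => ⟨(e a).1.1 q0, D5_mem e c a⟩
    have hf : Function.Bijective f := by
      constructor
      · intro a a' haa
        exact hinj (congrArg Subtype.val haa)
      · rintro ⟨p, hp⟩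
        obtain ⟨a, ha⟩ := D5_surj e c hp
        exact ⟨a, Subtype.ext ha⟩
    rw [Nat.card_congr (Equiv.ofBijective f hf), ← s.cS]
    rfl
  · have h1 : ((fun a : A => (e a).1.1 q0) '' (D : Set A)) = {p | p ∈ S ∧ I p b} := by
      ext p
      constructor
      · rintro ⟨a, ha, rfl⟩
        exact ⟨D5_mem e c a, (hD a).1 ha⟩
      · rintro ⟨hp, hpb⟩
        obtain ⟨a, ha⟩ := D5_surj e c hp
        refine ⟨a, ?_, ha⟩
        rw [Finset.mem_coe, hD, ha]
        exact hpb
    have h2 := s.pt b c.hb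
    rw [← h1, Set.ncard_image_of_injective _ hinj, Set.ncard_coe_finset] at h2
    exact h2
  · intro g hg
    have hne : b ≠ (e g).1.2 b := by
      intro h1
      have h2 := c.regT (e g).1 (e g).2 b c.hb h1.symm
      have h3 : e g = 1 := Subtype.ext h2
      apply hg
      apply e.injective
      rw [h3, map_one]
    have hgT : (e g).1.2 b ∈ T := ((c.hG _ (e g).2).2.2 b).2 c.hb
    obtain ⟨p, hp1, hp2⟩ := h.meet b ((e g).1.2 b) hne
    have hpS : p ∈ S := s.mt b c.hb _ hgT hne p hp1 hp2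
    obtain ⟨d, hd⟩ := D5_surj e c hpS
    have key : ∀ a : A, I ((e (g⁻¹ * a)).1.1 q0) b ↔ I ((e a).1.1 q0) ((e g).1.2 b) := by
      intro a
      rw [← (c.hG _ (e g).2).1 ((e (g⁻¹ * a)).1.1 q0) b, ← D5_act, mul_inv_cancel_left]
    refine ⟨(d, g⁻¹ * d), ⟨?_, ?_, ?_⟩, ?_⟩
    · rw [hD, hd]
      exact hp1
    · rw [hD]
      exact (key d).2 (hd ▸ hp2)
    · simp
    · rintro ⟨a, a'⟩ ⟨h1, h2, h3⟩
      simp only at h1 h2 h3
      have h4 : a' = g⁻¹ * a := by
        rw [← h3]
        simp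
      rw [h4] at h2
      rw [hD] at h1 h2
      have h5 := (key a).1 h2
      have h6 : (e a).1.1 q0 = p := by
        rcases h.uniq _ _ _ _ h1 hp1 h5 hp2 with h7 | h7
        · exact h7
        · exact absurd h7 hne
      have h8 : a = d := hinj (by simp only; rw [h6, hd])
      rw [h4, h8]

end Pool.Agent.BB
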