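import Pool.Agent.Lib.MP_bbcd91_co.D4
import Pool.Agent.Lib.MP_bbcd91_co.D1

set_option autoImplicit false

/-! Row bb-D6: the product over the difference set is `1`.

`A` is a copy of `G` (with a commutative group structure); below `s, t, k` are elements of `A`, identified with `e s` etc.
For `y` exterior, `y ≠ x`, `y` on `M` (`m - 1` points, `card_E0`) let `θ y : A → A` be the map with: the line through `y` and `s q0` meets `l` in `(θ y s) z` (`z_surj`, `z_inj`; `y` is not on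
`l` by `ext_off`). `θ y` is injective (if `θ y s = θ y s'`, both lines are the line through `y` and `(θ y s) z`, which is not in `T` as `y` is exterior, so `s q0 = s' q0`), so bijective, and
`∏ s, s * (θ y s)⁻¹ = 1`.
For `k : G` let `N k` = number of pairs `(y, s)` with `s * (θ y s)⁻¹ = k`. (i) `k ∈ D`: `N k = 0` (with `t = θ y s`, `s = k t`: `y` is on the line through `k t q0` and `t z`, which is `t b ∈ T`). (ii)
`k = 1`: `k ^ N k = 1`. (iii) otherwise `N k = m`: let `j` be the line through `k q0` and `z` (`k q0 ≠ z` as `z` is on `l`); it is not in `T` (else it is `b`, the only line of `T` through `z ∉ S`, and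
`k ∈ D`) and `x` is not on it (else it is `k M`, which meets `l` in `k z ≠ z`); `(y, s) ↦ t⁻¹ y`, `t = k⁻¹ s`, is a bijection onto the exterior points on `j` (inverse: `w ↦ (u⁻¹ w, k u⁻¹)`, `u` from
`ext_M`), and these are `m` (`tangent_ext`). So `1 = ∏ k, k ^ N k = (∏ k ∉ D, k) ^ m` (`k = 1` does not matter), `∏ k : G, k = 1` because `G` has odd order (`k ↦ k⁻¹` pairs the elements), so
`(∏ k ∈ D, k) ^ m = 1` and `∏ k ∈ D, k = 1` as `m` is coprime to `Nat.card G = m ^ 2 + m + 1`. -/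

namespace Pool.Agent.BB

variable {P L : Type*} {I : P → L → Prop} {m n : ℕ} {S : Set P} {T : Set L}

/-- the map `θ y` -/
theorem Lab.ex_theta [Finite P] [Finite L] (h : Plane I (m ^ 2 + m)) (s : Sub I S T m)
    {G : Subgroup (Equiv.Perm P × Equiv.Perm L)} {A : Type*} [CommGroup A] (e : A ≃* G)
    {x q0 z : P} {l M b : L} (c : Lab I S T G x q0 z l M b) {y : P} (hy : Ext I T y) :
    ∃ θ : A → A, Function.Bijective θ ∧
      ∀ (g : A) (k : L), I y k → I ((e g).1.1 q0) k → I ((e (θ g)).1.1 z) k := by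
  classical
  have hfin : Finite A := Finite.of_equiv G e.symm.toEquiv
  have hqS : ∀ g : A, (e g).1.1 q0 ∈ S := fun g => ((c.hG _ (e g).2).2.s q0).2 c.hq
  have hyS : y ∉ S := hy.notMem s
  have hne : ∀ g : A, y ≠ (e g).1.1 q0 := by
    intro g hg
    exact hyS (hg ▸ hqS g)
  have hyl : ¬ I y l := c.ext_off h s hy
  have ex : ∀ g : A, ∃ t : A, ∀ k : L, I y k → I ((e g).1.1 q0) k → I ((e t).1.1 z) k := by
    intro g
    obtain ⟨kg, h1, h2⟩ := h.join y _ (hne g)
    have hkl : kg ≠ l := by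
      rintro rfl
      exact hyl h1
    obtain ⟨w, hw1, hw2⟩ := h.meet kg l hkl
    obtain ⟨γ, hγ, hγz⟩ := c.z_surj h s hw2
    refine ⟨e.symm ⟨γ, hγ⟩, ?_⟩
    intro k hk1 hk2
    have : k = kg := by
      rcases h.uniq y _ k kg hk1 hk2 h1 h2 with e1 | e1
      · exact absurd e1 (hne g)
      · exact e1
    subst this
    rw [MulEquiv.apply_symm_apply]
    show I (γ.1 z) k
    rw [hγz]
    exact hw1
  choose θ hθ using ex
  refine ⟨θ, ?_, hθ⟩
  rw [← Finite.injective_iff_bijective]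
  intro g g' hgg
  obtain ⟨k, h1, h2⟩ := h.join y _ (hne g)
  obtain ⟨k', h1', h2'⟩ := h.join y _ (hne g')
  have e1 := hθ g k h1 h2
  have e2 := hθ g' k' h1' h2'
  rw [← hgg] at e2
  have hwl : I ((e (θ g)).1.1 z) l := by
    have := ((c.hG _ (e (θ g)).2).1 z l).2 c.zl
    rwa [c.gl _ (e (θ g)).2] at this
  have hyw : y ≠ (e (θ g)).1.1 z := by
    intro h3
    exact hyl (h3 ▸ hwl)
  have hkk : k = k' := by
    rcases h.uniq y _ k k' h1 e1 h1' e2 with h3 | h3
    · exact absurd h3 hyw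
    · exact h3
  subst hkk
  have hkT : k ∉ T := fun hk => hy k hk h1
  have hq : (e g).1.1 q0 = (e g').1.1 q0 := s.one hkT (hqS g) (hqS g') h2 h2'
  have h3 : (e g').1⁻¹ * (e g).1 = 1 := by
    refine c.regS _ (G.mul_mem (G.inv_mem (e g').2) (e g).2) q0 c.hq ?_
    show (e g').1.1⁻¹ ((e g).1.1 q0) = q0
    rw [hq]
    simp
  have h4 : (e g).1 = (e g').1 := by
    have := congrArg (fun w => (e g').1 * w) h3
    simpa using this
  exact e.injective (Subtype.ext h4)

/-- the counting (i) - (iii) -/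
theorem Lab.count [Finite P] [Finite L] (h : Plane I (m ^ 2 + m)) (s : Sub I S T m)
    {G : Subgroup (Equiv.Perm P × Equiv.Perm L)} {A : Type*} [CommGroup A] (e : A ≃* G)
    {x q0 z : P} {l M b : L} (c : Lab I S T G x q0 z l M b) (θ : P → A → A)
    (hθ : ∀ y, Ext I T y → Function.Bijective (θ y) ∧
      ∀ (g : A) (k : L), I y k → I ((e g).1.1 q0) k → I ((e (θ y g)).1.1 z) k) (k : A) :
    (I ((e k).1.1 q0) b → {w : P × A | (I w.1 M ∧ Ext I T w.1 ∧ w.1 ≠ x) ∧
      w.2 * (θ w.1 w.2)⁻¹ = k}.ncard = 0) ∧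
    (¬ I ((e k).1.1 q0) b → k ≠ 1 → {w : P × A | (I w.1 M ∧ Ext I T w.1 ∧ w.1 ≠ x) ∧
      w.2 * (θ w.1 w.2)⁻¹ = k}.ncard = m) := by
  classical
  have hqS : ∀ g : A, (e g).1.1 q0 ∈ S := fun g => ((c.hG _ (e g).2).2.s q0).2 c.hq
  have hmul : ∀ (a a' : A) (p : P), (e (a * a')).1.1 p = (e a).1.1 ((e a').1.1 p) := by
    intro a a' p
    rw [map_mul]
    rfl
  have hinv : ∀ (a : A) (p : P), (e a⁻¹).1.1 ((e a).1.1 p) = p := by
    intro a p
    rw [← hmul, inv_mul_cancel, map_one]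
    rfl
  have hinv' : ∀ (a : A) (p : P), (e a).1.1 ((e a⁻¹).1.1 p) = p := by
    intro a p
    rw [← hmul, mul_inv_cancel, map_one]
    rfl
  have hcomm : ∀ (a a' : A) (p : P), (e a).1.1 ((e a').1.1 p) = (e a').1.1 ((e a).1.1 p) := by
    intro a a' p
    rw [← hmul, ← hmul, mul_comm]
  have hcol : ∀ (a : A), Col I (e a).1 := fun a => (c.hG _ (e a).2).1
  have hpres : ∀ (a : A), Pres S T (e a).1 := fun a => (c.hG _ (e a).2).2
  have hzl : ∀ a : A, I ((e a).1.1 z) l := by
    intro a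
    have := (hcol a z l).2 c.zl
    rwa [c.gl _ (e a).2] at this
  have hnotl : ∀ (k : L) (a : A), I ((e a).1.1 q0) k → k ≠ l := by
    rintro k a hk rfl
    exact c.hl _ (hqS a) hk
  have hzS : ∀ a : A, (e a).1.1 z ∉ S := fun a ha => c.hl _ ha (hzl a)
  have hqz : ∀ a a' : A, (e a).1.1 q0 ≠ (e a').1.1 z := by
    intro a a' ha
    exact hzS a' (ha ▸ hqS a)
  have hz1 : (e 1).1.1 z = z := by rw [map_one]; rfl
  have hyS : ∀ y : P, Ext I T y → ∀ g : A, y ≠ (e g).1.1 q0 := by
    intro y hy g hg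
    exact hy.notMem s (hg ▸ hqS g)
  constructor
  · intro hkb
    have hempty : {w : P × A | (I w.1 M ∧ Ext I T w.1 ∧ w.1 ≠ x) ∧
      w.2 * (θ w.1 w.2)⁻¹ = k} = ∅ := by
      rw [Set.eq_empty_iff_forall_notMem]
      rintro ⟨y, g⟩ ⟨⟨-, hy, -⟩, hk⟩
      simp only at hy hk
      obtain ⟨kk, h1, h2⟩ := h.join y _ (hyS y hy g)
      have h3 := (hθ y hy).2 g kk h1 h2
      set t := θ y g with ht
      have hg : g = t * k := by rw [← hk]; rw [mul_comm]; simp
      have h4 : I ((e g).1.1 q0) ((e t).1.2 b) := by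
        rw [hg, hmul]
        exact (hcol t _ b).2 hkb
      have h5 : I ((e t).1.1 z) ((e t).1.2 b) := (hcol t _ b).2 c.zb
      have h6 : kk = (e t).1.2 b := by
        rcases h.uniq _ _ kk _ h2 h3 h4 h5 with h7 | h7
        · exact absurd h7 (hqz _ _)
        · exact h7
      exact hy kk (h6 ▸ ((hpres t).t b).2 c.hb) h1
    rw [hempty, Set.ncard_empty]
  · intro hkb hk1
    obtain ⟨j, hj1, hj2⟩ := h.join ((e k).1.1 q0) z (by
      have := hqz k 1
      rwa [hz1] at this)
    have hzS' : z ∉ S := by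
      have := hzS 1
      rwa [hz1] at this
    have hjT : j ∉ T := by
      intro hj
      have : j = b := s.one' hzS' hj c.hb hj2 c.zb
      exact hkb (this ▸ hj1)
    have hxj : ¬ I x j := by
      intro hx
      have h1 : j = (e k).1.2 M := c.M_eq h s (e k).2 hx hj1
      have h2 : I ((e k).1.1 z) j := by
        rw [h1]
        exact (hcol k z M).2 c.zM
      have h3 : j ≠ l := hnotl j k hj1
      have h4 : (e k).1.1 z = z := by
        rcases h.uniq _ _ j l h2 hj2 (hzl k) c.zl with h5 | h5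
        · exact h5
        · exact absurd h5 h3
      have h5 : (e k).1 = (1 : Equiv.Perm P × Equiv.Perm L) :=
        c.z_inj h s (e k).2 G.one_mem (by rw [h4]; rfl)
      apply hk1
      apply e.injective
      rw [map_one]
      exact Subtype.ext h5
    rw [← tangent_ext h s (hqS k) hjT hj1]
    refine Set.ncard_congr (fun w _ => (e (k⁻¹ * w.2)⁻¹).1.1 w.1) ?_ ?_ ?_
    · rintro ⟨y, g⟩ ⟨⟨-, hy, -⟩, hk⟩
      simp only at hy hk ⊢
      obtain ⟨kk, h1, h2⟩ := h.join y _ (hyS y hy g)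
      have h3 := (hθ y hy).2 g kk h1 h2
      have ht : θ y g = k⁻¹ * g := by
        rw [← hk]; simp
      rw [ht] at h3
      set t := k⁻¹ * g with ht'
      have hg : g = t * k := by rw [ht', mul_comm]; simp
      refine ⟨?_, ?_⟩
      · -- t⁻¹ kk = j
        have h4 : I ((e t⁻¹).1.1 y) ((e t⁻¹).1.2 kk) := (hcol _ _ _).2 h1
        have h5 : I ((e k).1.1 q0) ((e t⁻¹).1.2 kk) := by
          have := (hcol t⁻¹ _ _).2 h2
          rwa [hg, hmul, hinv] at this
        have h6 : I z ((e t⁻¹).1.2 kk) := by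
          have := (hcol t⁻¹ _ _).2 h3
          rwa [hinv] at this
        have h7 : (e t⁻¹).1.2 kk = j := by
          rcases h.uniq _ _ _ j h5 h6 hj1 hj2 with h8 | h8
          · exfalso
            have := hqz k 1
            rw [hz1] at this
            exact this h8
          · exact h8
        rw [h7] at h4
        exact h4
      · exact (hpres t⁻¹).ext (hcol _) hy
    · rintro ⟨y, g⟩ ⟨y', g'⟩ ⟨⟨hyM, hy, hyx⟩, hk⟩ ⟨⟨hyM', hy', hyx'⟩, hk'⟩ heq
      simp only at hy hk hy' hk' heq hyM hyM' hyx hyx'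
      set t := k⁻¹ * g with ht
      set t' := k⁻¹ * g' with ht'
      have hw : Ext I T ((e t⁻¹).1.1 y) := (hpres t⁻¹).ext (hcol _) hy
      have hwx : (e t⁻¹).1.1 y ≠ x := by
        intro h1
        have h2 := congrArg (e t).1.1 h1
        rw [hinv', c.gx _ (e t).2] at h2
        exact hyx h2
      obtain ⟨u, -, hu⟩ := c.ext_M h s hw hwx
      have h1 : I ((e t⁻¹).1.1 y) ((e t⁻¹).1.2 M) := (hcol _ _ _).2 hyM
      have h2 : I ((e t⁻¹).1.1 y) ((e t'⁻¹).1.2 M) := by
        rw [heq]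
        exact (hcol _ _ _).2 hyM'
      have h3 : (e t⁻¹).1 = u := hu _ ⟨(e t⁻¹).2, h1⟩
      have h4 : (e t'⁻¹).1 = u := hu _ ⟨(e t'⁻¹).2, h2⟩
      have h5 : t⁻¹ = t'⁻¹ := e.injective (Subtype.ext (h3.trans h4.symm))
      have h6 : t = t' := inv_injective h5
      have h7 : g = g' := by
        have : k⁻¹ * g = k⁻¹ * g' := h6
        exact mul_left_cancel this
      have h8 : y = y' := by
        rw [← h6] at heq
        have := congrArg (e t).1.1 heq
        rwa [hinv', hinv'] at this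
      rw [h7, h8]
    · rintro w ⟨hwj, hw⟩
      have hwx : w ≠ x := by
        rintro rfl
        exact hxj hwj
      obtain ⟨u, ⟨huG, hu⟩, -⟩ := c.ext_M h s hw hwx
      obtain ⟨a, ha⟩ : ∃ a : A, (e a).1 = u := ⟨e.symm ⟨u, huG⟩, by simp⟩
      -- t = a⁻¹
      set y : P := (e a⁻¹).1.1 w with hy
      have hyE : Ext I T y := (hpres a⁻¹).ext (hcol _) hw
      have hyM : I y M := by
        have h1 : I w ((e a).1.2 M) := by rw [ha]; exact hu
        have h2 : I ((e a).1.1 y) ((e a).1.2 M) := by rw [hy, hinv']; exact h1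
        exact (hcol a _ _).1 h2
      have hyx : y ≠ x := by
        intro h1
        have h2 := congrArg (e a).1.1 h1
        rw [hy, hinv', c.gx _ (e a).2] at h2
        exact hwx h2
      have hθt : θ y (k * a⁻¹) = a⁻¹ := by
        have h1 : I y ((e a⁻¹).1.2 j) := (hcol _ _ _).2 hwj
        have h2 : I ((e (k * a⁻¹)).1.1 q0) ((e a⁻¹).1.2 j) := by
          rw [mul_comm, hmul]
          exact (hcol _ _ _).2 hj1
        have h3 := (hθ y hyE).2 (k * a⁻¹) _ h1 h2
        have h4 : I ((e a⁻¹).1.1 z) ((e a⁻¹).1.2 j) := (hcol _ _ _).2 hj2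
        have h5 : (e a⁻¹).1.2 j ≠ l := hnotl _ _ h2
        have h6 : (e (θ y (k * a⁻¹))).1.1 z = (e a⁻¹).1.1 z := by
          rcases h.uniq _ _ _ l h3 h4 (hzl _) (hzl _) with h7 | h7
          · exact h7
          · exact absurd h7 h5
        have h7 := c.z_inj h s (e (θ y (k * a⁻¹))).2 (e a⁻¹).2 h6
        exact e.injective (Subtype.ext h7)
      refine ⟨(y, k * a⁻¹), ⟨⟨hyM, hyE, hyx⟩, ?_⟩, ?_⟩
      · show k * a⁻¹ * (θ y (k * a⁻¹))⁻¹ = k
        rw [hθt]
        simp
      · show (e (k⁻¹ * (k * a⁻¹))⁻¹).1.1 y = w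
        rw [inv_mul_cancel_left, inv_inv, hy, hinv']

end Pool.Agent.BB
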