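import Pool.Agent.Lib.MP_bbcd91_co.D5
import Pool.Agent.Lib.MP_bbcd91_co.D6
import Pool.Agent.Lib.MP_bbcd91_co.D2

set_option autoImplicit false

/-! Row bb-D7: the product over the difference set is `1`; conclusion. -/

namespace Pool.Agent.BB

variable {P L : Type*} {I : P → L → Prop} {m n : ℕ} {S : Set P} {T : Set L}

private theorem D7_root {A : Type*} [Group A] [Finite A] {N k : ℕ} (hA : Nat.card A = N)
    (hk : Nat.Coprime k N) {g : A} (hg : g ^ k = 1) : g = 1 := by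
  have h1 : orderOf g ∣ k := orderOf_dvd_of_pow_eq_one hg
  have h2 : orderOf g ∣ N := hA ▸ orderOf_dvd_natCard g
  have h3 : orderOf g ∣ Nat.gcd k N := Nat.dvd_gcd h1 h2
  rw [Nat.Coprime.gcd_eq_one hk] at h3
  exact orderOf_eq_one_iff.1 (Nat.dvd_one.1 h3)

private theorem D7_copr (m : ℕ) : Nat.Coprime m (m ^ 2 + m + 1) := by
  have e : m ^ 2 + m + 1 = 1 + m * (m + 1) := by ring
  rw [e]
  simp

private theorem D7_two (m : ℕ) : Nat.Coprime 2 (m ^ 2 + m + 1) := by
  obtain ⟨r, hr⟩ := Nat.even_mul_succ_self m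
  have e : m ^ 2 + m + 1 = 2 * r + 1 := by nlinarith
  rw [e]
  simp

private theorem D7_univ {A : Type*} [CommGroup A] [Fintype A] (hA : Nat.Coprime 2 (Nat.card A)) :
    ∏ k : A, k = 1 := by
  have h1 : ∏ k : A, k⁻¹ = ∏ k : A, k := Equiv.prod_comp (Equiv.inv A) (fun k => k)
  rw [Finset.prod_inv_distrib] at h1
  refine D7_root rfl hA ?_
  rw [pow_two]
  nth_rewrite 1 [← h1]
  exact inv_mul_cancel _

/-- see the header of file D6: `θ` by choice from `ex_theta`, then `count` -/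
theorem Lab.prod_eq_one [Finite P] [Finite L] (h : Plane I (m ^ 2 + m)) (s : Sub I S T m)
    {G : Subgroup (Equiv.Perm P × Equiv.Perm L)} {A : Type*} [CommGroup A] (e : A ≃* G)
    {x q0 z : P} {l M b : L} (c : Lab I S T G x q0 z l M b) (D : Finset A)
    (hD : ∀ a : A, a ∈ D ↔ I ((e a).1.1 q0) b) : ∏ d ∈ D, d = 1 := by
  classical
  have : Finite A := Finite.of_equiv G e.symm.toEquiv
  have := Fintype.ofFinite A
  have := Fintype.ofFinite P
  have hcomm : ∀ g ∈ G, ∀ k ∈ G, g * k = k * g := by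
    intro g hg k hk
    obtain ⟨a, ha⟩ := e.surjective ⟨g, hg⟩
    obtain ⟨a', ha'⟩ := e.surjective ⟨k, hk⟩
    have h1 : e (a * a') = e (a' * a) := by rw [mul_comm]
    rw [map_mul, map_mul, ha, ha'] at h1
    exact congrArg Subtype.val h1
  have hA : Nat.card A = m ^ 2 + m + 1 := by
    rw [Nat.card_congr e.toEquiv]
    exact cardG h s c.hG hcomm c.trS
  have hex : ∀ y, ∃ θ : A → A, Ext I T y → (Function.Bijective θ ∧
      ∀ (g : A) (k : L), I y k → I ((e g).1.1 q0) k → I ((e (θ g)).1.1 z) k) := by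
    intro y
    by_cases hy : Ext I T y
    · obtain ⟨θ, h1⟩ := Lab.ex_theta h s e c hy
      exact ⟨θ, fun _ => h1⟩
    · exact ⟨id, fun h' => absurd h' hy⟩
  choose θ hθ using hex
  let E0 : Finset P := Finset.univ.filter (fun y => I y M ∧ Ext I T y ∧ y ≠ x)
  have hE0 : ∀ y, y ∈ E0 ↔ (I y M ∧ Ext I T y ∧ y ≠ x) := by
    intro y
    simp [E0]
  let W : Finset (P × A) := E0 ×ˢ Finset.univ
  have h1 : ∏ w ∈ W, w.2 * (θ w.1 w.2)⁻¹ = 1 := by
    show ∏ w ∈ E0 ×ˢ Finset.univ, w.2 * (θ w.1 w.2)⁻¹ = 1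
    rw [Finset.prod_product]
    apply Finset.prod_eq_one
    intro y hy
    have hb := (hθ y ((hE0 y).1 hy).2.1).1
    show ∏ g : A, g * (θ y g)⁻¹ = 1
    rw [Finset.prod_mul_distrib, Finset.prod_inv_distrib]
    have h2 : ∏ g : A, θ y g = ∏ g : A, g := Function.Bijective.prod_comp hb (fun g => g)
    rw [h2, mul_inv_cancel]
  have h2 : ∏ w ∈ W, w.2 * (θ w.1 w.2)⁻¹ =
      ∏ k : A, k ^ (W.filter (fun w => w.2 * (θ w.1 w.2)⁻¹ = k)).card := by
    rw [← Finset.prod_fiberwise W (fun w => w.2 * (θ w.1 w.2)⁻¹)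
      (fun w => w.2 * (θ w.1 w.2)⁻¹)]
    refine Finset.prod_congr rfl fun k _ => ?_
    rw [← Finset.prod_const]
    refine Finset.prod_congr rfl fun w hw => ?_
    exact (Finset.mem_filter.1 hw).2
  have h3 : ∀ k, (W.filter (fun w => w.2 * (θ w.1 w.2)⁻¹ = k)).card =
      {w : P × A | (I w.1 M ∧ Ext I T w.1 ∧ w.1 ≠ x) ∧ w.2 * (θ w.1 w.2)⁻¹ = k}.ncard := by
    intro k
    rw [← Set.ncard_coe_finset]
    congr 1
    ext w
    rw [Finset.mem_coe, Finset.mem_filter]
    show (w ∈ E0 ×ˢ Finset.univ ∧ _) ↔ _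
    rw [Finset.mem_product, hE0]
    simp
  have h4 : ∏ k : A, k ^ (W.filter (fun w => w.2 * (θ w.1 w.2)⁻¹ = k)).card =
      (∏ k : A, if k ∈ D then 1 else k) ^ m := by
    rw [← Finset.prod_pow]
    refine Finset.prod_congr rfl fun k _ => ?_
    obtain ⟨c1, c2⟩ := Lab.count h s e c θ hθ k
    rw [h3]
    by_cases hk : k ∈ D
    · rw [c1 ((hD k).1 hk), if_pos hk]
      simp
    · rw [if_neg hk]
      by_cases hk1 : k = 1
      · rw [hk1, one_pow, one_pow]
      · rw [c2 (fun h' => hk ((hD k).2 h')) hk1]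
  have h5 : (∏ d ∈ D, d) * (∏ k : A, if k ∈ D then 1 else k) = 1 := by
    have h6 : ∏ d ∈ D, d = ∏ k : A, if k ∈ D then k else 1 := by
      rw [Finset.prod_ite_mem, Finset.univ_inter]
    rw [h6, ← Finset.prod_mul_distrib]
    refine Eq.trans (Finset.prod_congr rfl fun k _ => ?_)
      (D7_univ (A := A) (by rw [hA]; exact D7_two m))
    by_cases hk : k ∈ D
    · rw [if_pos hk, if_pos hk, mul_one]
    · rw [if_neg hk, if_neg hk, one_mul]
  rw [h2, h4] at h1
  refine D7_root hA (D7_copr m) ?_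
  have h7 : ∏ d ∈ D, d = (∏ k : A, if k ∈ D then 1 else k)⁻¹ := eq_inv_of_mul_eq_one_left h5
  rw [h7, inv_pow, h1, inv_one]

/-- `A := G` with the commutative group structure from `hcomm`, `e := MulEquiv.refl G`; `ex_lab` (file D4), `prod_eq_one`, `pds`, `one_mem` (file D2) and `q_off` -/
theorem no_singer [Finite P] [Finite L] (h : Plane I (m ^ 2 + m)) (s : Sub I S T m)
    (h3 : 3 ∣ m) {G : Subgroup (Equiv.Perm P × Equiv.Perm L)}
    (hG : ∀ g ∈ G, Col I g ∧ Pres S T g) (hcomm : ∀ g ∈ G, ∀ k ∈ G, g * k = k * g)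
    (htr : ∀ p ∈ S, ∀ q ∈ S, ∃ g ∈ G, g.1 p = q) : False := by
  classical
  obtain ⟨x, q0, z, l, M, b, c⟩ := ex_lab h s hG hcomm htr
  let cg : CommGroup G :=
    { (inferInstance : Group G) with
      mul_comm := fun a b => Subtype.ext (hcomm a a.2 b b.2) }
  have : Finite G := inferInstance
  have := Fintype.ofFinite G
  let e : G ≃* G := MulEquiv.refl G
  let D : Finset G := Finset.univ.filter (fun a => I (a.1.1 q0) b)
  have hD : ∀ a : G, a ∈ D ↔ I ((e a).1.1 q0) b := by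
    intro a
    simp [D, e]
  have h1 := Lab.prod_eq_one h s e c D hD
  have h2 := Lab.pds h s e c D hD
  have h4 := one_mem h2 s.two h3 h1
  have h5 := (hD 1).1 h4
  refine Lab.q_off h s c ?_
  have h6 : (e 1) = 1 := map_one e
  rw [h6] at h5
  exact h5

end Pool.Agent.BB
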