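import Pool.Agent.Lib.MP_bbcd91_co.B3
import Pool.Agent.Lib.MP_bbcd91_co.A8

set_option autoImplicit false

namespace Pool.Agent.BB

/-- fixed points of a `p`-group modulo `p` -/
theorem fix_mod {A X : Type*} [Group A] [Finite A] [Finite X] (φ : A →* Equiv.Perm X)
    (Y : Set X) (hY : ∀ g, ∀ x ∈ Y, φ g x ∈ Y) {p k : ℕ} [Fact p.Prime]
    (hA : Nat.card A = p ^ k) :
    Y.ncard ≡ {y | y ∈ Y ∧ ∀ g, φ g y = y}.ncard [MOD p] := by
  classical
  letI : MulAction A Y :=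
    { smul := fun g y => ⟨φ g y, hY g y y.2⟩
      one_smul := fun y => Subtype.ext (by
        show φ 1 y.1 = y.1
        rw [map_one]
        rfl)
      mul_smul := fun g k y => Subtype.ext (by
        show φ (g * k) y.1 = φ g (φ k y.1)
        rw [map_mul]
        rfl) }
  have h1 := (IsPGroup.of_card hA).card_modEq_card_fixedPoints (α := Y)
  have h2 : Nat.card Y = Y.ncard := Nat.card_coe_set_eq Y
  have h3 : Nat.card (MulAction.fixedPoints A Y) = {y | y ∈ Y ∧ ∀ g, φ g y = y}.ncard := by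
    rw [Nat.card_coe_set_eq, ← Set.ncard_image_of_injective _ Subtype.val_injective]
    congr 1
    ext y
    constructor
    · rintro ⟨z, hz, rfl⟩
      exact ⟨z.2, fun g => congrArg Subtype.val (hz g)⟩
    · rintro ⟨hy, hz⟩
      exact ⟨⟨y, hy⟩, fun g => Subtype.ext (hz g), rfl⟩
  rwa [h2, h3] at h1

/-- a small orbit of a `p`-group -/
theorem min_orb {A X : Type*} [Group A] [Finite A] [Finite X] (φ : A →* Equiv.Perm X)
    (Y : Set X) (hY : ∀ g, ∀ x ∈ Y, φ g x ∈ Y) {p k : ℕ} [hp : Fact p.Prime]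
    (hA : Nat.card A = p ^ k) (hne : Y.Nonempty) :
    ∃ y ∈ Y, Nat.card A ∣ Nat.card {g : A // φ g y = y} * Y.ncard := by
  classical
  by_contra hcon
  push Not at hcon
  obtain ⟨y0, hy0⟩ := hne
  have hY0 : Y.ncard ≠ 0 := Set.ncard_ne_zero_of_mem hy0 (Set.toFinite _)
  obtain ⟨a, u, hu, hYa⟩ := Nat.exists_eq_pow_mul_and_not_dvd hY0 p hp.out.ne_one
  have h1 : p ^ (a + 1) ∣ Y.ncard := by
    refine orb_dvd φ Y hY _ (fun x hx => ?_)
    have h2 : Nat.card {g : A // φ g x = x} ∣ Nat.card A :=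
      Subgroup.card_subgroup_dvd_card ((MulAction.stabilizer (Equiv.Perm X) x).comap φ)
    rw [hA] at h2
    obtain ⟨s, -, hs⟩ := (Nat.dvd_prime_pow hp.out).1 h2
    have h3 := hcon x hx
    rw [hA, hs, hYa] at h3
    have h4 : s + a < k := by
      by_contra hlt
      push Not at hlt
      exact h3 ((pow_dvd_pow p hlt).trans ⟨u, by rw [pow_add]; ring⟩)
    rw [hs, hA, ← pow_add]
    exact pow_dvd_pow p (by omega)
  rw [hYa, pow_succ] at h1
  exact hu (Nat.dvd_of_mul_dvd_mul_left (pow_pos hp.out.pos a) h1)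

variable {P L : Type*} {I : P → L → Prop} {m n p k : ℕ} {S : Set P} {T : Set L}

theorem fixP_mod [Finite P] [Finite L] [Fact p.Prime]
    (B : Subgroup (Equiv.Perm P × Equiv.Perm L)) (hk : Nat.card B = p ^ k) (Y : Set P)
    (hY : ∀ g ∈ B, ∀ y ∈ Y, g.1 y ∈ Y) :
    Y.ncard ≡ (Y ∩ FPs (B : Set (Equiv.Perm P × Equiv.Perm L))).ncard [MOD p] := by
  have h1 := fix_mod ((MonoidHom.fst (Equiv.Perm P) (Equiv.Perm L)).comp B.subtype) Y
    (fun g y hy => hY g g.2 y hy) hk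
  have h2 : {y | y ∈ Y ∧ ∀ g : B,
      ((MonoidHom.fst (Equiv.Perm P) (Equiv.Perm L)).comp B.subtype) g y = y} =
      Y ∩ FPs (B : Set (Equiv.Perm P × Equiv.Perm L)) := by
    ext y
    constructor
    · rintro ⟨h3, h4⟩
      exact ⟨h3, fun g hg => h4 ⟨g, hg⟩⟩
    · rintro ⟨h3, h4⟩
      exact ⟨h3, fun g => h4 g.1 g.2⟩
  rwa [h2] at h1

theorem fixL_mod [Finite P] [Finite L] [Fact p.Prime]
    (B : Subgroup (Equiv.Perm P × Equiv.Perm L)) (hk : Nat.card B = p ^ k) (Y : Set L)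
    (hY : ∀ g ∈ B, ∀ y ∈ Y, g.2 y ∈ Y) :
    Y.ncard ≡ (Y ∩ FLs (B : Set (Equiv.Perm P × Equiv.Perm L))).ncard [MOD p] := by
  have h1 := fix_mod ((MonoidHom.snd (Equiv.Perm P) (Equiv.Perm L)).comp B.subtype) Y
    (fun g y hy => hY g g.2 y hy) hk
  have h2 : {y | y ∈ Y ∧ ∀ g : B,
      ((MonoidHom.snd (Equiv.Perm P) (Equiv.Perm L)).comp B.subtype) g y = y} =
      Y ∩ FLs (B : Set (Equiv.Perm P × Equiv.Perm L)) := by
    ext y
    constructor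
    · rintro ⟨h3, h4⟩
      exact ⟨h3, fun g hg => h4 ⟨g, hg⟩⟩
    · rintro ⟨h3, h4⟩
      exact ⟨h3, fun g => h4 g.1 g.2⟩
  rwa [h2] at h1

/-- a stabiliser of small index -/
theorem stepP [Finite P] [Finite L] [hp : Fact p.Prime]
    (H : Subgroup (Equiv.Perm P × Equiv.Perm L)) (hk : Nat.card H = p ^ k) (Y : Set P)
    (hY : ∀ g ∈ H, ∀ y ∈ Y, g.1 y ∈ Y) (hne : Y.Nonempty) :
    ∃ y ∈ Y, ∃ B ≤ H, (∀ g ∈ B, g.1 y = y) ∧ (∃ j, Nat.card B = p ^ j) ∧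
      Nat.card H ∣ Nat.card B * Y.ncard := by
  obtain ⟨y, hy, h1⟩ := min_orb ((MonoidHom.fst (Equiv.Perm P) (Equiv.Perm L)).comp H.subtype) Y
    (fun g y hy => hY g g.2 y hy) hk hne
  set B : Subgroup (Equiv.Perm P × Equiv.Perm L) :=
    H ⊓ (MulAction.stabilizer (Equiv.Perm P) y).comap
      (MonoidHom.fst (Equiv.Perm P) (Equiv.Perm L)) with hB
  have hBH : B ≤ H := inf_le_left
  have hmem : ∀ g, g ∈ B ↔ g ∈ H ∧ g.1 y = y := fun g => Iff.rfl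
  have h2 : Nat.card {g : H // ((MonoidHom.fst (Equiv.Perm P) (Equiv.Perm L)).comp H.subtype) g y
      = y} = Nat.card B := by
    refine Nat.card_congr ⟨fun g => ⟨g.1.1, (hmem _).2 ⟨g.1.2, g.2⟩⟩,
      fun g => ⟨⟨g.1, ((hmem _).1 g.2).1⟩, ((hmem _).1 g.2).2⟩, fun g => rfl, fun g => rfl⟩
  rw [h2] at h1
  refine ⟨y, hy, B, hBH, fun g hg => ((hmem g).1 hg).2, ?_, h1⟩
  have h3 := Subgroup.card_dvd_of_le hBH
  rw [hk] at h3
  obtain ⟨j, -, hj⟩ := (Nat.dvd_prime_pow hp.out).1 h3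
  exact ⟨j, hj⟩

section counts

variable [Finite P] [Finite L] [Fact p.Prime] {B : Subgroup (Equiv.Perm P × Equiv.Perm L)}

theorem cnt_S (s : Sub I S T m) (hB : ∀ g ∈ B, Col I g ∧ Pres S T g) (hk : Nat.card B = p ^ k) :
    m ^ 2 + m + 1 ≡ (S ∩ FPs (B : Set (Equiv.Perm P × Equiv.Perm L))).ncard [MOD p] := by
  have := fixP_mod B hk S (fun g hg y hy => ((hB g hg).2.s y).2 hy)
  rwa [s.cS] at this

theorem cnt_T (s : Sub I S T m) (hB : ∀ g ∈ B, Col I g ∧ Pres S T g) (hk : Nat.card B = p ^ k) :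
    m ^ 2 + m + 1 ≡ (T ∩ FLs (B : Set (Equiv.Perm P × Equiv.Perm L))).ncard [MOD p] := by
  have := fixL_mod B hk T (fun g hg y hy => ((hB g hg).2.t y).2 hy)
  rwa [s.cT] at this

theorem cnt_line (s : Sub I S T m) (hB : ∀ g ∈ B, Col I g ∧ Pres S T g)
    (hk : Nat.card B = p ^ k) {l : L} (hl : l ∈ T)
    (hlF : l ∈ FLs (B : Set (Equiv.Perm P × Equiv.Perm L))) :
    m + 1 ≡ ({q | q ∈ S ∧ I q l} ∩ FPs (B : Set (Equiv.Perm P × Equiv.Perm L))).ncard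
      [MOD p] := by
  have := fixP_mod B hk {q | q ∈ S ∧ I q l} (fun g hg y hy => by
    refine ⟨((hB g hg).2.s y).2 hy.1, ?_⟩
    have h1 := ((hB g hg).1 y l).2 hy.2
    rwa [hlF g hg] at h1)
  rwa [s.pt l hl] at this

theorem cnt_point (s : Sub I S T m) (hB : ∀ g ∈ B, Col I g ∧ Pres S T g)
    (hk : Nat.card B = p ^ k) {c : P} (hc : c ∈ S)
    (hcF : c ∈ FPs (B : Set (Equiv.Perm P × Equiv.Perm L))) :
    m + 1 ≡ ({l | l ∈ T ∧ I c l} ∩ FLs (B : Set (Equiv.Perm P × Equiv.Perm L))).ncard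
      [MOD p] := by
  have := fixL_mod B hk {l | l ∈ T ∧ I c l} (fun g hg y hy => by
    refine ⟨((hB g hg).2.t y).2 hy.1, ?_⟩
    have h1 := ((hB g hg).1 c y).2 hy.2
    rwa [hcF g hg] at h1)
  rwa [s.ln c hc] at this

theorem cnt_ext (h : Plane I (m ^ 2 + m)) (s : Sub I S T m)
    (hB : ∀ g ∈ B, Col I g ∧ Pres S T g) (hk : Nat.card B = p ^ k) :
    m ^ 3 ≡ ({x | Ext I T x} ∩ FPs (B : Set (Equiv.Perm P × Equiv.Perm L))).ncard [MOD p] := by
  have := fixP_mod B hk {x | Ext I T x} (fun g hg y hy => (hB g hg).2.ext (hB g hg).1 hy)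
  rwa [card_ext h s] at this

end counts

theorem three_off {W : Set P} (hW : W.Finite) (h3 : 3 ≤ W.ncard) (o : P) :
    ∃ b ∈ W, ∃ c ∈ W, b ≠ c ∧ b ≠ o ∧ c ≠ o := by
  have c3 := Set.le_ncard_sdiff ({o} : Set P) W (Set.toFinite _)
  rw [Set.ncard_singleton] at c3
  obtain ⟨b, c, hb, hc, hbc⟩ := (Set.one_lt_ncard_iff (hW.subset Set.sdiff_subset)).1 (by omega :
      1 < (W \ {o}).ncard)
  exact ⟨b, hb.1, c, hc.1, hbc, hb.2, hc.2⟩

theorem one_off {W : Set P} (hW : W.Finite) (h3 : 3 ≤ W.ncard) (o w : P) :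
    ∃ b ∈ W, b ≠ o ∧ b ≠ w := by
  obtain ⟨b, hb, c, hc, hbc, hbo, hco⟩ := three_off hW h3 o
  by_cases h : b = w
  · exact ⟨c, hc, hco, fun e => hbc (h.trans e.symm)⟩
  · exact ⟨b, hb, hbo, h⟩

end Pool.Agent.BB
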