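import Pool.Agent.Lib.MP_bbcd91_co.E1

set_option autoImplicit false

namespace Pool.Agent.BB

variable {P L : Type} {I : P → L → Prop} {m p k : ℕ} {S : Set P} {T : Set L}

/-- a group fixing a quadrangle of the subplane and an exterior point is trivial if there is no
smaller example -/
theorem star [Finite P] [Finite L] (h : Plane I (m ^ 2 + m)) (s : Sub I S T m)
    (hmin : ∀ k < m, ¬ Extremal k) {B : Subgroup (Equiv.Perm P × Equiv.Perm L)}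
    (hB : ∀ g ∈ B, Col I g ∧ Pres S T g) {x : P} (hx : Ext I T x)
    (hxB : x ∈ FPs (B : Set (Equiv.Perm P × Equiv.Perm L))) {l1 l2 : L} {o b1 c1 b2 c2 : P}
    (h12 : l1 ≠ l2) (ho1 : I o l1) (ho2 : I o l2)
    (hb1 : b1 ∈ {q | q ∈ S ∧ I q l1} ∩ FPs (B : Set (Equiv.Perm P × Equiv.Perm L)))
    (hc1 : c1 ∈ {q | q ∈ S ∧ I q l1} ∩ FPs (B : Set (Equiv.Perm P × Equiv.Perm L)))
    (hb2 : b2 ∈ {q | q ∈ S ∧ I q l2} ∩ FPs (B : Set (Equiv.Perm P × Equiv.Perm L)))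
    (hc2 : c2 ∈ {q | q ∈ S ∧ I q l2} ∩ FPs (B : Set (Equiv.Perm P × Equiv.Perm L)))
    (hbc1 : b1 ≠ c1) (hbo1 : b1 ≠ o) (hco1 : c1 ≠ o) (hbc2 : b2 ≠ c2) (hbo2 : b2 ≠ o)
    (hco2 : c2 ≠ o) : Nat.card B = 1 := by
  by_contra hcard
  have hne : ∃ g ∈ (B : Set (Equiv.Perm P × Equiv.Perm L)), g ≠ 1 := by
    by_contra hcon
    push Not at hcon
    apply hcard
    have : B = ⊥ := by
      rw [eq_bot_iff]
      intro g hg
      exact Subgroup.mem_bot.2 (hcon g hg)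
    rw [this, Subgroup.card_bot]
  obtain ⟨q1, q2, q3, q4⟩ := quad_of h h12 ho1 ho2 hb1.1.2 hc1.1.2 hb2.1.2 hc2.1.2 hbc1 hbo1 hco1
    hbc2 hbo2 hco2
  obtain ⟨k, f, hk, -, -, -, hex⟩ := core h s hB hne (a := b1) (b := c1) (c := b2) (d := c2)
    ⟨hb1.1.1, hb1.2⟩ ⟨hc1.1.1, hc1.2⟩ ⟨hb2.1.1, hb2.2⟩ ⟨hc2.1.1, hc2.2⟩ q1 q2 q3 q4
  exact hmin k hk (hex ⟨x, hx, hxB⟩).2

section

variable [Finite P] [Finite L] [hp : Fact p.Prime]

theorem sub_fps {B H : Subgroup (Equiv.Perm P × Equiv.Perm L)} (hBH : B ≤ H) {x : P}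
    (hx : x ∈ FPs (H : Set (Equiv.Perm P × Equiv.Perm L))) :
    x ∈ FPs (B : Set (Equiv.Perm P × Equiv.Perm L)) := fun g hg => hx g (hBH hg)

theorem sub_fls {B H : Subgroup (Equiv.Perm P × Equiv.Perm L)} (hBH : B ≤ H) {x : L}
    (hx : x ∈ FLs (H : Set (Equiv.Perm P × Equiv.Perm L))) :
    x ∈ FLs (B : Set (Equiv.Perm P × Equiv.Perm L)) := fun g hg => hx g (hBH hg)

theorem nonempty_of {W : Set P} {c : ℕ} (h : c ≡ W.ncard [MOD p]) (hc : ¬ p ∣ c) :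
    W.Nonempty := by
  rw [Set.nonempty_iff_ne_empty]
  intro e
  rw [e, Set.ncard_empty] at h
  exact hc ((Nat.modEq_zero_iff_dvd).1 h)

/-- an exterior fixed point if `p` does not divide `m` -/
theorem ex_ext_fix (h : Plane I (m ^ 2 + m)) (s : Sub I S T m)
    {B : Subgroup (Equiv.Perm P × Equiv.Perm L)} (hB : ∀ g ∈ B, Col I g ∧ Pres S T g)
    (hk : Nat.card B = p ^ k) (hpm : ¬ p ∣ m) :
    ∃ x, Ext I T x ∧ x ∈ FPs (B : Set (Equiv.Perm P × Equiv.Perm L)) := by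
  obtain ⟨x, hx⟩ := nonempty_of (cnt_ext h s hB hk) (fun e => hpm (hp.out.dvd_of_dvd_pow e))
  exact ⟨x, hx.1, hx.2⟩

/-- a number congruent to `c` and positive is at least `3` -/
theorem three_le {c w : ℕ} (h : c ≡ w [MOD p]) (h0 : ¬ p ∣ c ∨ 1 ≤ w) (h1 : ¬ c ≡ 1 [MOD p] ∨ 2 ≤ w)
    (h2 : ¬ c ≡ 2 [MOD p]) : 3 ≤ w := by
  by_contra hlt
  have hc3 : w = 0 ∨ w = 1 ∨ w = 2 := by omega
  rcases hc3 with rfl | rfl | rfl
  · rcases h0 with h0 | h0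
    · exact h0 ((Nat.modEq_zero_iff_dvd).1 h)
    · omega
  · rcases h1 with h1 | h1
    · exact h1 h
    · omega
  · exact h2 h

theorem not_modEq {a b : ℕ} (hab : b ≤ a) (h : ¬ p ∣ a - b) : ¬ a ≡ b [MOD p] := fun e =>
  h ((Nat.modEq_iff_dvd' hab).1 e.symm)

/-- `p` divides none of `m`, `m + 1`, `m - 1` -/
theorem case_other (h : Plane I (m ^ 2 + m)) (s : Sub I S T m) (hmin : ∀ k < m, ¬ Extremal k)
    {H : Subgroup (Equiv.Perm P × Equiv.Perm L)} (hH : ∀ g ∈ H, Col I g ∧ Pres S T g)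
    (hk : Nat.card H = p ^ k) (h0 : ¬ p ∣ m) (h1 : ¬ p ∣ m + 1) (h2 : ¬ p ∣ m - 1) :
    Nat.card H ∣ m ^ 2 + m + 1 := by
  have hm := s.two
  obtain ⟨x, hx, hxH⟩ := ex_ext_fix h s hH hk h0
  obtain ⟨y, hy, B, hBH, hyB, ⟨j, hj⟩, hd⟩ := stepP H hk S
    (fun g hg y hy => ((hH g hg).2.s y).2 hy) s.ex_pt
  have hB : ∀ g ∈ B, Col I g ∧ Pres S T g := fun g hg => hH g (hBH hg)
  have hyF : y ∈ FPs (B : Set (Equiv.Perm P × Equiv.Perm L)) := hyB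
  have hxB := sub_fps hBH hxH
  have n1 : ¬ m + 1 ≡ 1 [MOD p] := not_modEq (by omega) (by simpa using h0)
  have n2 : ¬ m + 1 ≡ 2 [MOD p] := not_modEq (by omega) (by
    have e : m + 1 - 2 = m - 1 := by omega
    rwa [e])
  have h3 := three_le (cnt_point s hB hj hy hyF) (Or.inl h1) (Or.inl n1) n2
  obtain ⟨l1, l2, hl1, hl2, h12⟩ := (Set.one_lt_ncard_iff (Set.toFinite _)).1 (by omega :
    1 < ({l | l ∈ T ∧ I y l} ∩ FLs (B : Set (Equiv.Perm P × Equiv.Perm L))).ncard)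
  have h4 := three_le (cnt_line s hB hj hl1.1.1 hl1.2) (Or.inl h1) (Or.inl n1) n2
  have h5 := three_le (cnt_line s hB hj hl2.1.1 hl2.2) (Or.inl h1) (Or.inl n1) n2
  obtain ⟨b1, hb1, c1, hc1, hbc1, hbo1, hco1⟩ := three_off (Set.toFinite _) h4 y
  obtain ⟨b2, hb2, c2, hc2, hbc2, hbo2, hco2⟩ := three_off (Set.toFinite _) h5 y
  have h6 := star h s hmin hB hx hxB h12 hl1.1.2 hl2.1.2 hb1 hc1 hb2 hc2 hbc1 hbo1 hco1 hbc2 hbo2
    hco2
  rwa [h6, one_mul, s.cS] at hd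

/-- `p` divides `m + 1` -/
theorem case_plus (h : Plane I (m ^ 2 + m)) (s : Sub I S T m) (hmin : ∀ k < m, ¬ Extremal k)
    {H : Subgroup (Equiv.Perm P × Equiv.Perm L)} (hH : ∀ g ∈ H, Col I g ∧ Pres S T g)
    (hk : Nat.card H = p ^ k) (hp2 : p ≠ 2) (h1 : p ∣ m + 1) :
    Nat.card H ∣ m + 1 := by
  have hm := s.two
  have hp1 := hp.out.one_lt
  have h0 : ¬ p ∣ m := fun e => by
    have : p ∣ 1 := (Nat.dvd_add_right e).1 h1
    exact hp.out.one_lt.ne' (Nat.dvd_one.1 this)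
  have hv : ¬ p ∣ m ^ 2 + m + 1 := by
    intro e
    have e1 : p ∣ m ^ 2 + m := by
      have : m ^ 2 + m = m * (m + 1) := by ring
      rw [this]
      exact h1.mul_left m
    exact hp.out.one_lt.ne' (Nat.dvd_one.1 ((Nat.dvd_add_right e1).1 e))
  have hv1 : m ^ 2 + m + 1 ≡ 1 [MOD p] := by
    have e1 : m ^ 2 + m ≡ 0 [MOD p] := (Nat.modEq_zero_iff_dvd).2 (by
      have : m ^ 2 + m = m * (m + 1) := by ring
      rw [this]
      exact h1.mul_left m)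
    exact e1.add_right 1
  have hz : m + 1 ≡ 0 [MOD p] := (Nat.modEq_zero_iff_dvd).2 h1
  obtain ⟨x, hx, hxH⟩ := ex_ext_fix h s hH hk h0
  obtain ⟨c, hcS, hcF⟩ := nonempty_of (cnt_S s hH hk) hv
  obtain ⟨l, hlT, hlF, hcl⟩ : ∃ l, l ∈ T ∧ l ∈ FLs (H : Set (Equiv.Perm P × Equiv.Perm L)) ∧
      ¬ I c l := by
    by_contra hcon
    push Not at hcon
    have e : T ∩ FLs (H : Set (Equiv.Perm P × Equiv.Perm L)) =
        {l | l ∈ T ∧ I c l} ∩ FLs (H : Set (Equiv.Perm P × Equiv.Perm L)) := by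
      ext l
      constructor
      · rintro ⟨e1, e2⟩
        exact ⟨⟨e1, hcon l e1 e2⟩, e2⟩
      · rintro ⟨e1, e2⟩
        exact ⟨e1.1, e2⟩
    have e1 := cnt_T s hH hk
    rw [e] at e1
    have e2 := cnt_point s hH hk hcS hcF
    have e3 : (1 : ℕ) ≡ 0 [MOD p] := (hv1.symm.trans e1).trans (e2.symm.trans hz)
    exact hp.out.one_lt.ne' (Nat.dvd_one.1 ((Nat.modEq_zero_iff_dvd).1 e3))
  have hne : {q | q ∈ S ∧ I q l}.Nonempty := by
    apply Set.nonempty_of_ncard_ne_zero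
    rw [s.pt l hlT]
    omega
  obtain ⟨w, hw, B, hBH, hwB, ⟨j, hj⟩, hd⟩ := stepP H hk {q | q ∈ S ∧ I q l}
    (fun g hg y hy => by
      refine ⟨((hH g hg).2.s y).2 hy.1, ?_⟩
      have h1 := ((hH g hg).1 y l).2 hy.2
      rwa [hlF g hg] at h1) hne
  rw [s.pt l hlT] at hd
  have hB : ∀ g ∈ B, Col I g ∧ Pres S T g := fun g hg => hH g (hBH hg)
  have hxB := sub_fps hBH hxH
  have hcB := sub_fps hBH hcF
  have hwF : w ∈ FPs (B : Set (Equiv.Perm P × Equiv.Perm L)) := hwB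
  have hcw : c ≠ w := by
    rintro rfl
    exact hcl hw.2
  obtain ⟨t, hct, hwt⟩ := h.join c w hcw
  have htT : t ∈ T := s.jn c hcS w hw.1 hcw t hct hwt
  have htF : t ∈ FLs (B : Set (Equiv.Perm P × Equiv.Perm L)) := fun g hg =>
    fixL h (hB g hg).1 hcw (hcB g hg) (hwF g hg) hct hwt
  have hlt : l ≠ t := by
    rintro rfl
    exact hcl hct
  have big : ∀ t', t' ∈ T → t' ∈ FLs (B : Set (Equiv.Perm P × Equiv.Perm L)) → I w t' →
      3 ≤ ({q | q ∈ S ∧ I q t'} ∩ FPs (B : Set (Equiv.Perm P × Equiv.Perm L))).ncard := by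
    intro t' ht' ht'F hwt'
    refine three_le (cnt_line s hB hj ht' ht'F) (Or.inr ?_) (Or.inl ?_) ?_
    · exact Nat.one_le_iff_ne_zero.2 (Set.ncard_ne_zero_of_mem ⟨⟨hw.1, hwt'⟩, hwF⟩
        (Set.toFinite _))
    · intro e
      have e3 : (1 : ℕ) ≡ 0 [MOD p] := e.symm.trans hz
      exact hp.out.one_lt.ne' (Nat.dvd_one.1 ((Nat.modEq_zero_iff_dvd).1 e3))
    · intro e
      have e3 : (2 : ℕ) ≡ 0 [MOD p] := e.symm.trans hz
      exact hp2 ((Nat.prime_dvd_prime_iff_eq hp.out Nat.prime_two).1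
        ((Nat.modEq_zero_iff_dvd).1 e3))
  obtain ⟨b1, hb1, c1, hc1, hbc1, hbo1, hco1⟩ := three_off (Set.toFinite _)
    (big l hlT (sub_fls hBH hlF) hw.2) w
  obtain ⟨b2, hb2, c2, hc2, hbc2, hbo2, hco2⟩ := three_off (Set.toFinite _)
    (big t htT htF hwt) w
  have h6 := star h s hmin hB hx hxB hlt hw.2 hwt hb1 hc1 hb2 hc2 hbc1 hbo1 hco1 hbc2 hbo2 hco2
  rwa [h6, one_mul] at hd

/-- `p` divides `m - 1` -/
theorem case_minus (h : Plane I (m ^ 2 + m)) (s : Sub I S T m) (hmin : ∀ k < m, ¬ Extremal k)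
    {H : Subgroup (Equiv.Perm P × Equiv.Perm L)} (hH : ∀ g ∈ H, Col I g ∧ Pres S T g)
    (hk : Nat.card H = p ^ k) (hp2 : p ≠ 2) (h1 : p ∣ m - 1) :
    Nat.card H ∣ (m ^ 2 + m + 1) * (m - 1) ^ 2 := by
  have hm := s.two
  obtain ⟨m', rfl⟩ : ∃ m', m = m' + 1 := ⟨m - 1, by omega⟩
  rw [Nat.add_sub_cancel] at h1 ⊢
  have h0 : ¬ p ∣ m' + 1 := fun e => by
    have : p ∣ 1 := (Nat.dvd_add_right h1).1 e
    exact hp.out.one_lt.ne' (Nat.dvd_one.1 this)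
  have hm0 : m' ≡ 0 [MOD p] := (Nat.modEq_zero_iff_dvd).2 h1
  have hv3 : (m' + 1) ^ 2 + (m' + 1) + 1 ≡ 3 [MOD p] := by
    have e : (m' + 1) ^ 2 + (m' + 1) + 1 = m' * (m' + 3) + 3 := by ring
    rw [e]
    have e1 : m' * (m' + 3) ≡ 0 [MOD p] := (Nat.modEq_zero_iff_dvd).2 (h1.mul_right _)
    exact e1.add_right 3
  have hl2 : m' + 1 + 1 ≡ 2 [MOD p] := hm0.add_right 2
  obtain ⟨x, hx, hxH⟩ := ex_ext_fix h s hH hk h0
  obtain ⟨y, hy, B, hBH, hyB, ⟨j, hj⟩, hd⟩ := stepP H hk S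
    (fun g hg y hy => ((hH g hg).2.s y).2 hy) s.ex_pt
  rw [s.cS] at hd
  have hB : ∀ g ∈ B, Col I g ∧ Pres S T g := fun g hg => hH g (hBH hg)
  have hyF : y ∈ FPs (B : Set (Equiv.Perm P × Equiv.Perm L)) := hyB
  have hxB := sub_fps hBH hxH
  have cS := cnt_S s hB hj
  -- a second fixed point
  obtain ⟨y', hy', hyy⟩ : ∃ y', y' ∈ S ∩ FPs (B : Set (Equiv.Perm P × Equiv.Perm L)) ∧
      y ≠ y' := by
    by_contra hcon
    push Not at hcon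
    have e : S ∩ FPs (B : Set (Equiv.Perm P × Equiv.Perm L)) = {y} := by
      ext z
      constructor
      · intro hz
        exact (hcon z hz).symm
      · rintro rfl
        exact ⟨hy, hyF⟩
    rw [e, Set.ncard_singleton] at cS
    have e3 : (3 : ℕ) ≡ 1 [MOD p] := hv3.symm.trans cS
    have e4 : p ∣ 3 - 1 := (Nat.modEq_iff_dvd' (by norm_num)).1 e3.symm
    exact hp2 ((Nat.prime_dvd_prime_iff_eq hp.out Nat.prime_two).1 e4)
  obtain ⟨l, hyl, hyl'⟩ := h.join y y' hyy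
  have hlT : l ∈ T := s.jn y hy y' hy'.1 hyy l hyl hyl'
  have hlF : l ∈ FLs (B : Set (Equiv.Perm P × Equiv.Perm L)) := fun g hg =>
    fixL h (hB g hg).1 hyy (hyF g hg) (hy'.2 g hg) hyl hyl'
  obtain ⟨z, hz, hzl⟩ : ∃ z, z ∈ S ∩ FPs (B : Set (Equiv.Perm P × Equiv.Perm L)) ∧ ¬ I z l := by
    by_contra hcon
    push Not at hcon
    have e : S ∩ FPs (B : Set (Equiv.Perm P × Equiv.Perm L)) =
        {q | q ∈ S ∧ I q l} ∩ FPs (B : Set (Equiv.Perm P × Equiv.Perm L)) := by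
      ext q
      constructor
      · intro hq
        exact ⟨⟨hq.1, hcon q hq⟩, hq.2⟩
      · rintro ⟨e1, e2⟩
        exact ⟨e1.1, e2⟩
    rw [e] at cS
    have e2 := cnt_line s hB hj hlT hlF
    have e3 : (3 : ℕ) ≡ 2 [MOD p] := (hv3.symm.trans cS).trans (e2.symm.trans hl2)
    have e4 : p ∣ 3 - 2 := (Nat.modEq_iff_dvd' (by norm_num)).1 e3.symm
    exact hp.out.one_lt.ne' (Nat.dvd_one.1 e4)
  have hyz : y ≠ z := by
    rintro rfl
    exact hzl hyl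
  obtain ⟨t, hyt, hzt⟩ := h.join y z hyz
  have htT : t ∈ T := s.jn y hy z hz.1 hyz t hyt hzt
  have htF : t ∈ FLs (B : Set (Equiv.Perm P × Equiv.Perm L)) := fun g hg =>
    fixL h (hB g hg).1 hyz (hyF g hg) (hz.2 g hg) hyt hzt
  have hlt : l ≠ t := by
    rintro rfl
    exact hzl hzt
  -- the points on a side of the triangle
  have side : ∀ (l' : L) (u v : P), l' ∈ T → u ∈ S → v ∈ S → u ≠ v → I u l' → I v l' →
      ({q | q ∈ S ∧ I q l'} \ {u, v}).ncard = m' := by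
    intro l' u v hl' hu hv huv iu iv
    rw [Set.ncard_sdiff (by
      rintro q (rfl | rfl)
      · exact ⟨hu, iu⟩
      · exact ⟨hv, iv⟩) (Set.toFinite _), s.pt l' hl', Set.ncard_pair huv]
    omega
  have inv : ∀ (C : Subgroup (Equiv.Perm P × Equiv.Perm L)) (l' : L) (u v : P), C ≤ B →
      l' ∈ FLs (B : Set (Equiv.Perm P × Equiv.Perm L)) →
      u ∈ FPs (B : Set (Equiv.Perm P × Equiv.Perm L)) →
      v ∈ FPs (B : Set (Equiv.Perm P × Equiv.Perm L)) → ∀ g ∈ C,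
      ∀ q ∈ {q | q ∈ S ∧ I q l'} \ {u, v}, g.1 q ∈ {q | q ∈ S ∧ I q l'} \ {u, v} := by
    intro C l' u v hC hl' hu hv g hg q hq
    have hgB := hC hg
    refine ⟨⟨((hB g hgB).2.s q).2 hq.1.1, ?_⟩, ?_⟩
    · have h1 := ((hB g hgB).1 q l').2 hq.1.2
      rwa [hl' g hgB] at h1
    · rintro (e | e)
      · apply hq.2
        left
        exact g.1.injective (e.trans (hu g hgB).symm)
      · apply hq.2
        right
        exact g.1.injective (e.trans (hv g hgB).symm)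
  have ne : ∀ W : Set P, W.ncard = m' → W.Nonempty := by
    intro W hW
    apply Set.nonempty_of_ncard_ne_zero
    omega
  have s1 := side l y y' hlT hy hy'.1 hyy hyl hyl'
  obtain ⟨y1, hy1, B1, hB1, hy1B, ⟨j1, hj1⟩, hd1⟩ := stepP B hj _ (inv B l y y' le_rfl hlF hyF hy'.2)
    (ne _ s1)
  rw [s1] at hd1
  have s2 := side t y z htT hy hz.1 hyz hyt hzt
  obtain ⟨y2, hy2, B2, hB2, hy2B, ⟨j2, hj2⟩, hd2⟩ := stepP B1 hj1 _ (inv B1 t y z hB1 htF hyF hz.2)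
    (ne _ s2)
  rw [s2] at hd2
  have hB2' : B2 ≤ B := hB2.trans hB1
  have h6 : Nat.card B2 = 1 := by
    have hy1n : y1 ≠ y ∧ y1 ≠ y' :=
      ⟨fun e => hy1.2 (Or.inl e), fun e => hy1.2 (Or.inr e)⟩
    have hy2n : y2 ≠ y ∧ y2 ≠ z :=
      ⟨fun e => hy2.2 (Or.inl e), fun e => hy2.2 (Or.inr e)⟩
    refine star h s hmin (fun g hg => hB g (hB2' hg)) hx (sub_fps hB2' hxB) hlt hyl hyt
      (b1 := y') (c1 := y1) (b2 := z) (c2 := y2) ⟨⟨hy'.1, hyl'⟩, sub_fps hB2' hy'.2⟩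
      ⟨hy1.1, sub_fps hB2 hy1B⟩ ⟨⟨hz.1, hzt⟩, sub_fps hB2' hz.2⟩ ⟨hy2.1, hy2B⟩ hy1n.2.symm hyy.symm
      hy1n.1 hy2n.2.symm hyz.symm hy2n.1
  rw [h6, one_mul] at hd2
  calc Nat.card H ∣ Nat.card B * ((m' + 1) ^ 2 + (m' + 1) + 1) := hd
    _ ∣ (Nat.card B1 * m') * ((m' + 1) ^ 2 + (m' + 1) + 1) := mul_dvd_mul_right hd1 _
    _ ∣ (m' * m') * ((m' + 1) ^ 2 + (m' + 1) + 1) :=
        mul_dvd_mul_right (mul_dvd_mul_right hd2 _) _
    _ = _ := by ring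

end

end Pool.Agent.BB
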