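import Pool.Agent.Lib.MP_bbcd91_co.E2

set_option autoImplicit false

namespace Pool.Agent.BB

variable {P L : Type} {I : P → L → Prop} {m p k : ℕ} {S : Set P} {T : Set L}

/-- `p` divides `m` -/
theorem case_zero [Finite P] [Finite L] [hp : Fact p.Prime] (h : Plane I (m ^ 2 + m))
    (s : Sub I S T m) (hmin : ∀ k < m, ¬ Extremal k)
    {H : Subgroup (Equiv.Perm P × Equiv.Perm L)} (hH : ∀ g ∈ H, Col I g ∧ Pres S T g)
    (hk : Nat.card H = p ^ k) (h0 : p ∣ m) :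
    Nat.card H ∣ m ^ 6 := by
  have hm := s.two
  have hm0 : m ≡ 0 [MOD p] := (Nat.modEq_zero_iff_dvd).2 h0
  have hl1 : m + 1 ≡ 1 [MOD p] := hm0.add_right 1
  have hl : ¬ p ∣ m + 1 := fun e =>
    hp.out.one_lt.ne' (Nat.dvd_one.1 ((Nat.dvd_add_right h0).1 e))
  have hv : ¬ p ∣ m ^ 2 + m + 1 := by
    intro e
    have e1 : p ∣ m ^ 2 + m := by
      have : m ^ 2 + m = m * (m + 1) := by ring
      rw [this]
      exact h0.mul_right _
    exact hp.out.one_lt.ne' (Nat.dvd_one.1 ((Nat.dvd_add_right e1).1 e))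
  have hne : {x | Ext I T x}.Nonempty := by
    apply Set.nonempty_of_ncard_ne_zero
    rw [card_ext h s]
    positivity
  obtain ⟨x, hx, J, hJH, hxJ, ⟨j, hj⟩, hd⟩ := stepP H hk {x | Ext I T x}
    (fun g hg y hy => (hH g hg).2.ext (hH g hg).1 hy) hne
  rw [card_ext h s] at hd
  have hJ : ∀ g ∈ J, Col I g ∧ Pres S T g := fun g hg => hH g (hJH hg)
  have hxF : x ∈ FPs (J : Set (Equiv.Perm P × Equiv.Perm L)) := hxJ
  obtain ⟨c, hcS, hcF⟩ := nonempty_of (cnt_S s hJ hj) hv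
  obtain ⟨l, ⟨hlT, hcl⟩, hlF⟩ : ({l | l ∈ T ∧ I c l} ∩
      FLs (J : Set (Equiv.Perm P × Equiv.Perm L))).Nonempty := by
    rw [Set.nonempty_iff_ne_empty]
    intro e
    have e1 := cnt_point s hJ hj hcS hcF
    rw [e, Set.ncard_empty] at e1
    exact hl ((Nat.modEq_zero_iff_dvd).1 e1)
  -- a point off the line
  have e1 : (S \ {q | q ∈ S ∧ I q l}).ncard = m ^ 2 := by
    rw [Set.ncard_sdiff (fun q hq => hq.1) (Set.toFinite _), s.cS, s.pt l hlT]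
    omega
  have i1 : ∀ g ∈ J, ∀ q ∈ S \ {q | q ∈ S ∧ I q l}, g.1 q ∈ S \ {q | q ∈ S ∧ I q l} := by
    intro g hg q hq
    refine ⟨((hJ g hg).2.s q).2 hq.1, fun hq' => hq.2 ⟨hq.1, ?_⟩⟩
    have h2 := hq'.2
    rw [← hlF g hg] at h2
    exact ((hJ g hg).1 q l).1 h2
  obtain ⟨z, hz, J1, hJ1, hzJ, ⟨j1, hj1⟩, hd1⟩ := stepP J hj _ i1 (by
    apply Set.nonempty_of_ncard_ne_zero
    rw [e1]
    positivity)
  rw [e1] at hd1
  have hzl : ¬ I z l := fun e => hz.2 ⟨hz.1, e⟩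
  -- a second point on the line
  have e2 : ({q | q ∈ S ∧ I q l} \ {c}).ncard = m := by
    rw [Set.ncard_sdiff (by
      rintro q rfl
      exact ⟨hcS, hcl⟩) (Set.toFinite _), s.pt l hlT, Set.ncard_singleton]
    omega
  have i2 : ∀ g ∈ J1, ∀ q ∈ {q | q ∈ S ∧ I q l} \ {c}, g.1 q ∈ {q | q ∈ S ∧ I q l} \ {c} := by
    intro g hg q hq
    have hgJ := hJ1 hg
    refine ⟨⟨((hJ g hgJ).2.s q).2 hq.1.1, ?_⟩, fun e => hq.2 ?_⟩
    · have h1 := ((hJ g hgJ).1 q l).2 hq.1.2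
      rwa [hlF g hgJ] at h1
    · exact g.1.injective (Eq.trans e (hcF g hgJ).symm)
  obtain ⟨w, hw, J2, hJ2, hwJ, ⟨j2, hj2⟩, hd2⟩ := stepP J1 hj1 _ i2 (by
    apply Set.nonempty_of_ncard_ne_zero
    rw [e2]
    omega)
  rw [e2] at hd2
  have hJ2' : J2 ≤ J := hJ2.trans hJ1
  have hB : ∀ g ∈ J2, Col I g ∧ Pres S T g := fun g hg => hJ g (hJ2' hg)
  have hcB := sub_fps hJ2' hcF
  have hxB := sub_fps hJ2' hxF
  have hzB : z ∈ FPs (J2 : Set (Equiv.Perm P × Equiv.Perm L)) := fun g hg => hzJ g (hJ2 hg)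
  have hwB : w ∈ FPs (J2 : Set (Equiv.Perm P × Equiv.Perm L)) := hwJ
  have hwc : w ≠ c := fun e => hw.2 e
  have hcz : c ≠ z := by
    rintro rfl
    exact hzl hcl
  have hwz : w ≠ z := by
    rintro rfl
    exact hzl hw.1.2
  have third : ∀ u, u ∈ S → u ∈ FPs (J2 : Set (Equiv.Perm P × Equiv.Perm L)) → u ≠ z →
      ∃ t, I u t ∧ I z t ∧ ∃ b, b ∈ {q | q ∈ S ∧ I q t} ∩
        FPs (J2 : Set (Equiv.Perm P × Equiv.Perm L)) ∧ b ≠ z ∧ b ≠ u := by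
    intro u huS huF huz
    obtain ⟨t, hut, hzt⟩ := h.join u z huz
    have htT : t ∈ T := s.jn u huS z hz.1 huz t hut hzt
    have htF : t ∈ FLs (J2 : Set (Equiv.Perm P × Equiv.Perm L)) := fun g hg =>
      fixL h (hB g hg).1 huz (huF g hg) (hzB g hg) hut hzt
    have h2 : 2 ≤ ({q | q ∈ S ∧ I q t} ∩
        FPs (J2 : Set (Equiv.Perm P × Equiv.Perm L))).ncard := by
      have := (Set.one_lt_ncard_iff (Set.toFinite ({q | q ∈ S ∧ I q t} ∩
        FPs (J2 : Set (Equiv.Perm P × Equiv.Perm L))))).2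
        ⟨u, z, ⟨⟨huS, hut⟩, huF⟩, ⟨⟨hz.1, hzt⟩, hzB⟩, huz⟩
      omega
    have h3 := three_le (cnt_line s hB hj2 htT htF) (Or.inl hl) (Or.inr h2) (by
      intro e
      have e3 : (2 : ℕ) ≡ 1 [MOD p] := e.symm.trans hl1
      have e4 : p ∣ 2 - 1 := (Nat.modEq_iff_dvd' (by norm_num)).1 e3.symm
      exact hp.out.one_lt.ne' (Nat.dvd_one.1 e4))
    obtain ⟨b, hb, hbz, hbu⟩ := one_off (Set.toFinite _) h3 z u
    exact ⟨t, hut, hzt, b, hb, hbz, hbu⟩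
  obtain ⟨t1, hct, hzt1, b1, hb1, hb1z, hb1c⟩ := third c hcS hcB hcz
  obtain ⟨t2, hwt, hzt2, b2, hb2, hb2z, hb2w⟩ := third w hw.1.1 hwB hwz
  have h12 : t1 ≠ t2 := by
    rintro rfl
    rcases h.uniq c w t1 l hct hwt hcl hw.1.2 with e | e
    · exact hwc e.symm
    · exact hzl (e ▸ hzt1)
  have h6 := star h s hmin hB hx hxB h12 hzt1 hzt2 (b1 := c) (c1 := b1) (b2 := w) (c2 := b2)
    ⟨⟨hcS, hct⟩, hcB⟩ hb1 ⟨⟨hw.1.1, hwt⟩, hwB⟩ hb2 hb1c.symm hcz hb1z hb2w.symm hwz hb2z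
  rw [h6, one_mul] at hd2
  calc Nat.card H ∣ Nat.card J * m ^ 3 := hd
    _ ∣ (Nat.card J1 * m ^ 2) * m ^ 3 := mul_dvd_mul_right hd1 _
    _ ∣ (m * m ^ 2) * m ^ 3 := mul_dvd_mul_right (mul_dvd_mul_right hd2 _) _
    _ = m ^ 6 := by ring

/-- the order of a group leaving the subplane invariant if there is no smaller example -/
theorem order_bound [Finite P] [Finite L] (h : Plane I (m ^ 2 + m)) (s : Sub I S T m)
    (hmin : ∀ k < m, ¬ Extremal k) {G : Subgroup (Equiv.Perm P × Equiv.Perm L)}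
    (hG : ∀ g ∈ G, Col I g ∧ Pres S T g) :
    Nat.card G ∣ m ^ 6 * ((m ^ 2 - 1) * (m ^ 3 - 1)) := by
  have hm := s.two
  have hN : m ^ 6 * ((m ^ 2 - 1) * (m ^ 3 - 1)) =
      m ^ 6 * ((m + 1) * ((m ^ 2 + m + 1) * (m - 1) ^ 2)) := by
    obtain ⟨m', rfl⟩ : ∃ m', m = m' + 1 := ⟨m - 1, by omega⟩
    have e1 : (m' + 1) ^ 2 - 1 = m' * (m' + 2) := by
      have : (m' + 1) ^ 2 = m' * (m' + 2) + 1 := by ring
      rw [this, Nat.add_sub_cancel]
    have e2 : (m' + 1) ^ 3 - 1 = m' * (m' ^ 2 + 3 * m' + 3) := by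
      have : (m' + 1) ^ 3 = m' * (m' ^ 2 + 3 * m' + 3) + 1 := by ring
      rw [this, Nat.add_sub_cancel]
    rw [e1, e2, Nat.add_sub_cancel]
    ring
  rw [hN, Nat.dvd_iff_prime_pow_dvd_dvd]
  intro p k hp hpk
  haveI : Fact p.Prime := ⟨hp⟩
  obtain ⟨K, hK⟩ := Sylow.exists_subgroup_card_pow_prime (G := G) p hpk
  have hH : ∀ g ∈ K.map G.subtype, Col I g ∧ Pres S T g := by
    rintro g ⟨x, -, rfl⟩
    exact hG _ x.2
  have hk : Nat.card (K.map G.subtype) = p ^ k := by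
    rw [← hK]
    exact Nat.card_congr (K.equivMapOfInjective G.subtype G.subtype_injective).symm.toEquiv
  rw [← hk]
  by_cases h0 : p ∣ m
  · exact (case_zero h s hmin hH hk h0).mul_right _
  by_cases hp2 : p = 2
  · subst hp2
    have hodd : Odd m := Nat.not_even_iff_odd.1 (fun e => h0 e.two_dvd)
    have h1 := odd_odd h s hH hodd
    rw [hk] at h1 ⊢
    have : k = 0 := by
      by_contra hk0
      exact (Nat.not_even_iff_odd.2 h1) ((Nat.even_pow.2 ⟨even_two, hk0⟩))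
    rw [this, pow_zero]
    exact one_dvd _
  by_cases h1 : p ∣ m + 1
  · exact ((case_plus h s hmin hH hk hp2 h1).mul_right _).mul_left _
  by_cases h2 : p ∣ m - 1
  · exact ((case_minus h s hmin hH hk hp2 h2).mul_left _).mul_left _
  · exact (((case_other h s hmin hH hk h0 h1 h2).mul_right _).mul_left _).mul_left _

end Pool.Agent.BB
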